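import Pool.Agent.COH.Bd

set_option autoImplicit false
set_option linter.all false

/-!
# AnI: projections of closed sets: countable intersections (difficulty 2)

PROOF. `Fs` as in the header of `AnU` (`wellorder`, `pick`): `PrOf X N (app f n) (app Fs n)` for `n ∈ omega`. For `y` and `j` let
`yj y j = lam omega (fun i => app y (app pr (opair j i)))`. Let
`F = sep (prod X (funs omega omega)) (fun p => ∀ j, j ∈ omega → opair (fst p) (yj (snd p) j) ∈ app Fs j)`. `Cl2`: let `(x, y)` be a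
limit of `F` and `j ∈ omega`; apply `Cl2` of `app Fs j` to `(x, yj y j)`; for `k ∈ omega` there is by `bd_nat` (for
`P i l = app pr (opair j i) ∈ l`) a number `l ∈ omega` with `app pr (opair j i) ∈ l` for all `i ∈ k`; take the
approximation of `(x, y)` for a number above `l` and `k` (`nat_bd`, `UPol.mono`). Projection: let `x ∈ A`; for `j ∈ omega` choose
`z j` with `opair x (z j) ∈ app Fs j`: `zz = lam omega (fun j => pick θ' e' (fun z => opair x z ∈ app Fs j))` with a
wellordering of `funs omega omega`; let `y = lam omega (fun m => app (app zz (app p1 m)) (app p2 m))`; then `yj y j = app zz j`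
(`FnOn.ext`, `Cod.p1_pr`, `Cod.p2_pr`). The converse is clear.
-/

namespace Pool.Agent.COH

open Pool.Agent.H55.SC Pool.Agent.H55.ZFU

universe u

variable {M : Type u} [Model M] [Pure M] [Choice M] {X u N B g pr p1 p2 : M}

/-- the sequence with the number `j` coded by `y` -/
noncomputable def ani_yj (pr y j : M) : M := lam omega (fun i => app y (app pr (opair j i)))

instance ani_yj_dfun {ι : Type} (pr y j : (ι → M) → M) [h1 : DFun pr] [h2 : DFun y] [h3 : DFun j] :
    DFun (fun v => ani_yj (pr v) (y v) (j v)) := by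
  have i1 := DFun.rename (κ := Option ι) some h1
  have i2 := DFun.rename (κ := Option ι) some h2
  have i3 := DFun.rename (κ := Option ι) some h3
  unfold ani_yj; infer_instance

theorem ani_yj_mem (hc : Cod g pr p1 p2) {y j : M} (hy : y ∈ funs (omega : M) omega) (hj : j ∈ (omega : M)) :
    ani_yj pr y j ∈ funs (omega : M) omega := by
  refine mem_funs.2 ⟨lam_fnOn _ _, fun i hi => ?_⟩
  rw [ani_yj, app_lam hi]
  exact (mem_funs.1 hy).2 _ (hc.pr_mem j i hj hi)

theorem an_inter (h : UPol X u N) (hc : Cod g pr p1 p2) (f : M)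
    (hf : ∀ n : M, n ∈ (omega : M) → An X N (app f n)) {A : M}
    (hA : ∀ x : M, x ∈ A ↔ x ∈ X ∧ ∀ n : M, n ∈ (omega : M) → x ∈ app f n) : An X N A := by
  obtain ⟨θ, e, hθ, -, -, -, he⟩ := wellorder (pow (prod X (funs (omega : M) omega)))
  obtain ⟨Fs, hFs⟩ : ∃ Fs : M, Fs = lam omega (fun n => pick θ e (fun F => PrOf X N (app f n) F)) := ⟨_, rfl⟩
  have hPr : ∀ n : M, n ∈ (omega : M) → PrOf X N (app f n) (app Fs n) := by
    intro n hn
    rw [hFs, app_lam hn]
    refine pick_spec hθ (f := e) (fun F => PrOf X N (app f n) F) ?_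
    obtain ⟨-, F, hF⟩ := hf n hn
    have hFm : F ∈ pow (prod X (funs (omega : M) omega)) := by
      rw [mem_pow']
      intro p hp
      obtain ⟨x, y, rfl, hx, hy⟩ := hF.1.1 p hp
      exact opair_mem_prod.2 ⟨hx, hy⟩
    obtain ⟨i, hi, hie⟩ := he F hFm
    exact ⟨i, hi, by rw [hie]; exact hF⟩
  obtain ⟨F, hF⟩ : ∃ F : M, F = sep (prod X (funs (omega : M) omega))
      (fun p => ∀ j : M, j ∈ (omega : M) → opair (fst p) (ani_yj pr (snd p) j) ∈ app Fs j) := ⟨_, rfl⟩
  have hFm : ∀ x y : M, opair x y ∈ F ↔ (x ∈ X ∧ y ∈ funs (omega : M) omega) ∧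
      ∀ j : M, j ∈ (omega : M) → opair x (ani_yj pr y j) ∈ app Fs j := by
    intro x y
    rw [hF, mem_sep, opair_mem_prod, fst_opair, snd_opair]
  refine ⟨fun x hx => ((hA x).1 hx).1, F, ⟨fun p hp => ?_, fun x y hx hy hap => ?_⟩, fun x hx => ⟨fun hxA => ?_, ?_⟩⟩
  · rw [hF, mem_sep] at hp
    obtain ⟨x, hx, y, hy, rfl⟩ := mem_prod.1 hp.1
    exact ⟨x, y, rfl, hx, hy⟩
  · refine (hFm x y).2 ⟨⟨hx, hy⟩, fun j hj => ?_⟩
    refine (hPr j hj).1.2 x (ani_yj pr y j) hx (ani_yj_mem hc hy hj) (fun k hk => ?_)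
    obtain ⟨l, hl, hkl⟩ := bd_nat (fun i l : M => app pr (opair j i) ∈ l)
      (fun a l l' hl' hle ha => lt_of_lt_of_le' hl' ha hle) k hk
      (fun i hi => ⟨suc (app pr (opair j i)), suc_mem_omega (hc.pr_mem j i hj (nat_mem_omega hk hi)),
        mem_suc.2 (Or.inr rfl)⟩)
    obtain ⟨q, hq, hlq, hkq⟩ := nat_bd hl hk
    obtain ⟨x', y', hxy, hN, hyy⟩ := hap q hq
    refine ⟨x', ani_yj pr y' j, ((hFm x' y').1 hxy).2 j hj, h.mono hq (Or.inl hkq) hN, fun i hi => ?_⟩
    have hio := nat_mem_omega hk hi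
    rw [ani_yj, ani_yj, app_lam hio, app_lam hio]
    exact hyy _ (nat_trans hq l hlq _ (hkl i hi))
  · obtain ⟨θ', e', hθ', -, -, -, he'⟩ := wellorder (funs (omega : M) omega)
    obtain ⟨zz, hzz⟩ : ∃ zz : M, zz = lam omega (fun j => pick θ' e' (fun z => opair x z ∈ app Fs j)) := ⟨_, rfl⟩
    have hz : ∀ j : M, j ∈ (omega : M) → opair x (app zz j) ∈ app Fs j := by
      intro j hj
      rw [hzz, app_lam hj]
      refine pick_spec hθ' (f := e') (fun z => opair x z ∈ app Fs j) ?_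
      obtain ⟨z, hz⟩ := ((hPr j hj).2 x hx).1 (((hA x).1 hxA).2 j hj)
      obtain ⟨x', y', hxy, -, hy'⟩ := (hPr j hj).1.1 _ hz
      obtain ⟨-, rfl⟩ := opair_inj.1 hxy
      obtain ⟨i, hi, hie⟩ := he' z hy'
      exact ⟨i, hi, by rw [hie]; exact hz⟩
    have hzf : ∀ j : M, j ∈ (omega : M) → app zz j ∈ funs (omega : M) omega := by
      intro j hj
      obtain ⟨x', y', hxy, -, hy'⟩ := (hPr j hj).1.1 _ (hz j hj)
      obtain ⟨-, h2⟩ := opair_inj.1 hxy
      rw [h2]; exact hy'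
    obtain ⟨y, hy⟩ : ∃ y : M, y = lam omega (fun m => app (app zz (app p1 m)) (app p2 m)) := ⟨_, rfl⟩
    have hym : y ∈ funs (omega : M) omega := by
      rw [hy]
      refine mem_funs.2 ⟨lam_fnOn _ _, fun m hm => ?_⟩
      rw [app_lam hm]
      exact (mem_funs.1 (hzf _ (hc.p1_mem m hm))).2 _ (hc.p2_mem m hm)
    refine ⟨y, (hFm x y).2 ⟨⟨hx, hym⟩, fun j hj => ?_⟩⟩
    have hyj : ani_yj pr y j = app zz j := by
      refine FnOn.ext (a := omega) (lam_fnOn _ _) (mem_funs.1 (hzf j hj)).1 (fun i hi => ?_)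
      rw [ani_yj, app_lam hi, hy, app_lam (hc.pr_mem j i hj hi), hc.p1_pr j i hj hi, hc.p2_pr j i hj hi]
    rw [hyj]
    exact hz j hj
  · rintro ⟨y, hxy⟩
    refine (hA x).2 ⟨hx, fun n hn => ?_⟩
    exact ((hPr n hn).2 x hx).2 ⟨_, ((hFm x y).1 hxy).2 n hn⟩

end Pool.Agent.COH
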