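import Pool.Agent.COH.AnU
import Pool.Agent.COH.AnI

set_option autoImplicit false
set_option linter.all false

/-!
# AnB: Borel sets are projections of closed sets (difficulty 2)

PROOF. Let `S = sep (pow X) (fun A => An X N A ∧ An X N (diff X A))`. By `hH` it is enough that `S` is a σ-algebra
(`IsSigmaAlg`) which contains the open sets. Complements: `diff X (diff X A) = A` for `A ⊆ X` (`ext`). Unions: let `u'` be a
sequence (`HZ.IsSeq`) of members of `S` and `f = lam omega (fun n => app u' n)`, where `Rel u' n B ↔ B = app u' n`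
(`rel_iff`, `app_eq`). `an_union` for `f`; `an_inter` for `lam omega (fun n => diff X (app u' n))`; the union is included in
`X`. Open sets: `an_open`, and the complement of an open set is closed (`PolTop.top`, `Cl`), `an_closed`.
-/

namespace Pool.Agent.COH

open Pool.Agent.H55.SC Pool.Agent.H55.ZFU

universe u

variable {M : Type u} [Model M] [Pure M] [Choice M] {X τ u N B g pr p1 p2 : M}

theorem an_borel (h : PolTop X τ u N) (hc : Cod g pr p1 p2) {H : M}
    (hH : IsBorelIn (Model.E : M → M → Prop) omega X τ H) : An X N H := by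
  obtain ⟨S, hS⟩ : ∃ S : M, S = sep (pow X) (fun A : M => An X N A ∧ An X N (diff X A)) := ⟨_, rfl⟩
  have hmem : ∀ A : M, A ∈ S ↔ A ⊆ X ∧ An X N A ∧ An X N (diff X A) := by
    intro A
    rw [hS, mem_sep, mem_pow']
  have hU := h.upol
  have h1 : H ∈ S := by
    refine hH S ⟨?_, ?_, ?_⟩ ?_
    · intro A hA
      exact ((hmem A).1 hA).1
    · intro A C hA hC
      have e1 : C = diff X A := ext (fun x => by rw [mem_diff]; exact hC x)
      have e2 : diff X C = A := by
        refine ext (fun x => ?_)
        rw [mem_diff, e1, mem_diff]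
        constructor
        · rintro ⟨hx, hx'⟩
          by_contra hxA
          exact hx' ⟨hx, hxA⟩
        · intro hx
          exact ⟨((hmem A).1 hA).1 x hx, fun hx' => hx'.2 hx⟩
      refine (hmem C).2 ⟨fun x hx => ((hC x).1 hx).1, ?_, ?_⟩
      · rw [e1]; exact ((hmem A).1 hA).2.2
      · rw [e2]; exact ((hmem A).1 hA).2.1
    · intro v hv hvS C hC
      have hex : ∀ n : M, n ∈ (omega : M) → ∃! y : M, opair n y ∈ v := by
        intro n hn
        obtain ⟨y, hy, hy'⟩ := hv n hn
        exact ⟨y, rel_iff.1 hy, fun z hz => hy' z (rel_iff.2 hz)⟩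
      have happ : ∀ n : M, n ∈ (omega : M) → app v n ∈ S := by
        intro n hn
        exact hvS n (app v n) hn (rel_iff.2 (opair_app (hex n hn)))
      have hC' : ∀ x : M, x ∈ C ↔ ∃ n : M, n ∈ (omega : M) ∧ x ∈ app v n := by
        intro x
        refine (hC x).trans ⟨?_, ?_⟩
        · rintro ⟨n, A, hn, hA, hx⟩
          refine ⟨n, hn, ?_⟩
          rw [app_eq (hex n hn) (rel_iff.1 hA)]
          exact hx
        · rintro ⟨n, hn, hx⟩
          exact ⟨n, app v n, hn, rel_iff.2 (opair_app (hex n hn)), hx⟩
      refine (hmem C).2 ⟨?_, ?_, ?_⟩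
      · intro x hx
        obtain ⟨n, hn, hx'⟩ := (hC' x).1 hx
        exact ((hmem _).1 (happ n hn)).1 x hx'
      · exact an_union hU v (fun n hn => ((hmem _).1 (happ n hn)).2.1) hC'
      · refine an_inter hU hc (lam omega (fun n : M => diff X (app v n))) ?_ ?_
        · intro n hn
          rw [app_lam hn]
          exact ((hmem _).1 (happ n hn)).2.2
        · intro x
          rw [mem_diff]
          constructor
          · rintro ⟨hx, hx'⟩
            refine ⟨hx, fun n hn => ?_⟩
            rw [app_lam hn, mem_diff]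
            exact ⟨hx, fun hxn => hx' ((hC' x).2 ⟨n, hn, hxn⟩)⟩
          · rintro ⟨hx, hx'⟩
            refine ⟨hx, fun hxC => ?_⟩
            obtain ⟨n, hn, hxn⟩ := (hC' x).1 hxC
            have h2 := hx' n hn
            rw [app_lam hn, mem_diff] at h2
            exact h2.2 hxn
    · intro O hO
      have hO' := (h.top O).1 hO
      refine (hmem O).2 ⟨hO'.1, an_open h hO, an_closed hU ⟨fun x hx => (mem_diff.1 hx).1, ?_⟩⟩
      intro x hx hlim
      refine mem_diff.2 ⟨hx, fun hxO => ?_⟩
      obtain ⟨k, hk, hk'⟩ := hO'.2 x hxO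
      obtain ⟨y, hy, hy'⟩ := hlim k hk
      exact (mem_diff.1 hy).2 (hk' y hy')
  exact ((hmem H).1 h1).2.1

end Pool.Agent.COH
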