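import Pool.Agent.COH.Bd

set_option autoImplicit false
set_option linter.all false

/-!
# AnU: projections of closed sets: closed sets, countable unions, open sets (difficulty 2)

PROOF. `an_closed`: `F = prod A (funs omega omega)`. (`funs omega omega` is not empty: `lam omega (fun _ => ∅)`.)
`an_union`: let `θ`, `e` be given by `wellorder (pow (prod X (funs omega omega)))` and
`Fs = lam omega (fun n => pick θ e (fun F => PrOf X N (app f n) F))` (`Cl2` gives `F ⊆ prod X (funs omega omega)`;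
`pick_spec`). For `y` let `sh y = lam omega (fun i => app y (suc i))`. Let
`F = sep (prod X (funs omega omega)) (fun p => opair (fst p) (sh (snd p)) ∈ app Fs (app (snd p) ∅))`. `Cl2`: for `(x, y)` a limit of
`F`, apply `Cl2` of `app Fs (app y ∅)` to `(x, sh y)`: for `k` take the approximation for `suc k` (`app y ∅ = app y' ∅`
because `∅ ∈ suc k`, and `app y (suc i) = app y' (suc i)` for `i ∈ k` because `suc i ∈ suc k`; `UPol.mono`). Projection: if
`x ∈ app f n`, `opair x z ∈ app Fs n`, let `y = lam omega (fun i => iteM (i = ∅) n (app z (bigU i)))`; then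
`app y ∅ = n` and `sh y = z` (`FnOn.ext`, `bigU_suc`, `nat_trans`). `an_open`: by `PolTop.top` the set `O` is the union
of the sets `A k = sep X (fun x => ∀ z, Nb N x z k → z ∈ O)`, `k ∈ omega` (`UPol.refl`), which are closed: if `x` is a limit of
`A k` and `Nb N x z k`, then by `UPol.symm`, `UPol.opn` there is `l` with `Nb N x w l → Nb N z w k`; take `w ∈ A k` with
`Nb N x w l`; then `Nb N w z k`, so `z ∈ O`. Use `an_union` for `lam omega A`.
-/

namespace Pool.Agent.COH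

open Pool.Agent.H55.SC Pool.Agent.H55.ZFU

universe u

variable {M : Type u} [Model M] [Pure M] [Choice M] {X u N B : M}

theorem anu_funs : ∃ y : M, y ∈ funs (omega : M) omega := by
  refine ⟨lam omega (fun _ => ∅), mem_funs.2 ⟨lam_fnOn _ _, fun x hx => ?_⟩⟩
  rw [app_lam hx]
  exact empty_mem_omega

theorem an_closed (h : UPol X u N) {A : M} (hA : Cl X N A) : An X N A := by
  refine ⟨hA.1, prod A (funs omega omega), ⟨fun p hp => ?_, fun x y hx hy hk => ?_⟩, fun x hx => ⟨fun hxA => ?_, ?_⟩⟩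
  · obtain ⟨x, hx, y, hy, rfl⟩ := mem_prod.1 hp
    exact ⟨x, y, rfl, hA.1 x hx, hy⟩
  · refine opair_mem_prod.2 ⟨hA.2 x hx (fun k hk' => ?_), hy⟩
    obtain ⟨x', y', h1, h2, -⟩ := hk k hk'
    exact ⟨x', (opair_mem_prod.1 h1).1, h2⟩
  · obtain ⟨y, hy⟩ := anu_funs (M := M)
    exact ⟨y, opair_mem_prod.2 ⟨hxA, hy⟩⟩
  · rintro ⟨y, hy⟩
    exact (opair_mem_prod.1 hy).1

theorem anu_choose {f : M} (hf : ∀ n : M, n ∈ (omega : M) → ∃ F : M, PrOf X N (app f n) F) :
    ∃ Fs : M, ∀ n : M, n ∈ (omega : M) → PrOf X N (app f n) (app Fs n) := by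
  obtain ⟨θ, e, hθ, -, -, -, he⟩ := wellorder (pow (prod X (funs (omega : M) omega)))
  refine ⟨lam omega (fun n => pick θ e (fun F => PrOf X N (app f n) F)), fun n hn => ?_⟩
  rw [app_lam hn]
  refine pick_spec hθ (fun F => PrOf X N (app f n) F) ?_
  obtain ⟨F, hF⟩ := hf n hn
  obtain ⟨i, hi, hie⟩ := he F (mem_pow'.2 (fun p hp => by
    obtain ⟨x, y, rfl, h1, h2⟩ := hF.1.1 p hp
    exact opair_mem_prod.2 ⟨h1, h2⟩))
  exact ⟨i, hi, by rw [hie]; exact hF⟩

/-- the shift of a sequence -/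
noncomputable def anuSh (y : M) : M := lam omega (fun i => app y (suc i))

instance anuSh_dfun {ι : Type} (t : (ι → M) → M) [DFun t] : DFun (fun v => anuSh (t v)) := by
  refine DFun.comp1 (F := fun a : M => anuSh a) ?_ t
  unfold anuSh; infer_instance

theorem anuSh_app {y i : M} (hi : i ∈ (omega : M)) : app (anuSh y) i = app y (suc i) := by
  unfold anuSh
  rw [app_lam hi]

theorem anuSh_funs {y : M} (hy : y ∈ funs (omega : M) omega) : anuSh y ∈ funs (omega : M) omega := by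
  refine mem_funs.2 ⟨lam_fnOn _ _, fun i hi => ?_⟩
  rw [anuSh_app hi]
  exact (mem_funs.1 hy).2 _ (suc_mem_omega hi)

theorem anu_cons {n z : M} (hn : n ∈ (omega : M)) (hz : z ∈ funs (omega : M) omega) :
    ∃ y : M, y ∈ funs (omega : M) omega ∧ app y ∅ = n ∧ anuSh y = z := by
  have hs : ∀ i : M, i ∈ (omega : M) → app (lam omega (fun i => iteM (i = ∅) n (app z (bigU i)))) (suc i) = app z i := by
    intro i hi
    rw [app_lam (suc_mem_omega hi), iteM_neg (suc_ne_empty i), bigU_suc (nat_trans hi)]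
  have h0 : app (lam omega (fun i => iteM (i = ∅) n (app z (bigU i)))) ∅ = n := by
    rw [app_lam empty_mem_omega, iteM_pos rfl]
  refine ⟨lam omega (fun i => iteM (i = ∅) n (app z (bigU i))), mem_funs.2 ⟨lam_fnOn _ _, fun i hi => ?_⟩, h0, ?_⟩
  · rcases omega_cases hi with rfl | ⟨m, hm, rfl⟩
    · rw [h0]; exact hn
    · rw [hs m hm]; exact (mem_funs.1 hz).2 m hm
  · refine FnOn.ext (a := omega) (lam_fnOn _ _) (mem_funs.1 hz).1 (fun i hi => ?_)
    rw [anuSh_app hi, hs i hi]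

theorem an_union (h : UPol X u N) (f : M) (hf : ∀ n : M, n ∈ (omega : M) → An X N (app f n)) {A : M}
    (hA : ∀ x : M, x ∈ A ↔ ∃ n : M, n ∈ (omega : M) ∧ x ∈ app f n) : An X N A := by
  obtain ⟨Fs, hFs⟩ := anu_choose (X := X) (N := N) (f := f) (fun n hn => (hf n hn).2)
  have hmem : ∀ x y : M, opair x y ∈ sep (prod X (funs (omega : M) omega))
      (fun p => opair (fst p) (anuSh (snd p)) ∈ app Fs (app (snd p) ∅)) ↔
      (x ∈ X ∧ y ∈ funs (omega : M) omega) ∧ opair x (anuSh y) ∈ app Fs (app y ∅) := by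
    intro x y
    rw [mem_sep, opair_mem_prod, fst_opair, snd_opair]
  have happ : ∀ y : M, y ∈ funs (omega : M) omega → app y ∅ ∈ (omega : M) := fun y hy =>
    (mem_funs.1 hy).2 _ empty_mem_omega
  refine ⟨fun x hx => ?_, sep (prod X (funs (omega : M) omega))
      (fun p => opair (fst p) (anuSh (snd p)) ∈ app Fs (app (snd p) ∅)),
      ⟨fun p hp => ?_, fun x y hx hy hk => ?_⟩, fun x hx => ⟨fun hxA => ?_, ?_⟩⟩
  · obtain ⟨n, hn, hxn⟩ := (hA x).1 hx
    exact (hf n hn).1 x hxn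
  · obtain ⟨x, hx, y, hy, rfl⟩ := mem_prod.1 (mem_sep.1 hp).1
    exact ⟨x, y, rfl, hx, hy⟩
  · rw [hmem]
    refine ⟨⟨hx, hy⟩, (hFs _ (happ y hy)).1.2 x (anuSh y) hx (anuSh_funs hy) (fun k hk' => ?_)⟩
    obtain ⟨x', y', h1, h2, h3⟩ := hk (suc k) (suc_mem_omega hk')
    rw [hmem] at h1
    refine ⟨x', anuSh y', ?_, h.step hk' h2, fun i hi => ?_⟩
    · rw [h3 ∅ (empty_mem_suc hk')]
      exact h1.2
    · have hi' := nat_mem_omega hk' hi
      rw [anuSh_app hi', anuSh_app hi']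
      exact h3 _ (suc_mem_suc hk' hi)
  · obtain ⟨n, hn, hxn⟩ := (hA x).1 hxA
    obtain ⟨z, hz⟩ := ((hFs n hn).2 x hx).1 hxn
    obtain ⟨x', z', he, -, hz'⟩ := (hFs n hn).1.1 _ hz
    obtain ⟨-, rfl⟩ := opair_inj.1 he
    obtain ⟨y, hy, h0, h1⟩ := anu_cons hn hz'
    refine ⟨y, (hmem x y).2 ⟨⟨hx, hy⟩, ?_⟩⟩
    rw [h0, h1]
    exact hz
  · rintro ⟨y, hy⟩
    rw [hmem] at hy
    refine (hA x).2 ⟨app y ∅, happ y hy.1.2, ?_⟩
    exact ((hFs _ (happ y hy.1.2)).2 x hx).2 ⟨_, hy.2⟩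

theorem an_open {τ : M} (h : PolTop X τ u N) {O : M} (hO : O ∈ τ) : An X N O := by
  obtain ⟨h1, h2⟩ := (h.top O).1 hO
  have hmem : ∀ k x : M, x ∈ sep X (fun x => ∀ z : M, Nb N x z k → z ∈ O) ↔ x ∈ X ∧ ∀ z : M, Nb N x z k → z ∈ O := by
    intro k x
    rw [mem_sep]
  refine an_union h.upol (lam omega (fun k => sep X (fun x => ∀ z : M, Nb N x z k → z ∈ O))) (fun n hn => ?_)
    (fun x => ⟨fun hx => ?_, ?_⟩)
  · rw [app_lam hn]
    refine an_closed h.upol ⟨fun x hx => ((hmem n x).1 hx).1, fun x hx hk => (hmem n x).2 ⟨hx, fun z hz => ?_⟩⟩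
    obtain ⟨l, hl, hl'⟩ := h.upol.opn z x n hn (h.upol.symm _ _ _ hz)
    obtain ⟨w, hw, hw'⟩ := hk l hl
    exact ((hmem n w).1 hw).2 z (h.upol.symm _ _ _ (hl' w hw'))
  · obtain ⟨k, hk, hk'⟩ := h2 x hx
    refine ⟨k, hk, ?_⟩
    rw [app_lam hk]
    exact (hmem k x).2 ⟨h1 x hx, hk'⟩
  · rintro ⟨k, hk, hx⟩
    rw [app_lam hk] at hx
    obtain ⟨hx1, hx2⟩ := (hmem k x).1 hx
    exact hx2 x (h.upol.refl x k hx1 hk)

end Pool.Agent.COH
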