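import Pool.Agent.H55.Sig.HZDefs

set_option autoImplicit false

/-!
# Subsets of Polish groups inside a model: the Hurewicz property, generated subgroups, Borel sets, sigma-compactness

All notions are relativized to a structure `(M, E)`: all quantifiers range over `M`, and `E` is the membership
relation of the model. `w` is the set of natural numbers of the model; for natural numbers, `E` is the order. `G` is a
set of the model and `σ` is a topology on `G`. `Sub`, `Rel`, `El`, `IntFun₂`, `Cont`, `Cont₂`, `IsPolish` are defined in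
`Pool/Agent/H55/SCDefs.lean` and `Pool/Agent/H55/CSDefs.lean`; `HZ.IsSeq` (functions with domain `w`) and `HZ.IsFinite`
in `Pool/Agent/H55/Sig/HZDefs.lean`.
-/

namespace Pool.Agent.COH

open Pool.Agent.H55.SC Pool.Agent.H55.CS Pool.Agent.H55.HZ

universe u

variable {M : Type u} (E : M → M → Prop) (w : M)

/-- In the model, `(G, σ)` is a Polish group: a Polish space with a continuous group structure. -/
structure IsPolishGroup (G σ : M) [Group (El E G)] : Prop where
  polish : IsPolish E w G σ
  mul_internal : IntFun₂ E (fun g h : El E G => g * h)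
  mul_cont : Cont₂ E σ σ σ (fun g h : El E G => (g * h).1)
  inv_cont : Cont E σ σ (fun g : El E G => g⁻¹)

/-- In the model, `H` is a subgroup of `G`. -/
def IsSubgp (G : M) [Group (El E G)] (H : M) : Prop := Sub E H G ∧ E (1 : El E G).1 H ∧
  (∀ x y : El E G, E x.1 H → E y.1 H → E (x * y).1 H) ∧ ∀ x : El E G, E x.1 H → E (x⁻¹).1 H

/-- In the model, `H` is the subgroup of `G` generated by `X`: the smallest subgroup containing `X`. -/
def IsGenBy (G : M) [Group (El E G)] (X H : M) : Prop :=
  IsSubgp E G H ∧ Sub E X H ∧ ∀ K, IsSubgp E G K → Sub E X K → Sub E H K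

/-- In the model, `S` is a σ-algebra of subsets of `G`. -/
def IsSigmaAlg (G S : M) : Prop := (∀ B, E B S → Sub E B G) ∧
  (∀ B C, E B S → (∀ x, E x C ↔ E x G ∧ ¬ E x B) → E C S) ∧
  ∀ u, IsSeq E w u → (∀ n B, E n w → Rel E u n B → E B S) →
    ∀ C, (∀ x, E x C ↔ ∃ n B, E n w ∧ Rel E u n B ∧ E x B) → E C S

/-- In the model, `H` is a Borel subset of the space `(G, σ)`: it belongs to all σ-algebras which contain the open
sets. -/
def IsBorelIn (G σ H : M) : Prop := ∀ S, IsSigmaAlg E w G S → (∀ O, E O σ → E O S) → E H S

/-- In the model, `K` is a compact subset of a space with the topology `σ`: every family of open sets which covers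
`K` has a finite subfamily which covers `K`. -/
def IsCompactIn (σ K : M) : Prop := ∀ V, (∀ O, E O V → E O σ) → (∀ x, E x K → ∃ O, E O V ∧ E x O) →
  ∃ F, Sub E F V ∧ IsFinite E w F ∧ ∀ x, E x K → ∃ O, E O F ∧ E x O

/-- In the model, `H` is σ-compact: the union of a sequence of compact sets. -/
def IsSigmaCompactIn (σ H : M) : Prop := ∃ u, IsSeq E w u ∧ (∀ n K, E n w → Rel E u n K → IsCompactIn E w σ K) ∧
  ∀ x, E x H ↔ ∃ n K, E n w ∧ Rel E u n K ∧ E x K

/-- In the model, `u` is a sequence of families of open sets, each of which covers `X`. -/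
def IsCovers (σ X u : M) : Prop := IsSeq E w u ∧ ∀ n V, E n w → Rel E u n V →
  (∀ O, E O V → E O σ) ∧ ∀ x, E x X → ∃ O, E O V ∧ E x O

/-- In the model, `X` is a subset of `G` with the Hurewicz property: for every sequence of open covers of `X` one can
choose finite subfamilies such that every point of `X` is covered by all but finitely many of them. -/
def IsHurewiczIn (G σ X : M) : Prop := Sub E X G ∧ ∀ u, IsCovers E w σ X u →
  ∃ v, IsSeq E w v ∧ (∀ n V F, E n w → Rel E u n V → Rel E v n F → Sub E F V ∧ IsFinite E w F) ∧
    ∀ x, E x X → ∃ m, E m w ∧ ∀ n F, E n w → (E m n ∨ m = n) → Rel E v n F → ∃ O, E O F ∧ E x O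

/-- In the model, every Borel subgroup of a Polish group which is generated by a set with the Hurewicz property is
σ-compact. -/
def HurewiczGroupsSigmaCompact : Prop := ∀ (G σ : M) (_ : Group (El E G)), IsPolishGroup E w G σ →
  ∀ X H, IsHurewiczIn E w G σ X → IsGenBy E G X H → IsBorelIn E w G σ H → IsSigmaCompactIn E w σ H

end Pool.Agent.COH
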