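import Pool.Agent.H55.SCBridge
import Pool.Agent.COH.Defs

set_option autoImplicit false
set_option linter.all false

/-!
# Basic notions for the argument inside the model (squad COH)

`M` is a model of ZF without urelements (`Model M`, `Pure M`), with choice (`Choice M`) where needed. Definability
(`Dfn`, `DFun`) is found by instance resolution. For the library see `Pool/Agent/H55/Basic.lean` (`sep`, `mem_sep`,
`opair`, `prod`, `img`, ...), `Func.lean` (`app`, `FnOn`, `lam`, `app_lam`, `funs`, `mem_funs`, `omega`,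
`omega_induction`), `Rec.lean` (`iteM`, `omega_rec`), `Ord.lean` (`wellorder`, `least_ord`), `Seq.lean` (`mu`, `pick`,
`pick_spec`, `fst`, `snd`, `nat_tri`), `Pol.lean` (`Le`, `nat_bd`, `Nb`, `UPol`), `SCBridge.lean` (`PolTop`).

Instance pattern (needed before `mem_sep`, `omega_induction`, `app_lam` for a variable predicate or function):
`have iP : ∀ {ι : Type} (t : (ι → M) → M) [DFun t], Dfn (fun v => P (t v)) := fun t => Dfn.comp1 hP t`.
-/

namespace Pool.Agent.COH

open Pool.Agent.H55.SC Pool.Agent.H55.ZFU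

universe u

variable {M : Type u} [Model M]

/-! ### The space: `X` with entourages `N`, a dense sequence `u` and a countable base `B` -/

/-- The point `x` belongs to the basic set with the number `m`. -/
def In (B m x : M) : Prop := opair m x ∈ B

instance in_dfn {ι : Type} (B m x : (ι → M) → M) [DFun B] [DFun m] [DFun x] :
    Dfn (fun v => In (B v) (m v) (x v)) := by
  unfold In; infer_instance

/-- `X` is a complete separable space (`UPol X u N`), and the sets `{x | In B m x}`, `m ∈ ω`, are a base. -/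
structure Spc (X u N B : M) : Prop where
  pol : UPol X u N
  mem : ∀ m x : M, In B m x → m ∈ (omega : M) ∧ x ∈ X
  opn : ∀ m x : M, In B m x → ∃ l : M, l ∈ (omega : M) ∧ ∀ z : M, Nb N x z l → In B m z
  small : ∀ x k : M, x ∈ X → k ∈ (omega : M) → ∃ m : M, In B m x ∧ ∀ z : M, In B m z → Nb N x z k

/-- `K` is compact: every family `Z` of basic sets which covers `K` has a finite subfamily which covers `K`. -/
def CC (X B K : M) : Prop := K ⊆ X ∧ ∀ Z : M, (∀ x : M, x ∈ K → ∃ m : M, m ∈ Z ∧ In B m x) →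
  ∃ n : M, n ∈ (omega : M) ∧ ∀ x : M, x ∈ K → ∃ m : M, m ∈ Z ∧ m ∈ n ∧ In B m x

instance cc_dfn {ι : Type} (X B K : (ι → M) → M) [DFun X] [DFun B] [DFun K] :
    Dfn (fun v => CC (X v) (B v) (K v)) := by
  refine Dfn.comp3 (P := fun X B K : M => CC X B K) ?_ X B K
  unfold CC; infer_instance

/-- `F` is a closed subset of `X`. -/
def Cl (X N F : M) : Prop := F ⊆ X ∧
  ∀ x : M, x ∈ X → (∀ k : M, k ∈ (omega : M) → ∃ y : M, y ∈ F ∧ Nb N x y k) → x ∈ F

instance cl_dfn {ι : Type} (X N F : (ι → M) → M) [DFun X] [DFun N] [DFun F] :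
    Dfn (fun v => Cl (X v) (N v) (F v)) := by
  refine Dfn.comp3 (P := fun X N F : M => Cl X N F) ?_ X N F
  unfold Cl; infer_instance

/-- The closed set coded by `a ⊆ ω`: all points `x` such that all basic sets containing `x` have numbers in `a`. -/
noncomputable def Cs (X B a : M) : M := sep X (fun x => ∀ m : M, In B m x → m ∈ a)

instance cs_dfun {ι : Type} (X B a : (ι → M) → M) [DFun X] [DFun B] [DFun a] :
    DFun (fun v => Cs (X v) (B v) (a v)) := by
  refine DFun.comp3 (F := fun X B a : M => Cs X B a) ?_ X B a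
  unfold Cs; infer_instance

theorem mem_Cs {X B a x : M} : x ∈ Cs X B a ↔ x ∈ X ∧ ∀ m : M, In B m x → m ∈ a := by
  rw [Cs, mem_sep]

/-- The trace of `K`: the numbers of the basic sets which meet `K`. -/
noncomputable def tr (B K : M) : M := sep omega (fun m => ∃ x : M, x ∈ K ∧ In B m x)

instance tr_dfun {ι : Type} (B K : (ι → M) → M) [DFun B] [DFun K] : DFun (fun v => tr (B v) (K v)) := by
  refine DFun.comp2 (F := fun B K : M => tr B K) ?_ B K
  unfold tr; infer_instance

theorem mem_tr {B K m : M} : m ∈ tr B K ↔ m ∈ (omega : M) ∧ ∃ x : M, x ∈ K ∧ In B m x := by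
  rw [tr, mem_sep]

/-- The row of a set of pairs of natural numbers. -/
noncomputable def row (S n : M) : M := sep omega (fun m => opair n m ∈ S)

instance row_dfun {ι : Type} (S n : (ι → M) → M) [DFun S] [DFun n] : DFun (fun v => row (S v) (n v)) := by
  refine DFun.comp2 (F := fun S n : M => row S n) ?_ S n
  unfold row; infer_instance

theorem mem_row {S n m : M} : m ∈ row S n ↔ m ∈ (omega : M) ∧ opair n m ∈ S := by
  rw [row, mem_sep]

/-- The slice of `L` given by `i` and `n`. -/
noncomputable def sl (X L i n : M) : M := sep X (fun x => opair (opair i n) x ∈ L)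

instance sl_dfun {ι : Type} (X L i n : (ι → M) → M) [hX : DFun X] [hL : DFun L] [hi : DFun i] [hn : DFun n] :
    DFun (fun v => sl (X v) (L v) (i v) (n v)) := by
  have h1 := DFun.rename (κ := Option ι) some hL
  have h2 := DFun.rename (κ := Option ι) some hi
  have h3 := DFun.rename (κ := Option ι) some hn
  unfold sl; infer_instance

theorem mem_sl {X L i n x : M} : x ∈ sl X L i n ↔ x ∈ X ∧ opair (opair i n) x ∈ L := by
  rw [sl, mem_sep]

/-! ### The hypotheses -/

/-- The Hurewicz property of `Y` in terms of basic sets: if for every `n ∈ ω` the basic sets with numbers `m`,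
`(n, m) ∈ C`, cover `Y`, then there is a function `h` such that for every `x ∈ Y` and almost all `n` one of the finitely
many of them with numbers `m < h n` contains `x`. -/
def HB (B Y : M) : Prop := ∀ C : M,
  (∀ n x : M, n ∈ (omega : M) → x ∈ Y → ∃ m : M, opair n m ∈ C ∧ In B m x) →
    ∃ h : M, FnOn h omega ∧ (∀ n : M, n ∈ (omega : M) → app h n ∈ (omega : M)) ∧
      ∀ x : M, x ∈ Y → ∃ n0 : M, n0 ∈ (omega : M) ∧ ∀ n : M, n ∈ (omega : M) → Le n0 n →
        ∃ m : M, m ∈ app h n ∧ opair n m ∈ C ∧ In B m x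

/-- The function `dv` (division in a group) maps pairs of points of `X` to points of `X` and is continuous. -/
structure Dv (X N dv : M) : Prop where
  mem : ∀ x y : M, x ∈ X → y ∈ X → app dv (opair x y) ∈ X
  cont : ∀ x y k : M, x ∈ X → y ∈ X → k ∈ (omega : M) → ∃ l : M, l ∈ (omega : M) ∧
    ∀ x' y' : M, Nb N x x' l → Nb N y y' l → Nb N (app dv (opair x y)) (app dv (opair x' y')) k

/-- Codes: `g (a, ·)`, `a ∈ ω`, gives all finite sequences of natural numbers; `pr` is a pairing function on `ω` with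
the projections `p1`, `p2`. -/
structure Cod (g pr p1 p2 : M) : Prop where
  g_mem : ∀ a i : M, a ∈ (omega : M) → i ∈ (omega : M) → app g (opair a i) ∈ (omega : M)
  g_spec : ∀ y k : M, y ∈ funs (omega : M) omega → k ∈ (omega : M) → ∃ a : M, a ∈ (omega : M) ∧
    ∀ i : M, i ∈ k → app g (opair a i) = app y i
  pr_mem : ∀ i j : M, i ∈ (omega : M) → j ∈ (omega : M) → app pr (opair i j) ∈ (omega : M)
  p1_mem : ∀ n : M, n ∈ (omega : M) → app p1 n ∈ (omega : M)
  p2_mem : ∀ n : M, n ∈ (omega : M) → app p2 n ∈ (omega : M)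
  p1_pr : ∀ i j : M, i ∈ (omega : M) → j ∈ (omega : M) → app p1 (app pr (opair i j)) = i
  p2_pr : ∀ i j : M, i ∈ (omega : M) → j ∈ (omega : M) → app p2 (app pr (opair i j)) = j
  p1_cof : ∀ j n : M, j ∈ (omega : M) → n ∈ (omega : M) → ∃ i : M, i ∈ (omega : M) ∧ n ∈ i ∧ app p1 i = j

/-- The first property of the Cohen model (the sets of pairs of natural numbers are sequences of subsets of `ω`;
`i0` has the cardinality of the continuum of the ground model). -/
def Frz (i0 : M) : Prop := ∀ Φ : M,
  (∀ S T : M, S ⊆ prod (omega : M) omega → T ⊆ prod (omega : M) omega →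
    app Φ (opair S T) ⊆ prod (omega : M) omega) →
  ∃ A : M, FnOn A i0 ∧ (∀ i : M, i ∈ i0 → app A i ⊆ prod (omega : M) omega) ∧
    (∀ i j : M, i ∈ i0 → j ∈ i0 → ∃ l : M, l ∈ i0 ∧ app A l = app Φ (opair (app A i) (app A j))) ∧
    ∀ b : M, b ⊆ (omega : M) → ∃ i : M, i ∈ i0 ∧ ∀ j l : M, j ∈ i0 → l ∈ (omega : M) →
      (∀ m : M, m ∈ b → opair l m ∈ app A j) →
      ∃ n : M, n ∈ (omega : M) ∧ (∀ m : M, m ∈ b → opair n m ∈ app A i) ∧
        ∀ m : M, opair n m ∈ app A i → opair l m ∈ app A j

/-- The second property of the Cohen model: for every set `W ⊆ ω` of positions with a relation `R` of legal moves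
there is a sequence of positions, each equal to the previous one or reached from it by a legal move, which meets all
sets `{a | ((i, n), a) ∈ D}`, `i ∈ i0`, `n ∈ ω`, if from every position one can move to each of these sets. -/
def Gen (i0 : M) : Prop := ∀ W R D w0 : M, W ⊆ (omega : M) → w0 ∈ W →
  (∀ i n a : M, i ∈ i0 → n ∈ (omega : M) → a ∈ W →
    ∃ b : M, b ∈ W ∧ opair b a ∈ R ∧ opair (opair i n) b ∈ D) →
  ∃ p : M, FnOn p omega ∧ (∀ n : M, n ∈ (omega : M) → app p n ∈ W) ∧
    (∀ n : M, n ∈ (omega : M) → app p (suc n) = app p n ∨ opair (app p (suc n)) (app p n) ∈ R) ∧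
    ∀ i n : M, i ∈ i0 → n ∈ (omega : M) → ∃ k : M, k ∈ (omega : M) ∧ opair (opair i n) (app p k) ∈ D

/-! ### Closed subsets of `X × ω^ω` and analytic sets -/

/-- `F` is a closed subset of the product of `X` and `ω^ω`. -/
def Cl2 (X N F : M) : Prop := (∀ p : M, p ∈ F → ∃ x y : M, p = opair x y ∧ x ∈ X ∧ y ∈ funs (omega : M) omega) ∧
  ∀ x y : M, x ∈ X → y ∈ funs (omega : M) omega →
    (∀ k : M, k ∈ (omega : M) → ∃ x' y' : M, opair x' y' ∈ F ∧ Nb N x x' k ∧
      ∀ i : M, i ∈ k → app y i = app y' i) → opair x y ∈ F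

instance cl2_dfn {ι : Type} (X N F : (ι → M) → M) [DFun X] [DFun N] [DFun F] :
    Dfn (fun v => Cl2 (X v) (N v) (F v)) := by
  refine Dfn.comp3 (P := fun X N F : M => Cl2 X N F) ?_ X N F
  unfold Cl2; infer_instance

/-- `F` is a closed set with the projection `A`. -/
def PrOf (X N A F : M) : Prop := Cl2 X N F ∧ ∀ x : M, x ∈ X → (x ∈ A ↔ ∃ y : M, opair x y ∈ F)

instance prOf_dfn {ι : Type} (X N A F : (ι → M) → M) [DFun X] [DFun N] [DFun A] [DFun F] :
    Dfn (fun v => PrOf (X v) (N v) (A v) (F v)) := by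
  refine Dfn.comp4 (P := fun X N A F : M => PrOf X N A F) ?_ X N A F
  unfold PrOf; infer_instance

/-- `A` is the projection of a closed subset of `X × ω^ω`. -/
def An (X N A : M) : Prop := A ⊆ X ∧ ∃ F : M, PrOf X N A F

instance an_dfn {ι : Type} (X N A : (ι → M) → M) [DFun X] [DFun N] [DFun A] :
    Dfn (fun v => An (X v) (N v) (A v)) := by
  refine Dfn.comp3 (P := fun X N A : M => An X N A) ?_ X N A
  unfold An; infer_instance

/-- The point `(x, y)` of `X × ω^ω` belongs to the box with the number `w`. -/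
def Bx (B g p1 p2 w x y : M) : Prop := In B (app p1 w) x ∧
  ∀ i : M, i ∈ app p2 (app p2 w) → app y i = app g (opair (app p1 (app p2 w)) i)

instance bx_dfn {ι : Type} (B g p1 p2 w x y : (ι → M) → M) [hB : DFun B] [hg : DFun g] [h1 : DFun p1] [h2 : DFun p2]
    [hw : DFun w] [hx : DFun x] [hy : DFun y] :
    Dfn (fun v => Bx (B v) (g v) (p1 v) (p2 v) (w v) (x v) (y v)) := by
  have i1 := DFun.rename (κ := Option ι) some hB
  have i2 := DFun.rename (κ := Option ι) some hg
  have i3 := DFun.rename (κ := Option ι) some h1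
  have i4 := DFun.rename (κ := Option ι) some h2
  have i5 := DFun.rename (κ := Option ι) some hw
  have i6 := DFun.rename (κ := Option ι) some hx
  have i7 := DFun.rename (κ := Option ι) some hy
  unfold Bx; infer_instance

/-- The closed set coded by `a` is a compact subset of `H`. -/
def Gd (X B H a : M) : Prop := Cs X B a ⊆ H ∧ CC X B (Cs X B a)

instance gd_dfn {ι : Type} (X B H a : (ι → M) → M) [DFun X] [DFun B] [DFun H] [DFun a] :
    Dfn (fun v => Gd (X v) (B v) (H v) (a v)) := by
  unfold Gd; infer_instance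

end Pool.Agent.COH
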