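import Pool.Agent.COH.Base

set_option autoImplicit false
set_option linter.all false

/-!
# Bd: common bounds for finitely many objects (difficulty 1)

PROOF. `bd_nat` by `omega_induction` on `n` (first `have iP : ∀ {ι : Type} (t s : (ι → M) → M) [DFun t] [DFun s],
Dfn (fun v => P (t v) (s v)) := fun t s _ _ => Dfn.comp2 hP t s`, where `hP : Dfn2 P`): for `suc n` take an upper bound
of the bounds for `n` and for the element `n` (`nat_bd`, `Le`). `bd_fin`: `F` is covered by the image of `k` under a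
partial function `f` (`HZ.IsFinite`, `rel_iff`); apply `bd_nat` to
`P' x l = ∀ y, opair x y ∈ f → y ∈ F → P y l` (`f` is single-valued on `k`).
-/

namespace Pool.Agent.COH

open Pool.Agent.H55.SC Pool.Agent.H55.ZFU

universe u

variable {M : Type u} [Model M] [Pure M]

theorem bd_nat (P : M → M → Prop) [hP : Dfn2 P]
    (hmono : ∀ a l l' : M, l' ∈ (omega : M) → Le l l' → P a l → P a l') :
    ∀ n : M, n ∈ (omega : M) → (∀ a : M, a ∈ n → ∃ l : M, l ∈ (omega : M) ∧ P a l) →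
      ∃ l : M, l ∈ (omega : M) ∧ ∀ a : M, a ∈ n → P a l := by
  have iP : ∀ {ι : Type} (t s : (ι → M) → M) [DFun t] [DFun s], Dfn (fun v => P (t v) (s v)) :=
    fun t s _ _ => Dfn.comp2 hP t s
  refine omega_induction (fun n : M => (∀ a : M, a ∈ n → ∃ l : M, l ∈ (omega : M) ∧ P a l) →
      ∃ l : M, l ∈ (omega : M) ∧ ∀ a : M, a ∈ n → P a l) ?_ ?_
  · intro _
    exact ⟨∅, empty_mem_omega, fun a ha => (not_mem_empty a ha).elim⟩
  · intro n hn ih h
    obtain ⟨l, hl, h1⟩ := ih (fun a ha => h a (mem_suc.2 (Or.inl ha)))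
    obtain ⟨l', hl', h2⟩ := h n (mem_suc.2 (Or.inr rfl))
    obtain ⟨p, hp, h3, h4⟩ := nat_bd hl hl'
    refine ⟨p, hp, fun a ha => ?_⟩
    rcases mem_suc.1 ha with ha | rfl
    · exact hmono a l p hp (Or.inl h3) (h1 a ha)
    · exact hmono a l' p hp (Or.inl h4) h2

theorem bd_fin (P : M → M → Prop) [hP : Dfn2 P]
    (hmono : ∀ a l l' : M, l' ∈ (omega : M) → Le l l' → P a l → P a l') {F : M}
    (hF : Pool.Agent.H55.HZ.IsFinite (Model.E : M → M → Prop) omega F)
    (h : ∀ a : M, a ∈ F → ∃ l : M, l ∈ (omega : M) ∧ P a l) :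
    ∃ l : M, l ∈ (omega : M) ∧ ∀ a : M, a ∈ F → P a l := by
  have iP : ∀ {ι : Type} (t s : (ι → M) → M) [DFun t] [DFun s], Dfn (fun v => P (t v) (s v)) :=
    fun t s _ _ => Dfn.comp2 hP t s
  obtain ⟨k, f, hk, h1, h2⟩ := hF
  have i2 : Dfn2 (fun x l : M => ∀ y : M, opair x y ∈ f → y ∈ F → P y l) := by
    have := iP (fun v : Option (Fin 2) → M => v none) (fun v => v (some 1))
    infer_instance
  obtain ⟨l, hl, h3⟩ := bd_nat (fun x l : M => ∀ y : M, opair x y ∈ f → y ∈ F → P y l)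
    (fun x l l' hl' hll h4 y hy hyF => hmono y l l' hl' hll (h4 y hy hyF)) k hk (by
      intro x hx
      by_cases hex : ∃ y : M, opair x y ∈ f ∧ y ∈ F
      · obtain ⟨y, hy, hyF⟩ := hex
        obtain ⟨l, hl, h4⟩ := h y hyF
        refine ⟨l, hl, fun y' hy' _ => ?_⟩
        have h5 : y' = y := h1 x y' y hx (rel_iff.2 hy') (rel_iff.2 hy)
        rw [h5]; exact h4
      · exact ⟨∅, empty_mem_omega, fun y hy hyF => (hex ⟨y, hy, hyF⟩).elim⟩)
  refine ⟨l, hl, fun a ha => ?_⟩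
  obtain ⟨x, hx, h4⟩ := h2 a ha
  exact h3 x hx a (rel_iff.1 h4) ha

end Pool.Agent.COH
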