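import Pool.Agent.COH.Base

set_option autoImplicit false
set_option linter.all false

/-!
# Dr1: the derivative (difficulty 3)

`j` covers a set if `∀ m ∈ omega, app j m ∈ i0` and for every `(x, y)` in it there are `m, n ∈ omega` with
`opair (opair (app j m) n) x ∈ L`.

PROOF. Let `Sm w j` be the statement `j ∈ funs omega i0 ∧ ∀ x y, opair x y ∈ F → Bx B g p1 p2 w x y →
  ∃ m, m ∈ omega ∧ ∃ n, n ∈ omega ∧ opair (opair (app j m) n) x ∈ L`.
Let `θ`, `e` be given by `wellorder (funs omega i0)` and `J = lam omega (fun w => pick θ e (fun j => Sm w j))`; so `Sm w (app J w)`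
if there is `j` with `Sm w j` (call `w` small then). Let
`F' = sep F (fun p => ∀ w, w ∈ omega → (∃ j, Sm w j) → ¬ Bx B g p1 p2 w (fst p) (snd p))`.
(1) `F'` is closed (`Cl2`): a limit `(x, y)` of `F'` belongs to `F`; suppose `w` is small and `Bx B g p1 p2 w x y`. By
`Spc.opn` there is `l` with `Nb N x z l → In B (app p1 w) z`; take `k ∈ omega` above `l` and `app p2 (app p2 w)` (`nat_bd`) and
`(x', y') ∈ F'` with `Nb N x x' k`, `app y i = app y' i` for `i ∈ k`; then `Bx B g p1 p2 w x' y'` (`UPol.mono`,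
`nat_trans`), a contradiction.
(2) `F'` is not empty: let `i1 ∈ i0` and
`j = lam omega (fun m => iteM (∃ j, Sm (app p1 m) j) (app (app J (app p1 m)) (app p2 m)) i1)`. If `F'` is empty then every
`(x, y) ∈ F` lies in a small box `w`, and `j` covers `F` (`app pr (opair w m)`), contrary to `hno`.
(3) Last claim: suppose that `opair (opair i n) x' ∈ L` for all `(x', y') ∈ F'` in the box `w`. Let `j` be as in (2) and
`j' = lam omega (fun m => iteM (m = ∅) i (app j (bigU m)))` (`app j' ∅ = i`, `app j' (suc m) = app j m`). Then `Sm w j'`: a point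
of `F` in the box `w` is in `F'`, or in a small box. So `w` is small, and `(x, y) ∈ F'` cannot lie in the box `w`.
-/

namespace Pool.Agent.COH

open Pool.Agent.H55.SC Pool.Agent.H55.ZFU

universe u

variable {M : Type u} [Model M] [Pure M] [Choice M] {X u N B g pr p1 p2 : M}

theorem dr1 (h : Spc X u N B) (hc : Cod g pr p1 p2) {i0 F L : M} (hne : ∃ i : M, i ∈ i0) (hF : Cl2 X N F)
    (hno : ¬ ∃ j : M, (∀ m : M, m ∈ (omega : M) → app j m ∈ i0) ∧ ∀ x y : M, opair x y ∈ F →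
      ∃ m n : M, m ∈ (omega : M) ∧ n ∈ (omega : M) ∧ opair (opair (app j m) n) x ∈ L) :
    ∃ F' : M, F' ⊆ F ∧ Cl2 X N F' ∧ (∃ p : M, p ∈ F') ∧
      ∀ w i n x y : M, w ∈ (omega : M) → i ∈ i0 → n ∈ (omega : M) → opair x y ∈ F' → Bx B g p1 p2 w x y →
        ∃ x' y' : M, opair x' y' ∈ F' ∧ Bx B g p1 p2 w x' y' ∧ opair (opair i n) x' ∉ L := by
  obtain ⟨i1, hi1⟩ := hne
  obtain ⟨Sm, hSm⟩ : ∃ Sm : M → M → Prop, Sm = fun w j => j ∈ funs omega i0 ∧ ∀ x y : M, opair x y ∈ F →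
      Bx B g p1 p2 w x y → ∃ m : M, m ∈ (omega : M) ∧ ∃ n : M, n ∈ (omega : M) ∧
        opair (opair (app j m) n) x ∈ L := ⟨_, rfl⟩
  have hSmdef : ∀ w j, Sm w j ↔ j ∈ funs omega i0 ∧ ∀ x y : M, opair x y ∈ F →
      Bx B g p1 p2 w x y → ∃ m : M, m ∈ (omega : M) ∧ ∃ n : M, n ∈ (omega : M) ∧
        opair (opair (app j m) n) x ∈ L := by
    intro w j
    rw [hSm]
  have dSm : Dfn2 (fun w j : M => Sm w j) := by
    rw [hSm]
    infer_instance
  have iSm : ∀ {ι : Type} (t s : (ι → M) → M) [DFun t] [DFun s], Dfn (fun v => Sm (t v) (s v)) :=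
    fun t s => Dfn.comp2 dSm t s
  obtain ⟨θ, e, hθ, he1, he2, he3, he4⟩ := wellorder (funs (omega : M) i0)
  have dP : Fn1 (fun w : M => pick θ e (fun j => Sm w j)) := inferInstance
  obtain ⟨J, hJdef⟩ : ∃ J : M, J = lam omega (fun w => pick θ e (fun j => Sm w j)) := ⟨_, rfl⟩
  have hJ : ∀ w : M, w ∈ (omega : M) → (∃ j, Sm w j) → Sm w (app J w) := by
    rintro w hw ⟨j, hj⟩
    rw [hJdef, app_lam hw]
    have hj1 := ((hSmdef w j).1 hj).1
    obtain ⟨a, ha, ha'⟩ := he4 j hj1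
    exact pick_spec hθ (fun j => Sm w j) ⟨a, ha, by rw [ha']; exact hj⟩
  have dF' : Dfn1 (fun p : M => ∀ w : M, w ∈ (omega : M) → (∃ j, Sm w j) → ¬ Bx B g p1 p2 w (fst p) (snd p)) :=
    inferInstance
  obtain ⟨F', hF'def⟩ : ∃ F' : M, F' = sep F (fun p => ∀ w : M, w ∈ (omega : M) → (∃ j, Sm w j) →
    ¬ Bx B g p1 p2 w (fst p) (snd p)) := ⟨_, rfl⟩
  have hF' : ∀ x y : M, opair x y ∈ F' ↔ opair x y ∈ F ∧ ∀ w : M, w ∈ (omega : M) → (∃ j, Sm w j) →
      ¬ Bx B g p1 p2 w x y := by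
    intro x y
    rw [hF'def, mem_sep, fst_opair, snd_opair]
  have hsub : F' ⊆ F := by
    intro p hp
    rw [hF'def, mem_sep] at hp
    exact hp.1
  -- the function which covers the complement of `F'`
  have dj : Fn1 (fun m : M => iteM (∃ j, Sm (app p1 m) j) (app (app J (app p1 m)) (app p2 m)) i1) := inferInstance
  obtain ⟨j, hjdef⟩ : ∃ j : M, j = lam omega (fun m : M => iteM (∃ j, Sm (app p1 m) j)
    (app (app J (app p1 m)) (app p2 m)) i1) := ⟨_, rfl⟩
  have hjval : ∀ m : M, m ∈ (omega : M) → app j m ∈ i0 := by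
    intro m hm
    rw [hjdef, app_lam hm]
    by_cases hex : ∃ j, Sm (app p1 m) j
    · rw [iteM_pos hex]
      have h2 := ((hSmdef _ _).1 (hJ _ (hc.p1_mem m hm) hex)).1
      exact (mem_funs.1 h2).2 _ (hc.p2_mem m hm)
    · rw [iteM_neg hex]
      exact hi1
  have hcov : ∀ x y : M, opair x y ∈ F → opair x y ∉ F' → ∃ m : M, m ∈ (omega : M) ∧ ∃ n : M, n ∈ (omega : M) ∧
      opair (opair (app j m) n) x ∈ L := by
    intro x y hxy hn
    rw [hF'] at hn
    push Not at hn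
    obtain ⟨w, hw, hsm, hbx⟩ := hn hxy
    have h1 := hJ w hw hsm
    obtain ⟨m, hm, n, hn, hL⟩ := ((hSmdef _ _).1 h1).2 x y hxy hbx
    refine ⟨app pr (opair w m), hc.pr_mem w m hw hm, n, hn, ?_⟩
    have h2 : app j (app pr (opair w m)) = app (app J w) m := by
      rw [hjdef, app_lam (hc.pr_mem w m hw hm), hc.p1_pr w m hw hm, hc.p2_pr w m hw hm, iteM_pos hsm]
    rw [h2]
    exact hL
  refine ⟨F', hsub, ⟨fun p hp => hF.1 p (hsub p hp), ?_⟩, ?_, ?_⟩
  · -- closed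
    intro x y hx hy hlim
    rw [hF']
    refine ⟨hF.2 x y hx hy fun k hk => ?_, ?_⟩
    · obtain ⟨x', y', h1, h2, h3⟩ := hlim k hk
      exact ⟨x', y', hsub _ h1, h2, h3⟩
    · intro w hw hsm hbx
      obtain ⟨l, hl, hl'⟩ := h.opn _ _ hbx.1
      have hw2 : app p2 (app p2 w) ∈ (omega : M) := hc.p2_mem _ (hc.p2_mem _ hw)
      obtain ⟨k, hk, hk1, hk2⟩ := nat_bd hl hw2
      obtain ⟨x', y', h1, h2, h3⟩ := hlim k hk
      refine ((hF' x' y').1 h1).2 w hw hsm ⟨hl' x' (h.pol.mono hk (Or.inl hk1) h2), fun i hi => ?_⟩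
      rw [← h3 i (nat_trans hk _ hk2 i hi)]
      exact hbx.2 i hi
  · -- not empty
    by_contra hemp
    refine hno ⟨j, hjval, fun x y hxy => ?_⟩
    obtain ⟨m, hm, n, hn, hL⟩ := hcov x y hxy fun h => hemp ⟨_, h⟩
    exact ⟨m, n, hm, hn, hL⟩
  · intro w i n x y hw hi hn hxy hbx
    by_contra hcon
    push Not at hcon
    have dj' : Fn1 (fun m : M => iteM (m = ∅) i (app j (bigU m))) := inferInstance
    obtain ⟨j', hj'def⟩ : ∃ j' : M, j' = lam omega (fun m : M => iteM (m = ∅) i (app j (bigU m))) := ⟨_, rfl⟩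
    have h0 : app j' ∅ = i := by
      rw [hj'def, app_lam empty_mem_omega, iteM_pos rfl]
    have h1 : ∀ m : M, m ∈ (omega : M) → app j' (suc m) = app j m := by
      intro m hm
      rw [hj'def, app_lam (suc_mem_omega hm), iteM_neg (suc_ne_empty m), bigU_suc (nat_trans hm)]
    refine ((hF' x y).1 hxy).2 w hw ⟨j', (hSmdef _ _).2 ⟨?_, ?_⟩⟩ hbx
    · rw [mem_funs]
      refine ⟨by rw [hj'def]; exact lam_fnOn _ _, fun m hm => ?_⟩
      rcases omega_cases hm with rfl | ⟨m', hm', rfl⟩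
      · rw [h0]
        exact hi
      · rw [h1 m' hm']
        exact hjval m' hm'
    · intro x' y' hxy' hbx'
      by_cases hmem : opair x' y' ∈ F'
      · refine ⟨∅, empty_mem_omega, n, hn, ?_⟩
        rw [h0]
        exact hcon x' y' hmem hbx'
      · obtain ⟨m, hm, n', hn', hL⟩ := hcov x' y' hxy' hmem
        refine ⟨suc m, suc_mem_omega hm, n', hn', ?_⟩
        rw [h1 m hm]
        exact hL

end Pool.Agent.COH
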