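import Pool.Agent.COH.Dr2

set_option autoImplicit false
set_option linter.all false

/-!
# Dr3: a point outside all closed sets (difficulty 3)

PROOF. Instances: unfold `Far`, `Fine` (state them as `Dfn` facts for terms, or use `sep` with the unfolded formulas).
Let `W = sep omega (fun w => ∃ x y, opair x y ∈ F ∧ Bx B g p1 p2 w x y)`,
`R = sep (prod omega omega) (fun q => ∀ x y, Bx B g p1 p2 (fst q) x y → Bx B g p1 p2 (snd q) x y)` (the pair `(w', w)` with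
the box `w'` included in the box `w`),
`D = sep (prod (prod i0 omega) omega) (fun q => Far .. (fst (fst q)) (snd (fst q)) (snd q) ∧ Fine .. (snd (fst q)) (snd q))`.
`W` has an element `w0`: `(x, y) ∈ F`, and `Spc.small` gives `m` with `In B m x`; `w0 = app pr (opair m (app pr (opair ∅ ∅)))`.
By `hd` and `dr2` the hypothesis of `Gen` holds (`y' ∈ funs omega omega` by `Cl2`). Let `p` be given by `hG W R D w0`.
(1) If `Le k k'`, `k' ∈ omega`, then the box `app p k'` is included in the box `app p k` (induction on `k'`).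
(2) Choose a function `q` on `omega` with `app q k = opair x y ∈ F`, `Bx (app p k) x y` (`wellorder F`, `pick`, `pick_spec`);
write `xs k = fst (app q k)`, `ys k = snd (app q k)`.
(3) Fix `i1 ∈ i0`. For every `n ∈ omega` there is `k ∈ omega` with `Fine n (app p k)` (from `D` for `i1`, `n`), so for all
`k', k'' ∈ omega` with `Le k k'`, `Le k k''`: `Nb N (xs k') (xs k'') n` and `app (ys k') i = app (ys k'') i` for `i ∈ n`.
(4) `UPol.complete` for `v = lam omega xs` gives `x ∈ X` with `Nb N x (xs m) k` for all large `m`. Let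
`κ i = mu (fun k => k ∈ omega ∧ ∀ k', k' ∈ omega → Le k k' → app (ys k') i = app (ys k) i)` and
`y = lam omega (fun i => app (ys (κ i)) i)`; so `app (ys k') i = app y i` for all `k'` with `Le (κ i) k'`; `y ∈ funs omega omega`.
(5) `opair x y ∈ F` by `Cl2`: for `k ∈ omega` take `m` so large that `Nb N x (xs m) k` and `app (ys m) i = app y i` for `i ∈ k`
(by (3) for `n = k` there is `k1` such that `app (ys m) i` does not depend on `m` for `Le k1 m`, `i ∈ k`, so it is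
`app y i`).
(6) Let `i ∈ i0`, `n ∈ omega` and suppose `opair (opair i n) x ∈ L`. There is `k ∈ omega` with `Far i n (app p k)`, with a number
`t`. Take `m` with `Le k m` and `Nb N x (xs m) t`. The point `(xs m, ys m)` is in the box `app p m`, so in the box `app p k`,
and `Nb N (xs m) x t` by `UPol.symm`, a contradiction.
-/

namespace Pool.Agent.COH

open Pool.Agent.H55.SC Pool.Agent.H55.ZFU

universe u

variable {M : Type u} [Model M] [Pure M] [Choice M] {X u N B g pr p1 p2 : M}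

omit [Choice M] in
theorem dr3_far {L : M} {ι : Type} (i n w : (ι → M) → M) [DFun i] [DFun n] [DFun w] :
    Dfn (fun v => Far N B g p1 p2 L (i v) (n v) (w v)) := by
  refine Dfn.comp3 (P := fun i n w : M => Far N B g p1 p2 L i n w) ?_ i n w
  unfold Far; infer_instance

omit [Choice M] in
theorem dr3_fine {ι : Type} (n w : (ι → M) → M) [DFun n] [DFun w] :
    Dfn (fun v => Fine N B g p1 p2 (n v) (w v)) := by
  refine Dfn.comp2 (P := fun n w : M => Fine N B g p1 p2 n w) ?_ n w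
  unfold Fine; infer_instance

omit [Choice M] in
theorem dr3_start (h : Spc X u N B) (hc : Cod g pr p1 p2) {x y : M} (hx : x ∈ X) :
    ∃ w : M, w ∈ (omega : M) ∧ Bx B g p1 p2 w x y := by
  obtain ⟨m, hm, -⟩ := h.small x ∅ hx empty_mem_omega
  have hmo := (h.mem m x hm).1
  have h0 := hc.pr_mem ∅ ∅ empty_mem_omega empty_mem_omega
  refine ⟨app pr (opair m (app pr (opair ∅ ∅))), hc.pr_mem _ _ hmo h0, ?_, fun i hi => ?_⟩
  · rw [hc.p1_pr _ _ hmo h0]; exact hm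
  · rw [hc.p2_pr _ _ hmo h0, hc.p2_pr _ _ empty_mem_omega empty_mem_omega] at hi
    exact (not_mem_empty i hi).elim

omit [Choice M] in
theorem dr3_path (h : Spc X u N B) (hc : Cod g pr p1 p2) {i0 F L : M} (hG : Gen i0)
    (hL : ∀ i n : M, i ∈ i0 → n ∈ (omega : M) → Cl X N (sl X L i n)) (hF : Cl2 X N F) (hFne : ∃ p : M, p ∈ F)
    (hd : ∀ w i n x y : M, w ∈ (omega : M) → i ∈ i0 → n ∈ (omega : M) → opair x y ∈ F → Bx B g p1 p2 w x y →
      ∃ x' y' : M, opair x' y' ∈ F ∧ Bx B g p1 p2 w x' y' ∧ opair (opair i n) x' ∉ L) :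
    ∃ p : M, (∀ k : M, k ∈ (omega : M) → ∃ x y : M, opair x y ∈ F ∧ Bx B g p1 p2 (app p k) x y) ∧
      (∀ k : M, k ∈ (omega : M) → ∀ x y : M, Bx B g p1 p2 (app p (suc k)) x y → Bx B g p1 p2 (app p k) x y) ∧
      ∀ i n : M, i ∈ i0 → n ∈ (omega : M) → ∃ k : M, k ∈ (omega : M) ∧ Far N B g p1 p2 L i n (app p k) ∧
        Fine N B g p1 p2 n (app p k) := by
  have iFar : ∀ {ι : Type} (i n w : (ι → M) → M) [DFun i] [DFun n] [DFun w],
      Dfn (fun v => Far N B g p1 p2 L (i v) (n v) (w v)) := fun i n w _ _ _ => dr3_far i n w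
  have iFine : ∀ {ι : Type} (n w : (ι → M) → M) [DFun n] [DFun w],
      Dfn (fun v => Fine N B g p1 p2 (n v) (w v)) := fun n w _ _ => dr3_fine n w
  have hW : ∀ w : M, w ∈ sep (omega : M) (fun w => ∃ x y : M, opair x y ∈ F ∧ Bx B g p1 p2 w x y) ↔
      w ∈ (omega : M) ∧ ∃ x y : M, opair x y ∈ F ∧ Bx B g p1 p2 w x y := by
    intro w
    rw [mem_sep]
  have hR : ∀ a b : M, opair a b ∈ sep (prod (omega : M) omega)
      (fun q => ∀ x y : M, Bx B g p1 p2 (fst q) x y → Bx B g p1 p2 (snd q) x y) ↔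
      (a ∈ (omega : M) ∧ b ∈ (omega : M)) ∧ ∀ x y : M, Bx B g p1 p2 a x y → Bx B g p1 p2 b x y := by
    intro a b
    rw [mem_sep, opair_mem_prod, fst_opair, snd_opair]
  have iD : Dfn1 (fun q : M => Far N B g p1 p2 L (fst (fst q)) (snd (fst q)) (snd q) ∧
      Fine N B g p1 p2 (snd (fst q)) (snd q)) := inferInstance
  have hD : ∀ i n w : M, opair (opair i n) w ∈ sep (prod (prod i0 (omega : M)) omega)
      (fun q => Far N B g p1 p2 L (fst (fst q)) (snd (fst q)) (snd q) ∧ Fine N B g p1 p2 (snd (fst q)) (snd q)) ↔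
      ((i ∈ i0 ∧ n ∈ (omega : M)) ∧ w ∈ (omega : M)) ∧ Far N B g p1 p2 L i n w ∧ Fine N B g p1 p2 n w := by
    intro i n w
    rw [mem_sep, opair_mem_prod, opair_mem_prod, fst_opair, snd_opair, fst_opair, snd_opair]
  obtain ⟨q0, hq0⟩ := hFne
  obtain ⟨x0, y0, rfl, hx0, hy0⟩ := hF.1 q0 hq0
  obtain ⟨w0, hw0, hw0'⟩ := dr3_start h hc (y := y0) hx0
  obtain ⟨p, -, hp1, hp2, hp3⟩ := hG _ _ _ w0 (fun w hw => ((hW w).1 hw).1) ((hW w0).2 ⟨hw0, x0, y0, hq0, hw0'⟩)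
    (fun i n a hi hn ha => by
      obtain ⟨ha', x, y, hxy, hb⟩ := (hW a).1 ha
      obtain ⟨x', y', hxy', hb', hx'⟩ := hd a i n x y ha' hi hn hxy hb
      obtain ⟨x1, y1, he, -, hy1⟩ := hF.1 _ hxy'
      obtain ⟨rfl, rfl⟩ := opair_inj.1 he
      obtain ⟨b, hbo, hbb, hbs, hbf, hbn⟩ := dr2 h hc hn ha' (hL i n hi hn) hy1 hb' hx'
      exact ⟨b, (hW b).2 ⟨hbo, x', y', hxy', hbb⟩, (hR b a).2 ⟨⟨hbo, ha'⟩, hbs⟩,
        (hD i n b).2 ⟨⟨⟨hi, hn⟩, hbo⟩, hbf, hbn⟩⟩)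
  refine ⟨p, fun k hk => ((hW _).1 (hp1 k hk)).2, fun k hk x y hb => ?_, fun i n hi hn => ?_⟩
  · rcases hp2 k hk with he | he
    · rw [← he]; exact hb
    · exact ((hR _ _).1 he).2 x y hb
  · obtain ⟨k, hk, hk'⟩ := hp3 i n hi hn
    exact ⟨k, hk, ((hD _ _ _).1 hk').2⟩

omit [Pure M] [Choice M] in
theorem dr3_mono {p : M}
    (hp : ∀ k : M, k ∈ (omega : M) → ∀ x y : M, Bx B g p1 p2 (app p (suc k)) x y → Bx B g p1 p2 (app p k) x y) :
    ∀ k' : M, k' ∈ (omega : M) → ∀ k x y : M, Le k k' → Bx B g p1 p2 (app p k') x y → Bx B g p1 p2 (app p k) x y := by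
  refine omega_induction (fun k' : M => ∀ k x y : M, Le k k' → Bx B g p1 p2 (app p k') x y →
    Bx B g p1 p2 (app p k) x y) ?_ ?_
  · intro k x y hk hb
    rcases hk with hk | rfl
    · exact (not_mem_empty k hk).elim
    · exact hb
  · intro k' hk' ih k x y hk hb
    rcases hk with hk | rfl
    · exact ih k x y (mem_suc.1 hk) (hp k' hk' x y hb)
    · exact hb

theorem dr3_choose {F p : M} 
    (hp : ∀ k : M, k ∈ (omega : M) → ∃ x y : M, opair x y ∈ F ∧ Bx B g p1 p2 (app p k) x y) :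
    ∃ xs ys : M, FnOn xs omega ∧ ∀ k : M, k ∈ (omega : M) → opair (app xs k) (app ys k) ∈ F ∧
      Bx B g p1 p2 (app p k) (app xs k) (app ys k) := by
  obtain ⟨θ, e, hθ, -, -, -, he⟩ := wellorder F
  refine ⟨lam omega (fun k => fst (pick θ e (fun z => ∃ x y : M, z = opair x y ∧ opair x y ∈ F ∧
    Bx B g p1 p2 (app p k) x y))), lam omega (fun k => snd (pick θ e (fun z => ∃ x y : M, z = opair x y ∧
    opair x y ∈ F ∧ Bx B g p1 p2 (app p k) x y))), lam_fnOn _ _, fun k hk => ?_⟩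
  rw [app_lam hk, app_lam hk]
  have h1 := pick_spec (f := e) hθ (fun z => ∃ x y : M, z = opair x y ∧ opair x y ∈ F ∧
    Bx B g p1 p2 (app p k) x y) (by
      obtain ⟨x, y, hxy, hb⟩ := hp k hk
      obtain ⟨i, hi, hie⟩ := he _ hxy
      exact ⟨i, hi, x, y, hie, hxy, hb⟩)
  obtain ⟨x, y, h2, h3, h4⟩ := h1
  rw [h2, fst_opair, snd_opair]
  exact ⟨h3, h4⟩

/-- the limit of a pointwise eventually constant sequence of functions -/
theorem dr3_lim {ys : M} (hys : ∀ k : M, k ∈ (omega : M) → app ys k ∈ funs (omega : M) omega)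
    (hst : ∀ n : M, n ∈ (omega : M) → ∃ k : M, k ∈ (omega : M) ∧ ∀ k' k'' : M, k' ∈ (omega : M) →
      k'' ∈ (omega : M) → Le k k' → Le k k'' → ∀ i : M, i ∈ n → app (app ys k') i = app (app ys k'') i) :
    ∃ y : M, y ∈ funs (omega : M) omega ∧ ∀ n : M, n ∈ (omega : M) → ∃ k : M, k ∈ (omega : M) ∧
      ∀ m : M, m ∈ (omega : M) → Le k m → ∀ i : M, i ∈ n → app y i = app (app ys m) i := by
  have hmu : ∀ i : M, i ∈ (omega : M) → ∃ κ : M, (κ ∈ (omega : M) ∧ ∀ k' : M, k' ∈ (omega : M) → Le κ k' →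
      app (app ys k') i = app (app ys κ) i) ∧ app (lam omega (fun i => app (app ys (mu (fun κ => κ ∈ (omega : M) ∧
        ∀ k' : M, k' ∈ (omega : M) → Le κ k' → app (app ys k') i = app (app ys κ) i))) i)) i = app (app ys κ) i := by
    intro i hi
    obtain ⟨k, hk, hk'⟩ := hst (suc i) (suc_mem_omega hi)
    have h1 := mu_spec (fun κ => κ ∈ (omega : M) ∧
        ∀ k' : M, k' ∈ (omega : M) → Le κ k' → app (app ys k') i = app (app ys κ) i)
      ⟨k, nat_ord hk, hk, fun k' hk1 hk2 => hk' k' k hk1 hk hk2 (Le.refl k) i (by rw [mem_suc]; exact Or.inr rfl)⟩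
    exact ⟨_, h1.2.1, by rw [app_lam hi]⟩
  refine ⟨lam omega (fun i => app (app ys (mu (fun κ => κ ∈ (omega : M) ∧
        ∀ k' : M, k' ∈ (omega : M) → Le κ k' → app (app ys k') i = app (app ys κ) i))) i),
    mem_funs.2 ⟨lam_fnOn _ _, fun i hi => ?_⟩, fun n hn => ?_⟩
  · obtain ⟨κ, hκ, he⟩ := hmu i hi
    rw [he]
    exact (mem_funs.1 (hys κ hκ.1)).2 i hi
  · obtain ⟨k, hk, hk'⟩ := hst n hn
    refine ⟨k, hk, fun m hm hkm i hi => ?_⟩
    obtain ⟨κ, hκ, he⟩ := hmu i (nat_mem_omega hn hi)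
    obtain ⟨m', hm', h1, h2⟩ := nat_bd hκ.1 hk
    rw [he, ← hκ.2 m' hm' (Or.inl h1)]
    exact hk' m' m hm' hm (Or.inl h2) hkm i hi

theorem dr3 (h : Spc X u N B) (hc : Cod g pr p1 p2) {i0 F L : M} (hG : Gen i0) (hne : ∃ i : M, i ∈ i0)
    (hL : ∀ i n : M, i ∈ i0 → n ∈ (omega : M) → Cl X N (sl X L i n)) (hF : Cl2 X N F) (hFne : ∃ p : M, p ∈ F)
    (hd : ∀ w i n x y : M, w ∈ (omega : M) → i ∈ i0 → n ∈ (omega : M) → opair x y ∈ F → Bx B g p1 p2 w x y →
      ∃ x' y' : M, opair x' y' ∈ F ∧ Bx B g p1 p2 w x' y' ∧ opair (opair i n) x' ∉ L) :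
    ∃ x y : M, opair x y ∈ F ∧ ∀ i n : M, i ∈ i0 → n ∈ (omega : M) → opair (opair i n) x ∉ L := by
  obtain ⟨p, hp0, hp1, hp2⟩ := dr3_path h hc hG hL hF hFne hd
  have hmono := dr3_mono hp1
  obtain ⟨xs, ys, hxs, hq⟩ := dr3_choose hp0
  obtain ⟨i1, hi1⟩ := hne
  have hfine : ∀ n : M, n ∈ (omega : M) → ∃ k : M, k ∈ (omega : M) ∧ ∀ k' k'' : M, k' ∈ (omega : M) →
      k'' ∈ (omega : M) → Le k k' → Le k k'' → Nb N (app xs k') (app xs k'') n ∧
        ∀ i : M, i ∈ n → app (app ys k') i = app (app ys k'') i := by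
    intro n hn
    obtain ⟨k, hk, -, hf⟩ := hp2 i1 n hi1 hn
    refine ⟨k, hk, fun k' k'' h1 h2 h3 h4 => ?_⟩
    exact hf _ _ _ _ (hmono k' h1 k _ _ h3 (hq k' h1).2) (hmono k'' h2 k _ _ h4 (hq k'' h2).2)
  have hmem : ∀ k : M, k ∈ (omega : M) → app xs k ∈ X ∧ app ys k ∈ funs (omega : M) omega := by
    intro k hk
    obtain ⟨x, y, he, h1, h2⟩ := hF.1 _ (hq k hk).1
    obtain ⟨h3, h4⟩ := opair_inj.1 he
    rw [h3, h4]
    exact ⟨h1, h2⟩
  obtain ⟨x, hx, hxl⟩ := h.pol.complete xs hxs (fun n hn => (hmem n hn).1) (fun k hk => by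
    obtain ⟨n, hn, h1⟩ := hfine k hk
    exact ⟨n, hn, fun m m' hm hm' h2 h3 => (h1 m m' hm hm' (Or.inl h2) (Or.inl h3)).1⟩)
  obtain ⟨y, hy, hyl⟩ := dr3_lim (fun k hk => (hmem k hk).2) (fun n hn => by
    obtain ⟨k, hk, h1⟩ := hfine n hn
    exact ⟨k, hk, fun k' k'' h2 h3 h4 h5 => (h1 k' k'' h2 h3 h4 h5).2⟩)
  refine ⟨x, y, hF.2 x y hx hy (fun k hk => ?_), fun i n hi hn hL' => ?_⟩
  · obtain ⟨n1, hn1, h1⟩ := hxl k hk
    obtain ⟨n2, hn2, h2⟩ := hyl k hk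
    obtain ⟨m, hm, h3, h4⟩ := nat_bd hn1 hn2
    exact ⟨app xs m, app ys m, (hq m hm).1, h1 m hm h3, h2 m hm (Or.inl h4)⟩
  · obtain ⟨k, hk, ⟨t, ht, hfar⟩, -⟩ := hp2 i n hi hn
    obtain ⟨n1, hn1, h1⟩ := hxl t ht
    obtain ⟨m, hm, h3, h4⟩ := nat_bd hn1 hk
    exact hfar _ _ x (hmono m hm k _ _ (Or.inl h4) (hq m hm).2) hL' (h.pol.symm _ _ _ (h1 m hm h3))

end Pool.Agent.COH
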