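import Pool.Agent.COH.Fam
import Pool.Agent.COH.Dr1
import Pool.Agent.COH.Dr3

set_option autoImplicit false
set_option linter.all false

/-!
# Cor: the core of the argument inside the model (difficulty 2)

PROOF. `i0` is not empty (`hF` for `Φ = lam .. (fun _ => ∅)` or for any `Φ` as required, with `b = ∅`; e.g.
`Φ = lam (prod P P) (fun _ => ∅)`, `P = pow (prod omega omega)`). Let `L0` be given by `fam`. By `hmin` the set
`T = sep X (fun x => ∃ i, i ∈ i0 ∧ ∃ n, n ∈ omega ∧ opair (opair i n) x ∈ L0)` includes `H`. Let `F` be given by `hA`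
(`PrOf X N H F`). All `sl X L0 i n` are closed: `cs_tr_eq` and `cs_closed` (`CC` sets are closed). If no `j` covered `F` (in
the sense of `dr1`), then `dr1` and `dr3` would give `(x, y) ∈ F` outside all slices, but `x ∈ H ⊆ T`. So there is `j`. Let
`L = lam omega (fun m => sl X L0 (app j (app p1 m)) (app p2 m))`.
-/

namespace Pool.Agent.COH

open Pool.Agent.H55.SC Pool.Agent.H55.ZFU

universe u

variable {M : Type u} [Model M] [Pure M] [Choice M] {X u N B g pr p1 p2 dv : M}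

theorem core (h : Spc X u N B) (hc : Cod g pr p1 p2) (hd : Dv X N dv) {i0 : M} (hF : Frz i0) (hG : Gen i0) {Y H : M}
    (hYH : Y ⊆ H) (hHX : H ⊆ X) (hb : HB B Y) (hH : ∀ x y : M, x ∈ H → y ∈ H → app dv (opair x y) ∈ H)
    (hmin : ∀ T : M, T ⊆ X → Y ⊆ T → (∀ x y : M, x ∈ T → y ∈ T → app dv (opair x y) ∈ T) → H ⊆ T)
    (hA : An X N H) :
    ∃ L : M, (∀ n : M, n ∈ (omega : M) → CC X B (app L n)) ∧
      ∀ x : M, x ∈ H ↔ ∃ n : M, n ∈ (omega : M) ∧ x ∈ app L n := by
  have hempty : ∀ x : M, app (∅ : M) x = ∅ := by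
    intro x
    unfold app
    rw [dif_neg]
    rintro ⟨y, hy, _⟩
    exact not_mem_empty _ hy
  have hne : ∃ i : M, i ∈ i0 := by
    obtain ⟨A, _, _, _, hA4⟩ := hF ∅ (fun S T hS hT => by
      rw [hempty]
      intro x hx
      exact absurd hx (not_mem_empty x))
    obtain ⟨i, hi, _⟩ := hA4 ∅ (fun x hx => absurd hx (not_mem_empty x))
    exact ⟨i, hi⟩
  obtain ⟨L0, f1, f2, f3, f4⟩ := fam h hc hd hF hYH hHX hb hH
  have hT : H ⊆ sep X (fun x => ∃ i : M, i ∈ i0 ∧ ∃ n : M, n ∈ (omega : M) ∧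
      opair (opair i n) x ∈ L0) := by
    refine hmin _ ?_ ?_ ?_
    · intro x hx
      rw [mem_sep] at hx
      exact hx.1
    · intro y hy
      rw [mem_sep]
      obtain ⟨i, n, hi, hn, hL⟩ := f3 y hy
      exact ⟨hHX y (hYH y hy), i, hi, n, hn, hL⟩
    · intro x y hx hy
      rw [mem_sep] at hx hy ⊢
      obtain ⟨hxX, i, hi, n, hn, hx1⟩ := hx
      obtain ⟨hyX, j, hj, m, hm, hy1⟩ := hy
      obtain ⟨l, k, hl, hk, hlk⟩ := f4 i j n m x y hi hj hn hm hx1 hy1
      exact ⟨hd.mem x y hxX hyX, l, hl, k, hk, hlk⟩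
  obtain ⟨_, F, hF2, hFp⟩ := hA
  by_cases hcov : ∃ j : M, (∀ m : M, m ∈ (omega : M) → app j m ∈ i0) ∧
      ∀ x y : M, opair x y ∈ F → ∃ m n : M, m ∈ (omega : M) ∧ n ∈ (omega : M) ∧
        opair (opair (app j m) n) x ∈ L0
  · obtain ⟨j, hj1, hj2⟩ := hcov
    have happ : ∀ n : M, n ∈ (omega : M) →
        app (lam (omega : M) (fun m => sl X L0 (app j (app p1 m)) (app p2 m))) n =
          sl X L0 (app j (app p1 n)) (app p2 n) := fun n hn => app_lam hn
    refine ⟨lam (omega : M) (fun m => sl X L0 (app j (app p1 m)) (app p2 m)), ?_, ?_⟩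
    · intro n hn
      rw [happ n hn]
      exact f1 _ _ (hj1 _ (hc.p1_mem n hn)) (hc.p2_mem n hn)
    · intro x
      constructor
      · intro hx
        have hxX := hHX x hx
        obtain ⟨y, hy⟩ := (hFp x hxX).1 hx
        obtain ⟨m, n, hm, hn, hmn⟩ := hj2 x y hy
        have hk := hc.pr_mem m n hm hn
        refine ⟨app pr (opair m n), hk, ?_⟩
        rw [happ _ hk, hc.p1_pr m n hm hn, hc.p2_pr m n hm hn]
        exact mem_sl.2 ⟨hxX, hmn⟩
      · rintro ⟨n, hn, hx⟩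
        rw [happ n hn] at hx
        exact f2 _ _ x (mem_sl.1 hx).2
  · exfalso
    obtain ⟨F', g1, g2, g3, g4⟩ := dr1 h hc hne hF2 hcov
    obtain ⟨x, y, hxy, hno⟩ := dr3 h hc hG hne (L := L0) (fun i n hi hn => by
      have e1 := cs_tr_eq h (f1 i n hi hn)
      have e2 := cs_closed h (tr B (sl X L0 i n))
      rw [e1] at e2
      exact e2) g2 g3 (fun w i n x y hw hi hn hxy hb => g4 w i n x y hw hi hn hxy hb)
    have hxyF : opair x y ∈ F := g1 _ hxy
    obtain ⟨x', y', he, hx', _⟩ := hF2.1 _ hxyF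
    rw [opair_inj] at he
    rw [← he.1] at hx'
    have hxH : x ∈ H := (hFp x hx').2 ⟨y, hxyF⟩
    have hxT := hT x hxH
    rw [mem_sep] at hxT
    obtain ⟨_, i, hi, n, hn, hL⟩ := hxT
    exact hno i n hi hn hL

end Pool.Agent.COH
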