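import Pool.Agent.COH.Cs1

set_option autoImplicit false
set_option linter.all false

/-!
# Cpt: compactness in terms of open covers (difficulty 2)

PROOF. `compactIn_of_cc`: let `V` be a family of open sets covering `K`. Let
`Z = sep omega (fun m => ∃ O, O ∈ V ∧ ∀ x, In B m x → x ∈ O)`. It covers `K` (`PolTop.top`, `Spc.small`). Take `n` from `CC`. Let
`θ`, `e` be given by `wellorder V` and `f = lam n (fun m => pick θ e (fun O => ∀ x, In B m x → x ∈ O))`; let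
`F = img (sep n (fun m => m ∈ Z)) (fun m => app f m)`. `HZ.IsFinite` with `n` and `f` (`rel_iff`, `mem_lam`; `f` is single-valued).
`sigmaCompactIn_of`: `u' = lam omega (fun n => app L n)` (`IsSeq` and `Rel` as in `Pool/Agent/H55/Sig/Hz4.lean`, `Hz5.lean`).
-/

namespace Pool.Agent.COH

open Pool.Agent.H55.SC Pool.Agent.H55.ZFU

universe u

variable {M : Type u} [Model M] [Pure M] [Choice M] {X τ u N B : M}

theorem cpt_rel_lam {a : M} {F : M → M} [hF : Fn1 F] {n x : M} (hn : n ∈ a) :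
    Pool.Agent.H55.SC.Rel Model.E (lam a F) n x ↔ x = F n := by
  rw [rel_iff, mem_lam]
  constructor
  · rintro ⟨n', _, h1⟩
    rw [opair_inj] at h1
    rw [h1.1, h1.2]
  · rintro rfl
    exact ⟨n, hn, rfl⟩

theorem compactIn_of_cc (ht : PolTop X τ u N) (h : Spc X u N B) {K : M} (hK : CC X B K) :
    IsCompactIn (Model.E : M → M → Prop) omega τ K := by
  intro V hVτ hVK
  obtain ⟨Z, hZ⟩ : ∃ Z : M, ∀ m : M, m ∈ Z ↔ m ∈ (omega : M) ∧ ∃ O : M, O ∈ V ∧ ∀ x : M, In B m x → x ∈ O :=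
    ⟨sep omega (fun m => ∃ O : M, O ∈ V ∧ ∀ x : M, In B m x → x ∈ O), fun m => mem_sep⟩
  obtain ⟨n, hn, hn'⟩ := hK.2 Z (fun x hxK => by
    obtain ⟨O, hO, hxO⟩ := hVK x hxK
    obtain ⟨hOX, hOk⟩ := (ht.top O).1 (hVτ O hO)
    obtain ⟨k, hk, hk'⟩ := hOk x hxO
    obtain ⟨m, hm, hm'⟩ := h.small x k (hOX x hxO) hk
    exact ⟨m, (hZ m).2 ⟨(h.mem m x hm).1, O, hO, fun z hz => hk' z (hm' z hz)⟩, hm⟩)
  obtain ⟨θ, e, hθ, _, _, _, he⟩ := wellorder V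
  have hpick : ∀ m : M, (∃ O : M, O ∈ V ∧ ∀ x : M, In B m x → x ∈ O) →
      (pick θ e (fun O => O ∈ V ∧ ∀ x : M, In B m x → x ∈ O) ∈ V ∧
        ∀ x : M, In B m x → x ∈ pick θ e (fun O => O ∈ V ∧ ∀ x : M, In B m x → x ∈ O)) := by
    rintro m ⟨O, hO, hO'⟩
    refine pick_spec hθ (fun O => O ∈ V ∧ ∀ x : M, In B m x → x ∈ O) ?_
    obtain ⟨i, hi, h1⟩ := he O hO
    exact ⟨i, hi, by rw [h1]; exact ⟨hO, hO'⟩⟩
  have i1 : Fn1 (fun m : M => pick θ e (fun O => O ∈ V ∧ ∀ x : M, In B m x → x ∈ O)) := inferInstance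
  have hmF : ∀ O : M, O ∈ img (sep n (fun m => ∃ O : M, O ∈ V ∧ ∀ x : M, In B m x → x ∈ O))
      (fun m : M => pick θ e (fun O => O ∈ V ∧ ∀ x : M, In B m x → x ∈ O)) ↔
      ∃ m : M, (m ∈ n ∧ ∃ O : M, O ∈ V ∧ ∀ x : M, In B m x → x ∈ O) ∧
        O = pick θ e (fun O => O ∈ V ∧ ∀ x : M, In B m x → x ∈ O) := by
    intro O
    rw [mem_img]
    refine exists_congr (fun m => and_congr_left (fun _ => ?_))
    rw [mem_sep]
  refine ⟨img (sep n (fun m => ∃ O : M, O ∈ V ∧ ∀ x : M, In B m x → x ∈ O))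
      (fun m : M => pick θ e (fun O => O ∈ V ∧ ∀ x : M, In B m x → x ∈ O)), ?_, ?_, ?_⟩
  · intro O hO
    obtain ⟨m, ⟨_, hm⟩, rfl⟩ := (hmF O).1 hO
    exact (hpick m hm).1
  · refine ⟨n, lam n (fun m : M => pick θ e (fun O => O ∈ V ∧ ∀ x : M, In B m x → x ∈ O)), hn, ?_, ?_⟩
    · intro x y z hx hy hz
      have hy' := (cpt_rel_lam (F := fun m : M => pick θ e (fun O => O ∈ V ∧ ∀ x : M, In B m x → x ∈ O)) hx).1 hy
      have hz' := (cpt_rel_lam (F := fun m : M => pick θ e (fun O => O ∈ V ∧ ∀ x : M, In B m x → x ∈ O)) hx).1 hz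
      rw [hy', hz']
    · intro O hO
      obtain ⟨m, ⟨hm, _⟩, rfl⟩ := (hmF O).1 hO
      exact ⟨m, hm, (cpt_rel_lam (F := fun m : M => pick θ e (fun O => O ∈ V ∧ ∀ x : M, In B m x → x ∈ O)) hm).2 rfl⟩
  · intro x hx
    obtain ⟨m, hmZ, hmn, hm⟩ := hn' x hx
    obtain ⟨-, hm2⟩ := (hZ m).1 hmZ
    exact ⟨_, (hmF _).2 ⟨m, ⟨hmn, hm2⟩, rfl⟩, (hpick m hm2).2 x hm⟩

theorem sigmaCompactIn_of (ht : PolTop X τ u N) (h : Spc X u N B) {L H : M}
    (hL : ∀ n : M, n ∈ (omega : M) → CC X B (app L n))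
    (hH : ∀ x : M, x ∈ H ↔ ∃ n : M, n ∈ (omega : M) ∧ x ∈ app L n) :
    IsSigmaCompactIn (Model.E : M → M → Prop) omega τ H := by
  refine ⟨lam (omega : M) (fun n => app L n),
    fun n hn => ⟨_, (cpt_rel_lam (F := fun n => app L n) hn).2 rfl,
      fun y hy => (cpt_rel_lam (F := fun n => app L n) hn).1 hy⟩, ?_, ?_⟩
  · intro n K hn hK
    have e := (cpt_rel_lam (F := fun n => app L n) hn).1 hK
    rw [e]
    exact compactIn_of_cc ht h (hL n hn)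
  · intro x
    refine (hH x).trans ?_
    constructor
    · rintro ⟨n, hn, hx⟩
      exact ⟨n, _, hn, (cpt_rel_lam (F := fun n => app L n) hn).2 rfl, hx⟩
    · rintro ⟨n, K, hn, hK, hx⟩
      have e := (cpt_rel_lam (F := fun n => app L n) hn).1 hK
      rw [e] at hx
      exact ⟨n, hn, hx⟩

end Pool.Agent.COH
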