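import Pool.Agent.COH.Bd

set_option autoImplicit false
set_option linter.all false

/-!
# Hb: the Hurewicz property in terms of basic sets (difficulty 2)
-/

namespace Pool.Agent.COH

open Pool.Agent.H55.SC Pool.Agent.H55.ZFU

universe u

variable {M : Type u} [Model M] [Pure M]

theorem hb_of {X τ u N B Y : M} (h : Spc X u N B)
    (hop : ∀ m : M, m ∈ (omega : M) → sep X (fun x => In B m x) ∈ τ)
    (hH : IsHurewiczIn (Model.E : M → M → Prop) omega X τ Y) : HB B Y := by
  intro C hC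
  have iW : Fn1 (fun m : M => sep X (fun x => In B m x)) := by infer_instance
  have iS : ∀ n : M, Dfn1 (fun m : M => opair n m ∈ C) := fun n => by infer_instance
  have iU : Fn1 (fun n : M => img (sep omega (fun m => opair n m ∈ C)) (fun m => sep X (fun x => In B m x))) := by
    infer_instance
  have hU : ∀ n O : M, O ∈ img (sep omega (fun m => opair n m ∈ C)) (fun m => sep X (fun x => In B m x)) ↔
      ∃ m, (m ∈ (omega : M) ∧ opair n m ∈ C) ∧ O = sep X (fun x => In B m x) := by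
    intro n O
    rw [mem_img]
    have := iS n
    constructor
    · rintro ⟨m, hm, rfl⟩
      rw [mem_sep] at hm
      exact ⟨m, hm, rfl⟩
    · rintro ⟨m, hm, rfl⟩
      refine ⟨m, ?_, rfl⟩
      rw [mem_sep]
      exact hm
  have hu : ∀ n x : M, n ∈ (omega : M) → (Pool.Agent.H55.SC.Rel Model.E (lam (omega : M)
      (fun n : M => img (sep omega (fun m => opair n m ∈ C)) (fun m => sep X (fun x => In B m x)))) n x ↔
      x = img (sep omega (fun m => opair n m ∈ C)) (fun m => sep X (fun x => In B m x))) := by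
    intro n x hn
    rw [rel_iff, mem_lam]
    constructor
    · rintro ⟨n', _, h1⟩
      rw [opair_inj] at h1
      rw [h1.1, h1.2]
    · rintro rfl
      exact ⟨n, hn, rfl⟩
  obtain ⟨v, hv, hv1, hv2⟩ := hH.2 (lam (omega : M)
      (fun n : M => img (sep omega (fun m => opair n m ∈ C)) (fun m => sep X (fun x => In B m x)))) ⟨
    fun n hn => ⟨_, (hu n _ hn).mpr rfl, fun y hy => (hu n y hn).mp hy⟩,
    fun n V hn hV => by
      have e := (hu n V hn).mp hV
      subst e
      constructor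
      · intro O hO
        obtain ⟨m, hm, rfl⟩ := (hU n O).mp hO
        exact hop m hm.1
      · intro x hx
        obtain ⟨m, hm, hmx⟩ := hC n x hn hx
        have h1 := h.mem m x hmx
        refine ⟨sep X (fun x => In B m x), (hU n _).mpr ⟨m, ⟨h1.1, hm⟩, rfl⟩, ?_⟩
        show x ∈ sep X (fun x => In B m x)
        rw [mem_sep]
        exact ⟨h1.2, hmx⟩⟩
  have hvu : ∀ n : M, n ∈ (omega : M) → ∃! y, opair n y ∈ v := by
    intro n hn
    obtain ⟨y, hy, hyu⟩ := hv n hn
    exact ⟨y, rel_iff.mp hy, fun z hz => hyu z (rel_iff.mpr hz)⟩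
  have hva : ∀ n : M, n ∈ (omega : M) → Pool.Agent.H55.SC.Rel Model.E v n (app v n) := fun n hn => rel_iff.mpr (opair_app (hvu n hn))
  have iQ : ∀ n : M, Dfn1 (fun l : M => l ∈ (omega : M) ∧ ∀ O : M, O ∈ app v n →
      ∃ m : M, m ∈ l ∧ opair n m ∈ C ∧ O = sep X (fun x => In B m x)) := fun n => by infer_instance
  have iH : Fn1 (fun n : M => mu (fun l : M => l ∈ (omega : M) ∧ ∀ O : M, O ∈ app v n →
      ∃ m : M, m ∈ l ∧ opair n m ∈ C ∧ O = sep X (fun x => In B m x))) := by infer_instance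
  have hmu : ∀ n : M, n ∈ (omega : M) → mu (fun l : M => l ∈ (omega : M) ∧ ∀ O : M, O ∈ app v n →
      ∃ m : M, m ∈ l ∧ opair n m ∈ C ∧ O = sep X (fun x => In B m x)) ∈ (omega : M) ∧ ∀ O : M, O ∈ app v n →
      ∃ m : M, m ∈ mu (fun l : M => l ∈ (omega : M) ∧ ∀ O : M, O ∈ app v n →
      ∃ m : M, m ∈ l ∧ opair n m ∈ C ∧ O = sep X (fun x => In B m x)) ∧ opair n m ∈ C ∧
        O = sep X (fun x => In B m x) := by
    intro n hn
    have hf := hv1 n _ (app v n) hn ((hu n _ hn).mpr rfl) (hva n hn)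
    have iP : Dfn2 (fun O l : M => ∃ m : M, m ∈ l ∧ opair n m ∈ C ∧ O = sep X (fun x => In B m x)) := by
      infer_instance
    obtain ⟨l, hl, hl1⟩ := bd_fin (fun O l : M => ∃ m : M, m ∈ l ∧ opair n m ∈ C ∧ O = sep X (fun x => In B m x))
      (fun a l l' hl' hle => by
        rintro ⟨m, hm, h1, h2⟩
        refine ⟨m, ?_, h1, h2⟩
        rcases hle with h3 | rfl
        · exact nat_trans hl' l h3 m hm
        · exact hm) hf.2 (fun O hO => by
        obtain ⟨m, hm, rfl⟩ := (hU n O).mp (hf.1 O hO)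
        exact ⟨suc m, suc_mem_omega hm.1, m, by simp, hm.2, rfl⟩)
    have := iQ n
    have h3 := mu_spec (fun l : M => l ∈ (omega : M) ∧ ∀ O : M, O ∈ app v n →
      ∃ m : M, m ∈ l ∧ opair n m ∈ C ∧ O = sep X (fun x => In B m x)) ⟨l, nat_ord hl, hl, hl1⟩
    exact h3.2.1
  refine ⟨lam (omega : M) (fun n : M => mu (fun l : M => l ∈ (omega : M) ∧ ∀ O : M, O ∈ app v n →
      ∃ m : M, m ∈ l ∧ opair n m ∈ C ∧ O = sep X (fun x => In B m x))), lam_fnOn _ _, ?_, ?_⟩
  · intro n hn
    rw [app_lam hn]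
    exact (hmu n hn).1
  · intro x hx
    obtain ⟨n0, hn0, h1⟩ := hv2 x hx
    refine ⟨n0, hn0, fun n hn hle => ?_⟩
    rw [app_lam hn]
    obtain ⟨O, hO, hxO⟩ := h1 n (app v n) hn hle (hva n hn)
    obtain ⟨m, hm, hmC, rfl⟩ := (hmu n hn).2 O hO
    have hxO' : x ∈ sep X (fun x => In B m x) := hxO
    rw [mem_sep] at hxO'
    exact ⟨m, hm, hmC, hxO'.2⟩

end Pool.Agent.COH
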