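import Pool.Agent.COH.Sp
import Pool.Agent.COH.Hb
import Pool.Agent.COH.AnB
import Pool.Agent.COH.Cor
import Pool.Agent.COH.Cpt

set_option autoImplicit false
set_option linter.all false

/-!
# Brd: the theorem inside the model (difficulty 3)

PROOF. Let `G`, `σ` be a Polish group of the model, `Y` (`X` in the definition) a set with the Hurewicz property, `H` the
generated subgroup, Borel. `polish_exists` gives `u N` with `PolTop G σ u N`; `exists_spc` gives `B`. By `fun2_exists` there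
is `mu0` with `app mu0 (opair x.1 y.1) = (x * y).1` for `x y : El Model.E G`. The inverse as an element of the model: for `x ∈ G`
the element `x⁻¹` is the only `z ∈ G` with `app mu0 (opair x z) = (1 : El _ G).1`; so the relation `R x z` = `z ∈ G ∧ app mu0 (opair x z) = 1`
is a definable function on `G` and `exists_fn` gives `iv` with `app iv x.1 = (x⁻¹).1`. Let
`dv = lam (prod G G) (fun p => app mu0 (opair (fst p) (app iv (snd p))))`, so `app dv (opair x.1 y.1) = (x * y⁻¹).1`.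
`Dv G N dv`: `cont` from `cont2_nb` (multiplication) and `cont1_nb` (inverse). `Y ⊆ H ⊆ G`, `H` is closed under `dv`
(`IsSubgp`). `HB B Y` by `hb_of`; `An G N H` by `an_borel`.
Case 1: `Y` has an element. `hmin`: let `T ⊆ G`, `Y ⊆ T`, closed under `dv`; then `T` is a subgroup (`IsSubgp`): for `y ∈ Y`
`1 = y * y⁻¹`; `x⁻¹ = 1 * x⁻¹`; `x * y = x * (y⁻¹)⁻¹`. So `H ⊆ T`. `core` gives `L`, and `sigmaCompactIn_of` the claim.
Case 2: `Y` is empty. Then `sing 1` is a subgroup containing `Y`, so `H = sing 1`, and `sigmaCompactIn_of` with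
`L = lam omega (fun _ => sing 1)` and `cc_sing` gives the claim.
-/

namespace Pool.Agent.COH

open Pool.Agent.H55.SC Pool.Agent.H55.ZFU

universe u

variable {M : Type u} [Model M] [Pure M] [Choice M]

theorem hurewicz_groups {g pr p1 p2 i0 : M} (hc : Cod g pr p1 p2) (hF : Frz i0) (hG : Gen i0) :
    HurewiczGroupsSigmaCompact (Model.E : M → M → Prop) omega := by
  intro G σ grp hPG Y H hY hgen hBor
  obtain ⟨u, N, hT⟩ := polish_exists hPG.polish
  obtain ⟨B, hS, hop⟩ := exists_spc hT hc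
  obtain ⟨mu0, hmu⟩ := fun2_exists hPG.mul_internal
  obtain ⟨o1, ho1⟩ : ∃ o1 : M, o1 = (1 : EL G).1 := ⟨_, rfl⟩
  have hinv : ∃ iv : M, ∀ x : EL G, app iv x.1 = (x⁻¹).1 := by
    obtain ⟨f, hf, hf'⟩ := exists_fn (fun x z : M => z ∈ G ∧ app mu0 (opair x z) = o1) G (by
      intro x hx
      refine ⟨((⟨x, hx⟩ : EL G)⁻¹).1, ⟨((⟨x, hx⟩ : EL G)⁻¹).2, ?_⟩, ?_⟩
      · have h1 := hmu ⟨x, hx⟩ (⟨x, hx⟩⁻¹)
        show app mu0 (opair x ((⟨x, hx⟩ : EL G)⁻¹).1) = o1
        rw [ho1, ← mul_inv_cancel (⟨x, hx⟩ : EL G)]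
        exact h1
      · rintro z ⟨hz, hz2⟩
        have h1 := hmu ⟨x, hx⟩ ⟨z, hz⟩
        have h3 : (⟨x, hx⟩ : EL G) * ⟨z, hz⟩ = 1 := Subtype.ext (by rw [← h1, ← ho1]; exact hz2)
        have h4 := inv_eq_of_mul_eq_one_right h3
        rw [h4])
    refine ⟨f, fun x => ?_⟩
    obtain ⟨hz, hz2⟩ := hf' x.1 x.2
    have h1 := hmu x ⟨app f x.1, hz⟩
    have h3 : x * ⟨app f x.1, hz⟩ = 1 := Subtype.ext (by rw [← h1, ← ho1]; exact hz2)
    have h4 := inv_eq_of_mul_eq_one_right h3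
    rw [h4]
  obtain ⟨iv, hiv⟩ := hinv
  obtain ⟨dv, hdvd⟩ : ∃ dv : M, dv = lam (prod G G) (fun p => app mu0 (opair (fst p) (app iv (snd p)))) :=
    ⟨_, rfl⟩
  have hdv : ∀ x y : EL G, app dv (opair x.1 y.1) = (x * y⁻¹).1 := by
    intro x y
    rw [hdvd, app_lam (opair_mem_prod.2 ⟨x.2, y.2⟩), fst_opair, snd_opair, hiv, hmu]
  have hD : Dv G N dv := by
    constructor
    · intro x y hx hy
      rw [hdv ⟨x, hx⟩ ⟨y, hy⟩]
      exact ((⟨x, hx⟩ : EL G) * (⟨y, hy⟩ : EL G)⁻¹).2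
    · intro x y k hx hy hk
      obtain ⟨l1, hl1, h1⟩ := cont2_nb hT hT hT hPG.mul_cont ⟨x, hx⟩ ((⟨y, hy⟩ : EL G)⁻¹) hk
      obtain ⟨l2, hl2, h2⟩ := cont1_nb hT hT hPG.inv_cont ⟨y, hy⟩ hl1
      obtain ⟨l, hl, h4, h5⟩ := nat_bd hl1 hl2
      refine ⟨l, hl, fun x' y' hx' hy' => ?_⟩
      have hxG := (hT.upol.mem _ _ _ hx').2
      have hyG := (hT.upol.mem _ _ _ hy').2
      rw [hdv ⟨x, hx⟩ ⟨y, hy⟩, hdv ⟨x', hxG⟩ ⟨y', hyG⟩]
      exact h1 ⟨x', hxG⟩ ((⟨y', hyG⟩ : EL G)⁻¹) (hT.upol.mono hl (Or.inl h4) hx')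
        (h2 ⟨y', hyG⟩ (hT.upol.mono hl (Or.inl h5) hy'))
  have hHG : H ⊆ G := fun x hx => hgen.1.1 x hx
  have hYH : Y ⊆ H := fun x hx => hgen.2.1 x hx
  have hb : HB B Y := hb_of hS hop hY
  have hA : An G N H := an_borel hT hc hBor
  have hHd : ∀ x y : M, x ∈ H → y ∈ H → app dv (opair x y) ∈ H := by
    intro x y hx hy
    rw [hdv ⟨x, hHG x hx⟩ ⟨y, hHG y hy⟩]
    exact hgen.1.2.2.1 ⟨x, hHG x hx⟩ ((⟨y, hHG y hy⟩ : EL G)⁻¹) hx
      (hgen.1.2.2.2 ⟨y, hHG y hy⟩ hy)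
  by_cases hne : ∃ y : M, y ∈ Y
  · obtain ⟨y0, hy0⟩ := hne
    have hmin : ∀ T : M, T ⊆ G → Y ⊆ T → (∀ x y : M, x ∈ T → y ∈ T → app dv (opair x y) ∈ T) →
        H ⊆ T := by
      intro T hTG hYT hcl
      have hone : (1 : EL G).1 ∈ T := by
        have h1 := hcl y0 y0 (hYT y0 hy0) (hYT y0 hy0)
        rw [hdv ⟨y0, hTG y0 (hYT y0 hy0)⟩ ⟨y0, hTG y0 (hYT y0 hy0)⟩, mul_inv_cancel] at h1
        exact h1
      have hiT : ∀ x : EL G, x.1 ∈ T → (x⁻¹).1 ∈ T := by
        intro x hx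
        have h1 := hcl _ _ hone hx
        rw [hdv 1 x, one_mul] at h1
        exact h1
      have hmT : ∀ x y : EL G, x.1 ∈ T → y.1 ∈ T → (x * y).1 ∈ T := by
        intro x y hx hy
        have h1 := hcl _ _ hx (hiT y hy)
        rw [hdv x (y⁻¹), inv_inv] at h1
        exact h1
      exact fun x hx => hgen.2.2 T ⟨fun z hz => hTG z hz, hone, hmT, hiT⟩ (fun z hz => hYT z hz) x hx
    obtain ⟨L, hL1, hL2⟩ := core hS hc hD hF hG hYH hHG hb hHd hmin hA
    exact sigmaCompactIn_of hT hS hL1 hL2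
  · have h1H : o1 ∈ H := by rw [ho1]; exact hgen.1.2.1
    have hone : o1 ∈ G := hHG _ h1H
    have hsub : IsSubgp (Model.E : M → M → Prop) G (sing o1) := by
      refine ⟨fun z hz => ?_, ?_, ?_, ?_⟩
      · have h1 : z = o1 := mem_sing.1 hz
        rw [h1]; exact hone
      · exact mem_sing.2 ho1.symm
      · intro x y hx hy
        have h1 : x = 1 := Subtype.ext ((mem_sing.1 hx).trans ho1)
        have h2 : y = 1 := Subtype.ext ((mem_sing.1 hy).trans ho1)
        rw [h1, h2, one_mul]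
        exact mem_sing.2 ho1.symm
      · intro x hx
        have h1 : x = 1 := Subtype.ext ((mem_sing.1 hx).trans ho1)
        rw [h1, inv_one]
        exact mem_sing.2 ho1.symm
    have hHs : ∀ x : M, x ∈ H ↔ x = o1 := by
      intro x
      constructor
      · intro hx
        exact mem_sing.1 (hgen.2.2 (sing o1) hsub (fun z hz => (hne ⟨z, hz⟩).elim) x hx)
      · rintro rfl
        exact h1H
    have hap : ∀ n : M, n ∈ (omega : M) → app (lam omega (fun _ : M => sing o1)) n = sing o1 :=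
      fun n hn => app_lam hn
    refine sigmaCompactIn_of hT hS (L := lam omega (fun _ : M => sing o1)) ?_ ?_
    · intro n hn
      rw [hap n hn]
      exact cc_sing hS hone
    · intro x
      rw [hHs]
      constructor
      · intro hx
        refine ⟨∅, empty_mem_omega, ?_⟩
        rw [hap _ empty_mem_omega]
        exact mem_sing.2 hx
      · rintro ⟨n, hn, hx⟩
        rw [hap n hn] at hx
        exact mem_sing.1 hx

end Pool.Agent.COH
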