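import Pool.Agent.COH.GSq

set_option autoImplicit false
set_option linter.all false

/-!
# CdM: codes in the model (difficulty 2)

PROOF. For `f : ℕ → ℕ → ℕ` let `fn2 f = .mk (ℕ × ℕ) (fun x => opN (opN (ck Q x.1) (ck Q x.2)) (ck Q (f x.1 x.2))) (fun _ => ⊤)` and for
`f : ℕ → ℕ` let `fn1 f = .mk ℕ (fun x => opN (ck Q x) (ck Q (f x))) (fun _ => ⊤)`. If this name is in `N` (`club_inN`, only
four functions are needed) then its value `F` satisfies `app F (opair (nv i) (nv j)) = nv (f i j)` resp.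
`app F (nv i) = nv (f i)` (`mem_val`, `pair_vl`, `nv_inj`, `opair_inj`, `app_eq`). Take `f a i = (Denumerable.ofNat (List ℕ) a).getD i 0`
for `g`, `Nat.pair`, `fun n => n.unpair.1`, `fun n => n.unpair.2`. `g_spec`: for `y ∈ funs omega omega` there is `y' : ℕ → ℕ` with
`app y (nv n) = nv (y' n)`; `k = nv k'`; `i ∈ nv k'` iff `i = nv i'` with `i' < k'` (`nv_lt`, `mem_omega'`, `omega_trans`); take
the number of the list `(List.range k').map y'`. `p1_cof`: `i = Nat.pair j (n + 1)` (`Nat.right_le_pair`).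
-/

namespace Pool.Agent.COH

open FirstOrder FirstOrder.Language Pool.Agent.H55.SC Pool.Agent.H55.ZFU Pool.Agent.H55.Lav Pool.Agent.TPM

/-- The name of a function of two natural numbers. -/
def cdM_fn2 (Q : Type) [Preorder Q] [OrderTop Q] (f : ℕ → ℕ → ℕ) : Nm Q :=
  .mk (ℕ × ℕ) (fun x => opN (opN (ck Q x.1) (ck Q x.2)) (ck Q (f x.1 x.2))) (fun _ => ⊤)

/-- The name of a function of a natural number. -/
def cdM_fn1 (Q : Type) [Preorder Q] [OrderTop Q] (f : ℕ → ℕ) : Nm Q :=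
  .mk ℕ (fun x => opN (ck Q x) (ck Q (f x))) (fun _ => ⊤)

section
variable {Q : Type} [Preorder Q] [OrderTop Q] {N : Set (Un Q)} {G : Set Q} (bok : TPM.BOk N)
  (gen : GenF N G)

include gen in
lemma cdM_mem2 {f : ℕ → ℕ → ℕ} (hF : InN N (cdM_fn2 Q f)) (z : MM N G) :
    letI := mdl bok.ok bok.fok bok.zok gen; z ∈ (vl G hF : MM N G) ↔ ∃ i j : ℕ,
      z = opair (opair (nv G bok.zok i : MM N G) (nv G bok.zok j)) (nv G bok.zok (f i j)) := by
  letI := mdl bok.ok bok.fok bok.zok gen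
  have htop := top_mem bok.ok gen
  have hp : ∀ i j : ℕ,
      opair (opair (nv G bok.zok i : MM N G) (nv G bok.zok j)) (nv G bok.zok (f i j)) =
      vl G (inN_op bok.zok (inN_op bok.zok (bok.zok.nat i) (bok.zok.nat j))
        (bok.zok.nat (f i j))) := by
    intro i j
    have h1 : opair (vl G (bok.zok.nat i) : MM N G) (vl G (bok.zok.nat j)) =
        vl G (inN_op bok.zok (bok.zok.nat i) (bok.zok.nat j)) := pair_vl bok gen _ _
    have h2 : opair (vl G (inN_op bok.zok (bok.zok.nat i) (bok.zok.nat j)) : MM N G)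
        (vl G (bok.zok.nat (f i j))) =
        vl G (inN_op bok.zok (inN_op bok.zok (bok.zok.nat i) (bok.zok.nat j))
        (bok.zok.nat (f i j))) := pair_vl bok gen _ _
    unfold nv
    rw [h1, h2]
  constructor
  · intro hz
    obtain ⟨⟨i, j⟩, h1, _, h3⟩ := mem_val.mp (show z.1 ∈ val N G (cdM_fn2 Q f) from hz)
    refine ⟨i, j, ?_⟩
    rw [hp]
    exact Subtype.ext h3.symm
  · rintro ⟨i, j, rfl⟩
    rw [hp]
    exact (mem_val (τ := cdM_fn2 Q f)).mpr ⟨(i, j), inN_op bok.zok (inN_op bok.zok (bok.zok.nat i) (bok.zok.nat j))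
        (bok.zok.nat (f i j)), htop, rfl⟩

include gen in
lemma cdM_mem1 {f : ℕ → ℕ} (hF : InN N (cdM_fn1 Q f)) (z : MM N G) :
    letI := mdl bok.ok bok.fok bok.zok gen; z ∈ (vl G hF : MM N G) ↔ ∃ i : ℕ,
      z = opair (nv G bok.zok i : MM N G) (nv G bok.zok (f i)) := by
  letI := mdl bok.ok bok.fok bok.zok gen
  have htop := top_mem bok.ok gen
  have hp : ∀ i : ℕ, opair (nv G bok.zok i : MM N G) (nv G bok.zok (f i)) =
      vl G (inN_op bok.zok (bok.zok.nat i) (bok.zok.nat (f i))) := fun i =>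
    pair_vl bok gen _ _
  constructor
  · intro hz
    obtain ⟨i, h1, _, h3⟩ := mem_val.mp (show z.1 ∈ val N G (cdM_fn1 Q f) from hz)
    refine ⟨i, ?_⟩
    rw [hp]
    exact Subtype.ext h3.symm
  · rintro ⟨i, rfl⟩
    rw [hp]
    exact (mem_val (τ := cdM_fn1 Q f)).mpr ⟨i, inN_op bok.zok (bok.zok.nat i) (bok.zok.nat (f i)), htop, rfl⟩

include gen in
lemma cdM_app2 {f : ℕ → ℕ → ℕ} (hF : InN N (cdM_fn2 Q f)) (i j : ℕ) :
    letI := mdl bok.ok bok.fok bok.zok gen;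
    app (vl G hF : MM N G) (opair (nv G bok.zok i) (nv G bok.zok j)) = nv G bok.zok (f i j) := by
  letI := mdl bok.ok bok.fok bok.zok gen
  have htop := top_mem bok.ok gen
  have hm : opair (opair (nv G bok.zok i : MM N G) (nv G bok.zok j)) (nv G bok.zok (f i j)) ∈
      (vl G hF : MM N G) := (cdM_mem2 bok gen hF _).2 ⟨i, j, rfl⟩
  refine app_eq ⟨_, hm, ?_⟩ hm
  intro y hy
  obtain ⟨i', j', h⟩ := (cdM_mem2 bok gen hF _).1 hy
  rw [opair_inj, opair_inj] at h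
  obtain ⟨⟨h1, h2⟩, h3⟩ := h
  have e1 := nv_inj htop h1
  have e2 := nv_inj htop h2
  subst e1 e2
  exact h3

include gen in
lemma cdM_app1 {f : ℕ → ℕ} (hF : InN N (cdM_fn1 Q f)) (i : ℕ) :
    letI := mdl bok.ok bok.fok bok.zok gen;
    app (vl G hF : MM N G) (nv G bok.zok i) = nv G bok.zok (f i) := by
  letI := mdl bok.ok bok.fok bok.zok gen
  have htop := top_mem bok.ok gen
  have hm : opair (nv G bok.zok i : MM N G) (nv G bok.zok (f i)) ∈
      (vl G hF : MM N G) := (cdM_mem1 bok gen hF _).2 ⟨i, rfl⟩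
  refine app_eq ⟨_, hm, ?_⟩ hm
  intro y hy
  obtain ⟨i', h⟩ := (cdM_mem1 bok gen hF _).1 hy
  rw [opair_inj] at h
  obtain ⟨h1, h3⟩ := h
  have e1 := nv_inj htop h1
  subst e1
  exact h3

end

theorem cdM_club (Q : Type) [Preorder Q] [OrderTop Q] : ∀ᶠ N in club (Un Q), ∀ (bok : TPM.BOk N) (G : Set Q)
    (gen : GenF N G), letI := mdl bok.ok bok.fok bok.zok gen; ∃ g pr p1 p2 : MM N G, Cod g pr p1 p2 := by
  filter_upwards [club_inN (cdM_fn2 Q (fun a i => (Denumerable.ofNat (List ℕ) a).getD i 0)),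
    club_inN (cdM_fn2 Q Nat.pair), club_inN (cdM_fn1 Q (fun n => n.unpair.1)),
    club_inN (cdM_fn1 Q (fun n => n.unpair.2))] with N h1 h2 h3 h4
  intro bok G gen
  letI := mdl bok.ok bok.fok bok.zok gen
  have htop := top_mem bok.ok gen
  have hom : ∀ x : MM N G, x ∈ (omega : MM N G) ↔ ∃ n, x = nv G bok.zok n :=
    fun x => mem_omega' bok gen x
  have ag : ∀ i j : ℕ, app (vl G h1 : MM N G) (opair (nv G bok.zok i) (nv G bok.zok j)) =
      nv G bok.zok ((Denumerable.ofNat (List ℕ) i).getD j 0) := cdM_app2 bok gen h1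
  have apr : ∀ i j : ℕ, app (vl G h2 : MM N G) (opair (nv G bok.zok i) (nv G bok.zok j)) =
      nv G bok.zok (Nat.pair i j) := cdM_app2 bok gen h2
  have a1 : ∀ i : ℕ, app (vl G h3 : MM N G) (nv G bok.zok i) = nv G bok.zok i.unpair.1 :=
    cdM_app1 bok gen h3
  have a2 : ∀ i : ℕ, app (vl G h4 : MM N G) (nv G bok.zok i) = nv G bok.zok i.unpair.2 :=
    cdM_app1 bok gen h4
  refine ⟨vl G h1, vl G h2, vl G h3, vl G h4, ?_, ?_, ?_, ?_, ?_, ?_, ?_, ?_⟩
  · intro a i ha hi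
    obtain ⟨a, rfl⟩ := (hom a).1 ha
    obtain ⟨i, rfl⟩ := (hom i).1 hi
    rw [ag]
    exact (hom _).2 ⟨_, rfl⟩
  · intro y k hy hk
    obtain ⟨k, rfl⟩ := (hom k).1 hk
    rw [mem_funs] at hy
    have h5 : ∀ n : ℕ, ∃ m : ℕ, app y (nv G bok.zok n) = nv G bok.zok m := fun n =>
      (hom _).1 (hy.2 _ ((hom _).2 ⟨n, rfl⟩))
    choose y' hy' using h5
    refine ⟨nv G bok.zok (Encodable.encode ((List.range k).map y')), (hom _).2 ⟨_, rfl⟩, ?_⟩
    intro i hi
    obtain ⟨m, hm, rfl⟩ := (mem_nv htop).mp (show EE i (nv G bok.zok k) from hi)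
    rw [ag, hy', Denumerable.ofNat_encode]
    congr 1
    simp [List.getD, hm]
  · intro i j hi hj
    obtain ⟨i, rfl⟩ := (hom i).1 hi
    obtain ⟨j, rfl⟩ := (hom j).1 hj
    rw [apr]
    exact (hom _).2 ⟨_, rfl⟩
  · intro n hn
    obtain ⟨n, rfl⟩ := (hom n).1 hn
    rw [a1]
    exact (hom _).2 ⟨_, rfl⟩
  · intro n hn
    obtain ⟨n, rfl⟩ := (hom n).1 hn
    rw [a2]
    exact (hom _).2 ⟨_, rfl⟩
  · intro i j hi hj
    obtain ⟨i, rfl⟩ := (hom i).1 hi
    obtain ⟨j, rfl⟩ := (hom j).1 hj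
    rw [apr, a1, Nat.unpair_pair]
  · intro i j hi hj
    obtain ⟨i, rfl⟩ := (hom i).1 hi
    obtain ⟨j, rfl⟩ := (hom j).1 hj
    rw [apr, a2, Nat.unpair_pair]
  · intro j n hj hn
    obtain ⟨j, rfl⟩ := (hom j).1 hj
    obtain ⟨n, rfl⟩ := (hom n).1 hn
    refine ⟨nv G bok.zok (Nat.pair j (n + 1)), (hom _).2 ⟨_, rfl⟩, ?_, ?_⟩
    · have h6 := Nat.right_le_pair j (n + 1)
      exact (nv_lt htop).mpr (by omega)
    · rw [a1, Nat.unpair_pair]

end Pool.Agent.COH
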