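import Pool.Agent.COH.Cnt

set_option autoImplicit false

/-!
# Clo: closing a set of coordinates under a function on names (difficulty 3)

PROOF. By `cts` every `F B B' m` has a countable support `s B B' m`. For `A : Set K` let
`g A = A ∪ ⋃ B ∈ Nam A, ⋃ B' ∈ Nam A, ⋃ m, s B B' m`. If `#A ≤ 𝔠` then `#(g A) ≤ 𝔠` by `cnt` (`Cardinal.mk_iUnion_le`,
`Cardinal.mk_bUnion_le`, `𝔠 * 𝔠 = 𝔠`). Define by wellfounded recursion on `W1 = KK ℵ₁`
(`Pool/Agent/H12/Thread/Tools.lean`, `Pool/Agent/TPM/Cnd.lean`) `a i = ⋃ j < i, g (a j)` and let `A = ⋃ i, g (a i)`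
(or `⋃ i, a i`). By induction `#(a i) ≤ 𝔠`, so `#A ≤ ℵ₁ * 𝔠 = 𝔠`. Note `g (a j) ⊆ a i` for `j < i`, and `a j ⊆ g (a j)`.
Let `B, B' ∈ Nam A`. By `cts` and `Reg.inter` there is a countable `C ⊆ A` with `Reg C (B m)` and `Reg C (B' m)` for all
`m` (take the union over `m` of the countable supports, intersected with `A`; `Reg.mono`). Every `c ∈ C` belongs to some
`g (a i_c)`, and the countably many `i_c` have an upper bound `i` in `W1` (`bd_KK` with
`Cardinal.isRegular_aleph_one`: a set of cardinality `< ℵ₁` is bounded). So `C ⊆ a i`, `B, B' ∈ Nam (a i)` by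
`Reg.mono`, hence the support of `F B B' m` is included in `g (a i) ⊆ A`, and `F B B' ∈ Nam A` by `Reg.mono`.
-/

namespace Pool.Agent.COH

open Pool.Agent.TPM Cardinal Set

variable {K : Type}

theorem clo_iUnion {ι : Type} {f : ι → Set K} (hι : #ι ≤ 𝔠) (hf : ∀ i, #(f i) ≤ 𝔠) :
    #(⋃ i, f i) ≤ 𝔠 := by
  refine (Cardinal.mk_iUnion_le _).trans ?_
  calc #ι * ⨆ i, #(f i) ≤ 𝔠 * 𝔠 := mul_le_mul' hι (ciSup_le' hf)
    _ = 𝔠 := Cardinal.continuum_mul_self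

theorem clo_sup {A : Set K} {B : ℕ → Set (Coh K)} (hB : B ∈ Nam A) :
    ∃ C : Set K, C.Countable ∧ C ⊆ A ∧ B ∈ Nam C := by
  choose C hC using fun m => cts (hB m).opn (hB m).rg
  refine ⟨⋃ m, (A ∩ C m), ?_, ?_, ?_⟩
  · exact Set.countable_iUnion fun m => (hC m).1.mono Set.inter_subset_right
  · exact Set.iUnion_subset fun m => Set.inter_subset_left
  · intro m
    exact ((hB m).inter (hC m).2).mono (Set.subset_iUnion (fun m => A ∩ C m) m)

theorem clo (F : (ℕ → Set (Coh K)) → (ℕ → Set (Coh K)) → ℕ → Set (Coh K))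
    (hF : ∀ B B' m, Opn (F B B' m) ∧ rg (F B B' m) = F B B' m) :
    ∃ A : Set K, #A ≤ 𝔠 ∧ ∀ B ∈ Nam A, ∀ B' ∈ Nam A, F B B' ∈ Nam A := by
  classical
  choose s hs using fun B B' m => cts (hF B B' m).1 (hF B B' m).2
  let g : Set K → Set K := fun A => A ∪ ⋃ B : Nam A, ⋃ B' : Nam A, ⋃ m : ℕ, s B.1 B'.1 m
  have hg : ∀ A : Set K, #A ≤ 𝔠 → #(g A) ≤ 𝔠 := by
    intro A hA
    have h1 : #(⋃ B : Nam A, ⋃ B' : Nam A, ⋃ m : ℕ, s B.1 B'.1 m : Set K) ≤ 𝔠 := by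
      refine clo_iUnion (cnt hA) fun B => clo_iUnion (cnt hA) fun B' => clo_iUnion ?_ fun m => ?_
      · rw [Cardinal.mk_nat]; exact Cardinal.aleph0_le_continuum
      · exact ((hs B.1 B'.1 m).1.le_aleph0).trans Cardinal.aleph0_le_continuum
    refine (Cardinal.mk_union_le _ _).trans ?_
    calc _ ≤ 𝔠 + 𝔠 := add_le_add hA h1
      _ = 𝔠 := Cardinal.continuum_add_self
  have hsub : ∀ A : Set K, A ⊆ g A := fun A => Set.subset_union_left
  let a : W1 → Set K := IsWellFounded.fix (α := W1) (· < ·)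
    (fun i ih => ⋃ j : Set.Iio i, g (ih j.1 j.2))
  have ha : ∀ i, a i = ⋃ j : Set.Iio i, g (a j.1) := fun i => IsWellFounded.fix_eq _ _ i
  have hW : #W1 ≤ 𝔠 := by
    rw [Pool.Agent.H12.Thread.mk_KK]
    exact Cardinal.aleph_one_le_continuum
  have hac : ∀ i, #(a i) ≤ 𝔠 := by
    intro i
    induction i using IsWellFounded.induction (α := W1) (· < ·) with
    | ind i ih =>
      rw [ha i]
      exact clo_iUnion ((Cardinal.mk_set_le _).trans hW) fun j => hg _ (ih j.1 j.2)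
  have hlt : ∀ j i, j < i → g (a j) ⊆ a i := by
    intro j i hji
    rw [ha i]
    exact Set.subset_iUnion (fun j : Set.Iio i => g (a j.1)) ⟨j, hji⟩
  refine ⟨⋃ i : W1, g (a i), clo_iUnion hW fun i => hg _ (hac i), ?_⟩
  intro B hB B' hB' m
  obtain ⟨C, hC, hCA, hBC⟩ := clo_sup hB
  obtain ⟨C', hC', hCA', hBC'⟩ := clo_sup hB'
  have hD : ∀ c : (C ∪ C' : Set K), ∃ i : W1, c.1 ∈ g (a i) := by
    rintro ⟨c, hc⟩
    have : c ∈ ⋃ i : W1, g (a i) := by
      rcases hc with hc | hc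
      · exact hCA hc
      · exact hCA' hc
    exact Set.mem_iUnion.1 this
  choose i hi using hD
  obtain ⟨b, hb⟩ := Pool.Agent.H12.Thread.bd_KK Cardinal.isRegular_aleph_one (s := Set.range i) (by
    refine (Cardinal.mk_range_le).trans_lt ?_
    refine ((hC.union hC').le_aleph0).trans_lt ?_
    exact Cardinal.aleph0_lt_aleph_one)
  have hsb : C ∪ C' ⊆ a b := by
    intro c hc
    exact hlt _ _ (hb (i ⟨c, hc⟩) ⟨_, rfl⟩) (hi ⟨c, hc⟩)
  have h1 : B ∈ Nam (a b) := fun m => (hBC m).mono (Set.subset_union_left.trans hsb)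
  have h2 : B' ∈ Nam (a b) := fun m => (hBC' m).mono (Set.subset_union_right.trans hsb)
  refine (hs B B' m).2.mono ?_
  intro x hx
  refine Set.mem_iUnion.2 ⟨b, Or.inr ?_⟩
  exact Set.mem_iUnion.2 ⟨⟨B, h1⟩, Set.mem_iUnion.2 ⟨⟨B', h2⟩, Set.mem_iUnion.2 ⟨m, hx⟩⟩⟩

end Pool.Agent.COH
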