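import Pool.Agent.COH.Cts

set_option autoImplicit false

/-!
# Cnt: there are at most `𝔠` names with a support of size at most `𝔠` (difficulty 3)

PROOF. Let `D A = {p : Coh K | res A p = p}`.
(1) If `Reg A S` then there is `f : ℕ → Option (D A)` such that `S = {q | ∃ n, ∃ p, f n = some p ∧ q ≤ p.1}`: by `cts` and
`Reg.inter` there is a countable `C ⊆ A` with `Reg C S`. `D C` is countable (`p ↦ (p.pos, p.neg)` maps it injectively into
the pairs of finite subsets of the countable set `C ×ˢ univ`, `Set.Countable` of the finite subsets of a countable set: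
`Set.countable_setOf_finite_subset`, or use `Finset C'` for the subtype `C`), and `D C ⊆ D A`. Enumerate `D C ∩ S` (it may
be empty, therefore `Option`). If `q ∈ S` then `res C q ∈ D C ∩ S` and `q ≤ res C q`; the converse holds because `S` is open.
(2) `#(D A) ≤ 𝔠`: the map `p ↦ (p.pos, p.neg)` maps `D A` injectively to pairs of finite subsets of `A ×ˢ univ`; the
cardinality of `Finset (A × ℕ)` is at most `max ℵ₀ #(A × ℕ) ≤ 𝔠` (`Cardinal.mk_finset_of_infinite` or
`Cardinal.mk_finset_le` style lemmas; `Cardinal.continuum_mul_aleph0`).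
(3) So `Nam A` is the image of (a subset of) `ℕ → ℕ → Option (D A)`, whose cardinality is at most `(𝔠 ^ ℵ₀) ^ ℵ₀ = 𝔠`
(`Cardinal.continuum_power_aleph0`, `Cardinal.mk_option`, `Cardinal.mk_le_of_surjective` or `mk_le_of_injective`).
-/

namespace Pool.Agent.COH

open Pool.Agent.TPM Cardinal Set

variable {K : Type}

theorem cnt_ext {p q : Coh K} (h1 : p.pos = q.pos) (h2 : p.neg = q.neg) : p = q := by
  cases p
  cases q
  simp only at h1 h2
  subst h1
  subst h2
  rfl

theorem cnt_res {A : Set K} {p : Coh K} (h : res A p = p) :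
    (∀ x ∈ p.pos, x.1 ∈ A) ∧ ∀ x ∈ p.neg, x.1 ∈ A := by
  classical
  constructor
  · intro x hx
    have h1 : (res A p).pos = p.pos := by rw [h]
    rw [← h1] at hx
    unfold res at hx
    exact (Finset.mem_filter.1 hx).2
  · intro x hx
    have h1 : (res A p).neg = p.neg := by rw [h]
    rw [← h1] at hx
    unfold res at hx
    exact (Finset.mem_filter.1 hx).2

/-- the underlying finite sets of a condition with the support `A` -/
noncomputable def cntMap (A : Set K) (p : Coh K) :
    Finset {x : K × ℕ // x.1 ∈ A} × Finset {x : K × ℕ // x.1 ∈ A} := by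
  classical
  exact (p.pos.subtype (fun x : K × ℕ => x.1 ∈ A), p.neg.subtype (fun x : K × ℕ => x.1 ∈ A))

theorem cnt_inj {A : Set K} {p q : Coh K} (hp : res A p = p) (hq : res A q = q)
    (h : cntMap A p = cntMap A q) : p = q := by
  classical
  unfold cntMap at h
  obtain ⟨h1, h2⟩ := Prod.mk.inj h
  have hp' := cnt_res hp
  have hq' := cnt_res hq
  apply cnt_ext
  · ext x
    constructor
    · intro hx
      have h3 : (⟨x, hp'.1 x hx⟩ : {x : K × ℕ // x.1 ∈ A}) ∈ p.pos.subtype (fun x : K × ℕ => x.1 ∈ A) :=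
        Finset.mem_subtype.2 hx
      rw [h1] at h3
      exact Finset.mem_subtype.1 h3
    · intro hx
      have h3 : (⟨x, hq'.1 x hx⟩ : {x : K × ℕ // x.1 ∈ A}) ∈ q.pos.subtype (fun x : K × ℕ => x.1 ∈ A) :=
        Finset.mem_subtype.2 hx
      rw [← h1] at h3
      exact Finset.mem_subtype.1 h3
  · ext x
    constructor
    · intro hx
      have h3 : (⟨x, hp'.2 x hx⟩ : {x : K × ℕ // x.1 ∈ A}) ∈ p.neg.subtype (fun x : K × ℕ => x.1 ∈ A) :=
        Finset.mem_subtype.2 hx
      rw [h2] at h3
      exact Finset.mem_subtype.1 h3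
    · intro hx
      have h3 : (⟨x, hq'.2 x hx⟩ : {x : K × ℕ // x.1 ∈ A}) ∈ q.neg.subtype (fun x : K × ℕ => x.1 ∈ A) :=
        Finset.mem_subtype.2 hx
      rw [← h2] at h3
      exact Finset.mem_subtype.1 h3

theorem cnt_card {A : Set K} (hA : #A ≤ 𝔠) : #{p : Coh K // res A p = p} ≤ 𝔠 := by
  classical
  have h1 : #{x : K × ℕ // x.1 ∈ A} ≤ 𝔠 := by
    have e1 : Function.Injective
        (fun x : {x : K × ℕ // x.1 ∈ A} => ((⟨x.1.1, x.2⟩ : A), x.1.2)) := by
      intro x y hxy
      obtain ⟨h1, h2⟩ := Prod.mk.inj hxy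
      have h3 : x.1.1 = y.1.1 := congrArg Subtype.val h1
      exact Subtype.ext (Prod.ext h3 h2)
    refine (Cardinal.mk_le_of_injective e1).trans ?_
    rw [Cardinal.mk_prod, Cardinal.lift_id, Cardinal.lift_id]
    calc #A * #ℕ ≤ 𝔠 * ℵ₀ := by
          rw [Cardinal.mk_nat]
          exact mul_le_mul_left hA _
      _ = 𝔠 := Cardinal.continuum_mul_aleph0
  have h2 : #(Finset {x : K × ℕ // x.1 ∈ A}) ≤ 𝔠 := by
    have e1 : #(Finset {x : K × ℕ // x.1 ∈ A}) ≤ #(List {x : K × ℕ // x.1 ∈ A}) :=
      Cardinal.mk_le_of_surjective (f := List.toFinset) List.toFinset_surjective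
    refine e1.trans ((Cardinal.mk_list_le_max _).trans ?_)
    exact max_le Cardinal.aleph0_le_continuum h1
  have e2 : Function.Injective
      (fun p : {p : Coh K // res A p = p} => cntMap A p.1) := by
    intro p q hpq
    exact Subtype.ext (cnt_inj p.2 q.2 hpq)
  refine (Cardinal.mk_le_of_injective e2).trans ?_
  simp only [Cardinal.mk_prod, Cardinal.lift_id]
  calc _ ≤ 𝔠 * 𝔠 := mul_le_mul' h2 h2
    _ = 𝔠 := Cardinal.continuum_mul_self

theorem cnt_fun {A : Set K} (hA : #A ≤ 𝔠) :
    #(ℕ → ℕ → Option {p : Coh K // res A p = p}) ≤ 𝔠 := by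
  have h1 : #(Option {p : Coh K // res A p = p}) ≤ 𝔠 := by
    rw [Cardinal.mk_option]
    calc #{p : Coh K // res A p = p} + 1 ≤ 𝔠 + 𝔠 := add_le_add (cnt_card hA) (by
          exact Cardinal.one_le_aleph0.trans Cardinal.aleph0_le_continuum)
      _ = 𝔠 := Cardinal.continuum_add_self
  have h2 : ∀ α : Type, #α ≤ 𝔠 → #(ℕ → α) ≤ 𝔠 := by
    intro α hα
    rw [← Cardinal.power_def, Cardinal.mk_nat]
    calc #α ^ ℵ₀ ≤ 𝔠 ^ ℵ₀ := Cardinal.power_le_power_right hα
      _ = 𝔠 := Cardinal.continuum_power_aleph0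
  exact h2 _ (h2 _ h1)

theorem cnt_countable {C : Set K} (hC : C.Countable) :
    Set.Countable {p : Coh K | res C p = p} := by
  classical
  have h1 : Countable C := hC.to_subtype
  have h2 : Countable {x : K × ℕ // x.1 ∈ C} := by
    have e1 : Function.Injective
        (fun x : {x : K × ℕ // x.1 ∈ C} => ((⟨x.1.1, x.2⟩ : C), x.1.2)) := by
      intro x y hxy
      obtain ⟨h1, h2⟩ := Prod.mk.inj hxy
      have h3 : x.1.1 = y.1.1 := congrArg Subtype.val h1
      exact Subtype.ext (Prod.ext h3 h2)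
    exact e1.countable
  have e2 : Set.InjOn (cntMap C) {p : Coh K | res C p = p} := by
    intro p hp q hq hpq
    exact cnt_inj hp hq hpq
  exact Set.MapsTo.countable_of_injOn (t := Set.univ) (fun _ _ => Set.mem_univ _) e2
    (Set.countable_univ)

theorem cnt_enum {A : Set K} {S : Set (Coh K)} (h : Reg A S) :
    ∃ f : ℕ → Option {p : Coh K // res A p = p},
      S = {q | ∃ n, ∃ p, f n = some p ∧ q ≤ p.1} := by
  classical
  obtain ⟨C0, hC0, hR0⟩ := cts h.opn h.rg
  obtain ⟨C, hCdef⟩ : ∃ C, C = A ∩ C0 := ⟨_, rfl⟩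
  have hR : Reg C S := by
    rw [hCdef]
    exact h.inter hR0
  have hC : C.Countable := by
    rw [hCdef]
    exact hC0.mono Set.inter_subset_right
  have hAC : A ∩ C = C := by
    rw [hCdef, ← Set.inter_assoc, Set.inter_self]
  have hresA : ∀ p : Coh K, res C p = p → res A p = p := by
    intro p hp
    have h1 := res_res A C p
    rw [hp, hAC, hp] at h1
    exact h1
  have hresC : ∀ p : Coh K, res C (res C p) = res C p := by
    intro p
    rw [res_res, Set.inter_self]
  have hT : Set.Countable {d : {p : Coh K // res A p = p} | res C d.1 = d.1 ∧ d.1 ∈ S} := by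
    have h1 : Set.Countable ((fun d : {p : Coh K // res A p = p} => d.1) ⁻¹'
        {p : Coh K | res C p = p}) :=
      (cnt_countable hC).preimage Subtype.val_injective
    exact h1.mono (fun d hd => hd.1)
  rcases Set.eq_empty_or_nonempty
    {d : {p : Coh K // res A p = p} | res C d.1 = d.1 ∧ d.1 ∈ S} with he | hne
  · refine ⟨fun _ => none, ?_⟩
    ext q
    constructor
    · intro hq
      exfalso
      have h1 : (⟨res C q, hresA _ (hresC q)⟩ : {p : Coh K // res A p = p}) ∈
          {d : {p : Coh K // res A p = p} | res C d.1 = d.1 ∧ d.1 ∈ S} :=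
        ⟨hresC q, hR.sup q hq⟩
      rw [he] at h1
      exact h1
    · rintro ⟨n, p, hp, _⟩
      cases hp
  · obtain ⟨g, hg⟩ := hT.exists_eq_range hne
    refine ⟨fun n => some (g n), ?_⟩
    ext q
    constructor
    · intro hq
      have h1 : (⟨res C q, hresA _ (hresC q)⟩ : {p : Coh K // res A p = p}) ∈
          {d : {p : Coh K // res A p = p} | res C d.1 = d.1 ∧ d.1 ∈ S} :=
        ⟨hresC q, hR.sup q hq⟩
      rw [hg] at h1
      obtain ⟨n, hn⟩ := h1
      refine ⟨n, g n, rfl, ?_⟩
      rw [hn]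
      exact res_le C q
    · rintro ⟨n, p, hp, hqp⟩
      have h2 : g n = p := Option.some.inj hp
      have h1 : g n ∈ {d : {p : Coh K // res A p = p} | res C d.1 = d.1 ∧ d.1 ∈ S} := by
        rw [hg]
        exact Set.mem_range_self n
      rw [h2] at h1
      exact h.opn p.1 h1.2 q hqp

theorem cnt {A : Set K} (hA : #A ≤ 𝔠) : #(Nam A) ≤ 𝔠 := by
  classical
  choose f hf using fun (B : Nam A) (m : ℕ) => cnt_enum (B.2 m)
  have hinj : Function.Injective f := by
    intro B B' h
    apply Subtype.ext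
    funext m
    rw [hf B m, hf B' m, h]
  exact (Cardinal.mk_le_of_injective hinj).trans (cnt_fun hA)

end Pool.Agent.COH
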