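import Pool.Agent.COH.Bd

set_option autoImplicit false
set_option linter.all false

/-!
# Cs1: closed and compact sets (difficulty 1)

PROOF. `cs_closed`: let `x ∈ X` be a limit of `Cs X B a` and `In B m x`. By `Spc.opn` there is `l` with
`Nb N x z l → In B m z`; take `z ∈ Cs X B a` with `Nb N x z l`. `cs_tr`: definition. `cc_sub`: for `Z` covering `K'` let
`Z' = un Z (sep omega (fun m => ∀ x, x ∈ K' → ¬ In B m x))`. It covers `K`: let `x ∈ K`; if `x ∈ K'` use `Z`; otherwise, as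
`K'` is closed, there is `k` with `¬ Nb N x y k` for all `y ∈ K'`, and `Spc.small` gives `m` with `In B m x` and
`In B m z → Nb N x z k`. Take `n` for `Z'`; it works for `Z`. `cc_sing`: one element of `Z` (`nat_bd` or `suc`).
-/

namespace Pool.Agent.COH

open Pool.Agent.H55.SC Pool.Agent.H55.ZFU

universe u

variable {M : Type u} [Model M] [Pure M] {X u N B : M}

theorem cs_closed (h : Spc X u N B) (a : M) : Cl X N (Cs X B a) := by
  refine ⟨fun x hx => (mem_Cs.1 hx).1, fun x hx hlim => mem_Cs.2 ⟨hx, fun m hm => ?_⟩⟩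
  obtain ⟨l, hl, hl'⟩ := h.opn m x hm
  obtain ⟨z, hz, hz'⟩ := hlim l hl
  exact (mem_Cs.1 hz).2 m (hl' z hz')

theorem cs_tr (h : Spc X u N B) {K : M} (hK : K ⊆ X) : K ⊆ Cs X B (tr B K) :=
  fun x hx => mem_Cs.2 ⟨hK x hx, fun m hm => mem_tr.2 ⟨(h.mem m x hm).1, x, hx, hm⟩⟩

theorem cs_mono {a b : M} (h : ∀ m : M, m ∈ a → m ∈ b) : Cs X B a ⊆ Cs X B b :=
  fun x hx => mem_Cs.2 ⟨(mem_Cs.1 hx).1, fun m hm => h m ((mem_Cs.1 hx).2 m hm)⟩

theorem cc_sub (h : Spc X u N B) {K K' : M} (hK : CC X B K) (hK' : Cl X N K') (hs : K' ⊆ K) : CC X B K' := by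
  refine ⟨fun x hx => hK.1 x (hs x hx), fun Z hZ => ?_⟩
  obtain ⟨n, hn, h'⟩ := hK.2 (un Z (sep omega (fun m : M => ∀ x : M, x ∈ K' → ¬ In B m x))) (by
    intro x hx
    by_cases hx' : x ∈ K'
    · obtain ⟨m, hm, hm'⟩ := hZ x hx'
      exact ⟨m, mem_un.2 (Or.inl hm), hm'⟩
    · have h1 : ¬ ∀ k : M, k ∈ (omega : M) → ∃ y : M, y ∈ K' ∧ Nb N x y k :=
        fun hc => hx' (hK'.2 x (hK.1 x hx) hc)
      push Not at h1
      obtain ⟨k, hk, hk'⟩ := h1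
      obtain ⟨m, hm, hm'⟩ := h.small x k (hK.1 x hx) hk
      exact ⟨m, mem_un.2 (Or.inr (mem_sep.2 ⟨(h.mem m x hm).1, fun y hy hc => hk' y hy (hm' y hc)⟩)), hm⟩)
  refine ⟨n, hn, fun x hx => ?_⟩
  obtain ⟨m, hm, hmn, hm'⟩ := h' x (hs x hx)
  rcases mem_un.1 hm with h1 | h1
  · exact ⟨m, h1, hmn, hm'⟩
  · exact absurd hm' ((mem_sep.1 h1).2 x hx)

theorem cc_empty : CC X B (∅ : M) :=
  ⟨fun x hx => absurd hx (not_mem_empty x),
    fun _ _ => ⟨∅, empty_mem_omega, fun x hx => absurd hx (not_mem_empty x)⟩⟩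

theorem cc_sing (h : Spc X u N B) {x : M} (hx : x ∈ X) : CC X B (sing x) := by
  refine ⟨fun y hy => ?_, fun Z hZ => ?_⟩
  · rw [mem_sing] at hy
    rw [hy]; exact hx
  · obtain ⟨m, hm, hm'⟩ := hZ x (mem_sing.2 rfl)
    refine ⟨suc m, suc_mem_omega (h.mem m x hm').1, fun y hy => ⟨m, hm, mem_suc.2 (Or.inr rfl), ?_⟩⟩
    rw [mem_sing] at hy
    rw [hy]; exact hm'

end Pool.Agent.COH
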