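import Pool.Agent.COH.Cs1

set_option autoImplicit false
set_option linter.all false

/-!
# CsT: compact sets are closed (difficulty 2)

PROOF. Suppose `y ∈ Cs X B (tr B K)` and `y ∉ K`. Let `Z = sep omega (fun m => ∃ t, t ∈ omega ∧ ∀ z, In B m z → ¬ Nb N y z t)`.
`Z` covers `K`: let `x ∈ K`; `x ≠ y`, so by `UPol.sep` there is `k ∈ omega` with `¬ Nb N x y k`; `Spc.small` with `suc k`
gives `m`; `t = suc k` works by `UPol.comp`, `UPol.symm`. Take `n` from `CC`. By `bd_nat` applied to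
`P m t = (m ∈ Z → ∀ z, In B m z → ¬ Nb N y z t)` (monotone by `UPol.mono`) there is one `t` for all `m ∈ n`. So
`¬ Nb N y x t` for all `x ∈ K`. By `Spc.small` there is `m` with `In B m y` and `In B m z → Nb N y z t`. As
`y ∈ Cs X B (tr B K)`, `m ∈ tr B K`, so some `x ∈ K` has `In B m x`, a contradiction.
-/

namespace Pool.Agent.COH

open Pool.Agent.H55.SC Pool.Agent.H55.ZFU

universe u

variable {M : Type u} [Model M] [Pure M] {X u N B : M}

theorem cs_tr_of_cc (h : Spc X u N B) {K : M} (hK : CC X B K) {x : M} (hx : x ∈ Cs X B (tr B K)) : x ∈ K := by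
  by_contra hxK
  rw [mem_Cs] at hx
  obtain ⟨hxX, hx⟩ := hx
  have hZ : ∀ m : M, m ∈ sep omega (fun m => ∃ t : M, t ∈ (omega : M) ∧ ∀ z : M, In B m z → ¬ Nb N x z t) ↔
      m ∈ (omega : M) ∧ ∃ t : M, t ∈ (omega : M) ∧ ∀ z : M, In B m z → ¬ Nb N x z t := by
    intro m
    rw [mem_sep]
  set Z : M := sep omega (fun m => ∃ t : M, t ∈ (omega : M) ∧ ∀ z : M, In B m z → ¬ Nb N x z t) with hZd
  obtain ⟨n, hn, hcov⟩ := hK.2 Z (by
    intro y hy
    have hyX := hK.1 y hy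
    have hne : ¬ ∀ k : M, k ∈ (omega : M) → Nb N y x k := by
      intro hall
      exact hxK ((h.pol.sep y x hyX hxX hall) ▸ hy)
    push Not at hne
    obtain ⟨k, hk, hkn⟩ := hne
    obtain ⟨m, hm, hm2⟩ := h.small y (suc k) hyX (suc_mem_omega hk)
    refine ⟨m, (hZ m).2 ⟨(h.mem m y hm).1, suc k, suc_mem_omega hk, ?_⟩, hm⟩
    intro z hz hN
    exact hkn (h.pol.comp y z x k hk (hm2 z hz) (h.pol.symm _ _ _ hN)))
  obtain ⟨t, ht, hb⟩ := bd_nat (fun m t : M => m ∈ Z → ∀ z : M, In B m z → ¬ Nb N x z t)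
    (by
      intro a l l' hl' hle hP ha z hz hN
      exact hP ha z hz (h.pol.mono hl' hle hN)) n hn (by
      intro a ha
      by_cases haZ : a ∈ Z
      · obtain ⟨_, t, ht, h2⟩ := (hZ a).1 haZ
        exact ⟨t, ht, fun _ => h2⟩
      · exact ⟨∅, empty_mem_omega, fun h => absurd h haZ⟩)
  obtain ⟨m, hm, hm2⟩ := h.small x t hxX ht
  obtain ⟨_, y, hyK, hy⟩ := mem_tr.1 (hx m hm)
  obtain ⟨m', hm'Z, hm'n, hm'y⟩ := hcov y hyK
  exact hb m' hm'n hm'Z y hm'y (hm2 y hy)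

/-- The closed set coded by the trace of a compact set is this set. -/
theorem cs_tr_eq (h : Spc X u N B) {K : M} (hK : CC X B K) : Cs X B (tr B K) = K := by
  refine ext fun x => ⟨fun hx => cs_tr_of_cc h hK hx, fun hx => cs_tr h hK.1 x hx⟩

end Pool.Agent.COH
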