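import Pool.Agent.COH.Res

set_option autoImplicit false

/-!
# Cts: regular open sets have countable supports (difficulty 3)

PROOF. By Zorn (`zorn_subset` or `exists_maximal...`) take a maximal set `X ⊆ S` of pairwise incompatible conditions
(`x ≠ y → ¬ ∃ c, c ≤ x ∧ c ≤ y`). `X` is countable: otherwise there is an injective `f : W1 → X` (`W1 = KK ℵ₁`, its
cardinality is `ℵ₁`, `Pool.Agent.H12.Thread.mk_KK`), and `coh_ccc` gives `i < j` and `c ≤ f i, f j`, a contradiction. Let `A`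
be the set of all first coordinates of elements of `x.pos ∪ x.neg`, `x ∈ X`; it is countable, and `res A x = x` for
`x ∈ X`. Claim: `p ∈ S → res A p ∈ S`. As `rg S = S` it is enough that below every `q ≤ res A p` there is an element of
`S`. Let `c = mix A q p`. By `mix_le_right`, `c ≤ p`, so `c ∈ S`. By maximality `c` is compatible with some `x ∈ X`
(otherwise `X ∪ {c}` is larger; if `c ∈ X` take `x = c`): `d ≤ c`, `d ≤ x`. Then `e = mix A d q` satisfies `e ≤ q` because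
`d ≤ c ≤ res A q`, and `e ≤ res A d ≤ res A x = x ∈ S` (`mix_le_res`, `res_mono`), so `e ∈ S`.
-/

namespace Pool.Agent.COH

open Pool.Agent.TPM Cardinal Set

variable {K : Type}

theorem cts_max (S : Set (Coh K)) : ∃ X : Set (Coh K), X.Countable ∧ X ⊆ S ∧
    ∀ c ∈ S, ∃ x ∈ X, ∃ d, d ≤ c ∧ d ≤ x := by
  obtain ⟨X, hX⟩ := zorn_subset
    {X : Set (Coh K) | X ⊆ S ∧ X.Pairwise (fun x y => ¬ ∃ c, c ≤ x ∧ c ≤ y)} (by
    intro c hc hch
    refine ⟨⋃₀ c, ⟨Set.sUnion_subset fun s hs => (hc hs).1, ?_⟩,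
      fun s hs => Set.subset_sUnion_of_mem hs⟩
    rw [Set.pairwise_sUnion hch.directedOn]
    exact fun s hs => (hc hs).2)
  obtain ⟨hX1, hX2⟩ := hX.prop
  refine ⟨X, ?_, hX1, ?_⟩
  · by_contra hno
    have h1 : ¬ #X ≤ ℵ₀ := fun h => hno ((Cardinal.le_aleph0_iff_set_countable).1 h)
    have h2 : #W1 ≤ #X := by
      rw [show #W1 = ℵ₁ from Pool.Agent.H12.Thread.mk_KK, ← Cardinal.succ_aleph0]
      exact Order.succ_le_of_lt (not_le.1 h1)
    obtain ⟨f⟩ := Cardinal.le_def _ _ |>.1 h2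
    obtain ⟨i, j, hij, c, hc1, hc2⟩ := coh_ccc (fun w => ((f w : X) : Coh K))
    refine hX2 (f i).2 (f j).2 ?_ ⟨c, hc1, hc2⟩
    intro h
    exact hij.ne (f.injective (Subtype.ext h))
  · intro c hc
    by_contra hno
    have hins : insert c X ⊆ X := by
      refine hX.2 ⟨Set.insert_subset hc hX1, ?_⟩ (Set.subset_insert _ _)
      refine hX2.insert fun x hx _ => ⟨fun h => ?_, fun h => ?_⟩
      · obtain ⟨d, h3, h4⟩ := h
        exact hno ⟨x, hx, d, h3, h4⟩
      · obtain ⟨d, h3, h4⟩ := h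
        exact hno ⟨x, hx, d, h4, h3⟩
    exact hno ⟨c, hins (Set.mem_insert _ _), c, le_refl _, le_refl _⟩

theorem cts {S : Set (Coh K)} (h1 : Opn S) (h2 : rg S = S) : ∃ A : Set K, A.Countable ∧ Reg A S := by
  classical
  obtain ⟨X, hXc, hXS, hXm⟩ := cts_max S
  let A : Set K := ⋃ x ∈ X, Prod.fst '' ((x.pos ∪ x.neg : Finset (K × ℕ)) : Set (K × ℕ))
  have hA : ∀ x ∈ X, res A x ≤ x := by
    intro x hx
    refine ⟨fun y hy => ?_, fun y hy => ?_⟩
    · show y ∈ x.pos.filter (fun x => x.1 ∈ A)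
      rw [Finset.mem_filter]
      exact ⟨hy, Set.mem_biUnion hx ⟨y, Finset.mem_coe.2 (Finset.mem_union_left _ hy), rfl⟩⟩
    · show y ∈ x.neg.filter (fun x => x.1 ∈ A)
      rw [Finset.mem_filter]
      exact ⟨hy, Set.mem_biUnion hx ⟨y, Finset.mem_coe.2 (Finset.mem_union_right _ hy), rfl⟩⟩
  refine ⟨A, hXc.biUnion fun x _ => ((Finset.finite_toSet _).countable.image _), h1, h2, ?_⟩
  intro p hp
  rw [← h2]
  intro q hq
  have hc : mix A q p ≤ p := mix_le_right hq
  obtain ⟨x, hx, d, hd1, hd2⟩ := hXm _ (h1 p hp _ hc)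
  refine ⟨mix A d q, mix_le_right (hd1.trans (mix_le_res A q p)), ?_⟩
  exact h1 x (hXS hx) _ (((mix_le_res A d q).trans (res_mono A hd2)).trans (hA x hx))

end Pool.Agent.COH
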