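import Pool.Agent.COH.Base

set_option autoImplicit false
set_option linter.all false

/-!
# Dr2: small boxes far from a closed set (difficulty 2)

PROOF. `x ∉ sl X L i n` (`mem_sl`; `x ∈ X` by `Spc.mem`), so by `Cl` there is `t ∈ omega` with `¬ Nb N x z t` for all
`z ∈ sl X L i n`. By `Spc.opn` there is `l1` with `Nb N x z l1 → In B (app p1 w) z`. Take `k0 ∈ omega` with
`l1, suc t, suc n ∈ k0` (`nat_bd3`) and `m'` from `Spc.small` for `x`, `k0`. Take `k' ∈ omega` with `n, app p2 (app p2 w) ∈ k'`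
(`nat_bd`) and `a'` from `Cod.g_spec` for `y`, `k'`. Let `w' = app pr (opair m' (app pr (opair a' k')))`; so
`app p1 w' = m'`, `app p1 (app p2 w') = a'`, `app p2 (app p2 w') = k'` (`m' ∈ omega` by `Spc.mem`). `Bx w' x y`: by
construction. Inclusion: for `Bx w' x1 y1` we have `Nb N x x1 k0`, so `Nb N x x1 l1` (`UPol.mono`) and
`In B (app p1 w) x1`; for `i' ∈ app p2 (app p2 w)`, `i' ∈ k'` (`nat_trans`), so `app y1 i' = app g (opair a' i') = app y i'`.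
`Far` with `suc t`: if `Bx w' x1 y1`, `opair (opair i n) z ∈ L` and `Nb N x1 z (suc t)` then `Nb N x z t` by `UPol.comp`
(`z ∈ X` by `UPol.mem`). `Fine`: `UPol.comp`, `UPol.symm`, `UPol.mono` and `nat_trans`.
-/

namespace Pool.Agent.COH

open Pool.Agent.H55.SC Pool.Agent.H55.ZFU

universe u

variable {M : Type u} [Model M]

/-- The box `w` has a positive distance from the slice of `L` given by `i`, `n`. -/
def Far (N B g p1 p2 L i n w : M) : Prop := ∃ t : M, t ∈ (omega : M) ∧ ∀ x y z : M, Bx B g p1 p2 w x y →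
  opair (opair i n) z ∈ L → ¬ Nb N x z t

/-- The box `w` has a diameter of at most `2 ^ (- n)`. -/
def Fine (N B g p1 p2 n w : M) : Prop := ∀ x y x' y' : M, Bx B g p1 p2 w x y → Bx B g p1 p2 w x' y' →
  Nb N x x' n ∧ ∀ i : M, i ∈ n → app y i = app y' i

variable [Pure M] {X u N B g pr p1 p2 : M}

theorem dr2 (h : Spc X u N B) (hc : Cod g pr p1 p2) {L i n w x y : M} (hn : n ∈ (omega : M))
    (hw : w ∈ (omega : M)) (hL : Cl X N (sl X L i n)) (hy : y ∈ funs (omega : M) omega)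
    (hb : Bx B g p1 p2 w x y) (hx : opair (opair i n) x ∉ L) :
    ∃ w' : M, w' ∈ (omega : M) ∧ Bx B g p1 p2 w' x y ∧
      (∀ x1 y1 : M, Bx B g p1 p2 w' x1 y1 → Bx B g p1 p2 w x1 y1) ∧ Far N B g p1 p2 L i n w' ∧
        Fine N B g p1 p2 n w' := by
  have hxX : x ∈ X := (h.mem _ _ hb.1).2
  have hxs : x ∉ sl X L i n := fun hh => hx (mem_sl.1 hh).2
  obtain ⟨t, ht, hfar⟩ : ∃ t : M, t ∈ (omega : M) ∧ ∀ z : M, z ∈ sl X L i n → ¬ Nb N x z t := by
    by_contra hcon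
    push Not at hcon
    exact hxs (hL.2 x hxX (fun k hk => hcon k hk))
  obtain ⟨l1, hl1, hball⟩ := h.opn _ _ hb.1
  obtain ⟨k0, hk0, e1, e2, e3⟩ := nat_bd3 hl1 (suc_mem_omega ht) (suc_mem_omega hn)
  obtain ⟨m', hm', hsm⟩ := h.small x k0 hxX hk0
  have hm'o : m' ∈ (omega : M) := (h.mem _ _ hm').1
  obtain ⟨k', hk', f1, f2⟩ := nat_bd hn (hc.p2_mem _ (hc.p2_mem w hw))
  obtain ⟨a', ha', hga⟩ := hc.g_spec y k' hy hk'
  have hq : app pr (opair a' k') ∈ (omega : M) := hc.pr_mem a' k' ha' hk'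
  obtain ⟨w', hw'⟩ : ∃ w', w' = app pr (opair m' (app pr (opair a' k'))) := ⟨_, rfl⟩
  have c1 : app p1 w' = m' := by rw [hw']; exact hc.p1_pr _ _ hm'o hq
  have c2 : app p2 w' = app pr (opair a' k') := by rw [hw']; exact hc.p2_pr _ _ hm'o hq
  have c3 : app p1 (app p2 w') = a' := by rw [c2]; exact hc.p1_pr _ _ ha' hk'
  have c4 : app p2 (app p2 w') = k' := by rw [c2]; exact hc.p2_pr _ _ ha' hk'
  have hw'o : w' ∈ (omega : M) := by rw [hw']; exact hc.pr_mem _ _ hm'o hq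
  have hBx : ∀ x1 y1 : M, Bx B g p1 p2 w' x1 y1 → Nb N x x1 k0 ∧
      ∀ j : M, j ∈ k' → app y1 j = app g (opair a' j) := by
    intro x1 y1 hb1
    obtain ⟨g1, g2⟩ := hb1
    rw [c1] at g1
    rw [c4, c3] at g2
    exact ⟨hsm x1 g1, g2⟩
  refine ⟨w', hw'o, ⟨?_, ?_⟩, ?_, ?_, ?_⟩
  · rw [c1]
    exact hm'
  · rw [c4, c3]
    exact fun j hj => (hga j hj).symm
  · intro x1 y1 hb1
    obtain ⟨g1, g2⟩ := hBx x1 y1 hb1
    refine ⟨hball x1 (h.pol.mono hk0 (Le.of_mem e1) g1), fun j hj => ?_⟩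
    have hj' : j ∈ k' := nat_trans hk' _ f2 j hj
    rw [g2 j hj', hga j hj']
    exact hb.2 j hj
  · refine ⟨suc t, suc_mem_omega ht, ?_⟩
    intro x1 y1 z hb1 hz hnb
    obtain ⟨g1, g2⟩ := hBx x1 y1 hb1
    have g3 : Nb N x x1 (suc t) := h.pol.mono hk0 (Le.of_mem e2) g1
    have g4 : Nb N x z t := h.pol.comp x x1 z t ht g3 hnb
    exact hfar z (mem_sl.2 ⟨(h.pol.mem _ _ _ g4).2, hz⟩) g4
  · intro x1 y1 x2 y2 hb1 hb2
    obtain ⟨g1, g2⟩ := hBx x1 y1 hb1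
    obtain ⟨g3, g4⟩ := hBx x2 y2 hb2
    have g5 : Nb N x x1 (suc n) := h.pol.mono hk0 (Le.of_mem e3) g1
    have g6 : Nb N x x2 (suc n) := h.pol.mono hk0 (Le.of_mem e3) g3
    refine ⟨h.pol.comp x1 x x2 n hn (h.pol.symm _ _ _ g5) g6, fun j hj => ?_⟩
    have hj' : j ∈ k' := nat_trans hk' _ f1 j hj
    rw [g2 j hj', g4 j hj']

end Pool.Agent.COH
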