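import Pool.Agent.COH.Phi

set_option autoImplicit false
set_option linter.all false

/-!
# Fam: the family of compact sets (difficulty 2)

PROOF. Let `Q S T U` be the conjunction of the three statements of `phi` about `U` (definable: instances for `CC`, `Cs`,
`row`, `Gd` exist). Let `P = pow (prod omega omega)` and let `θ`, `f` be given by `wellorder P`. Let
`Φ = lam (prod P P) (fun p => pick θ f (fun U => Q (fst p) (snd p) U))`; so `Q S T (app Φ (opair S T))` for all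
`S, T ⊆ prod omega omega` (`mem_pow'`). Let `A` be given by `hF Φ`. Let
`L = sep (prod (prod i0 omega) X) (fun p => Gd X B H (row (app A (fst (fst p))) (snd (fst p))) ∧
  snd p ∈ Cs X B (row (app A (fst (fst p))) (snd (fst p))))`.
`sl X L i n` is `Cs X B (row (app A i) n)` if `Gd ..` holds and empty otherwise (`ext`), so it is `CC` (`cc_empty`); it is
included in `H` by `Gd`. Third claim: let `y ∈ Y`, `b = sep omega (fun m => In B m y)`, and let `i ∈ i0` be given by the last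
property of `A`. Let `j ∈ i0` be such that `app A j = app Φ (opair (app A i) (app A i))`. The first property of `phi` gives
`l ∈ omega` with `opair l m ∈ app A j` for all `m ∈ b`, so there is `n ∈ omega` with `b ⊆ row (app A i) n ⊆ row (app A j) l`.
So `Cs X B (row (app A i) n) ⊆ Y ⊆ H`, and it is `CC` because it is a closed subset (`cs_mono`, `cs_closed`, `cc_sub`) of
`Cs X B (row (app A j) l)`, which is `CC`. And `y ∈ Cs X B (row (app A i) n)`. Fourth claim: `x`, `y` give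
`Gd ..` for `row (app A i) n` and `row (app A j) m`; use `l ∈ i0` with `app A l = app Φ (opair (app A i) (app A j))`.
-/

namespace Pool.Agent.COH

open Pool.Agent.H55.SC Pool.Agent.H55.ZFU

universe u

variable {M : Type u} [Model M] [Pure M] [Choice M] {X u N B g pr p1 p2 dv : M}

/-- the conjunction of the statements of `phi` about `U` -/
def fam_Q (X B Y H dv S T U : M) : Prop := U ⊆ prod (omega : M) omega ∧
      (∀ y : M, y ∈ Y → ∃ n : M, n ∈ (omega : M) ∧ (∀ m : M, In B m y → opair n m ∈ U) ∧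
        CC X B (Cs X B (row U n)) ∧
        ∀ k : M, k ∈ (omega : M) → (∀ m : M, m ∈ (omega : M) → opair k m ∈ S → opair n m ∈ U) →
          Cs X B (row S k) ⊆ Y) ∧
      ∀ k l : M, k ∈ (omega : M) → l ∈ (omega : M) → Gd X B H (row S k) → Gd X B H (row T l) →
        ∃ n : M, n ∈ (omega : M) ∧ Gd X B H (row U n) ∧
          ∀ x y : M, x ∈ Cs X B (row S k) → y ∈ Cs X B (row T l) → app dv (opair x y) ∈ Cs X B (row U n)

set_option synthInstance.maxSize 2000 in
theorem fam_Q_dfn (X B Y H dv : M) : Dfn (fun v : Fin 3 → M => fam_Q X B Y H dv (v 0) (v 1) (v 2)) := by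
  unfold fam_Q; infer_instance

theorem fam (h : Spc X u N B) (hc : Cod g pr p1 p2) (hd : Dv X N dv) {i0 : M} (hF : Frz i0) {Y H : M}
    (hYH : Y ⊆ H) (hHX : H ⊆ X) (hb : HB B Y) (hH : ∀ x y : M, x ∈ H → y ∈ H → app dv (opair x y) ∈ H) :
    ∃ L : M, (∀ i n : M, i ∈ i0 → n ∈ (omega : M) → CC X B (sl X L i n)) ∧
      (∀ i n x : M, opair (opair i n) x ∈ L → x ∈ H) ∧
      (∀ y : M, y ∈ Y → ∃ i n : M, i ∈ i0 ∧ n ∈ (omega : M) ∧ opair (opair i n) y ∈ L) ∧
      ∀ i j n m x y : M, i ∈ i0 → j ∈ i0 → n ∈ (omega : M) → m ∈ (omega : M) → opair (opair i n) x ∈ L →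
        opair (opair j m) y ∈ L →
        ∃ l k : M, l ∈ i0 ∧ k ∈ (omega : M) ∧ opair (opair l k) (app dv (opair x y)) ∈ L := by
  have hYX : Y ⊆ X := fun y hy => hHX y (hYH y hy)
  have iQ : ∀ {ι : Type} (s t r : (ι → M) → M) [DFun s] [DFun t] [DFun r],
      Dfn (fun v => fam_Q X B Y H dv (s v) (t v) (r v)) :=
    fun s t r _ _ _ => Dfn.comp3 (fam_Q_dfn X B Y H dv) s t r
  obtain ⟨θ, f, hθ, -, -, -, hf⟩ := wellorder (pow (prod (omega : M) omega))
  obtain ⟨Φ, hΦ⟩ : ∃ Φ : M, Φ = lam (prod (pow (prod (omega : M) omega)) (pow (prod (omega : M) omega)))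
      (fun p => pick θ f (fun U => fam_Q X B Y H dv (fst p) (snd p) U)) := ⟨_, rfl⟩
  have hQ : ∀ S T : M, S ⊆ prod (omega : M) omega → T ⊆ prod (omega : M) omega →
      fam_Q X B Y H dv S T (app Φ (opair S T)) := by
    intro S T hS hT
    have hm : opair S T ∈ prod (pow (prod (omega : M) omega)) (pow (prod (omega : M) omega)) :=
      opair_mem_prod.2 ⟨mem_pow'.2 hS, mem_pow'.2 hT⟩
    rw [hΦ, app_lam hm, fst_opair, snd_opair]
    have iP : Dfn1 (fun U : M => fam_Q X B Y H dv S T U) := iQ (fun _ => S) (fun _ => T) (fun v => v 0)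
    refine pick_spec hθ (f := f) (fun U => fam_Q X B Y H dv S T U) ?_
    obtain ⟨U, hU, h1, h2⟩ := phi h hc hd hYX hb hH S T
    obtain ⟨i, hi, hie⟩ := hf U (mem_pow'.2 hU)
    exact ⟨i, hi, by rw [hie]; exact ⟨hU, h1, h2⟩⟩
  obtain ⟨A, hA, hAm, hAc, hAb⟩ := hF Φ (fun S T hS hT => (hQ S T hS hT).1)
  obtain ⟨L, hL⟩ : ∃ L : M, L = sep (prod (prod i0 omega) X)
      (fun p => Gd X B H (row (app A (fst (fst p))) (snd (fst p))) ∧
        snd p ∈ Cs X B (row (app A (fst (fst p))) (snd (fst p)))) := ⟨_, rfl⟩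
  have hLm : ∀ i n x : M, opair (opair i n) x ∈ L ↔ ((i ∈ i0 ∧ n ∈ (omega : M)) ∧ x ∈ X) ∧
      Gd X B H (row (app A i) n) ∧ x ∈ Cs X B (row (app A i) n) := by
    intro i n x
    rw [hL, mem_sep, opair_mem_prod, opair_mem_prod, fst_opair, fst_opair, snd_opair, snd_opair]
  refine ⟨L, fun i n hi hn => ?_, fun i n x hx => ?_, fun y hy => ?_, fun i j n m x y hi hj hn hm hx hy => ?_⟩
  · by_cases hG : Gd X B H (row (app A i) n)
    · have he : sl X L i n = Cs X B (row (app A i) n) := by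
        refine ext (fun x => ?_)
        rw [mem_sl, hLm]
        constructor
        · rintro ⟨-, -, -, h3⟩; exact h3
        · intro h3
          have hxX := (mem_Cs.1 h3).1
          exact ⟨hxX, ⟨⟨hi, hn⟩, hxX⟩, hG, h3⟩
      rw [he]; exact hG.2
    · have he : sl X L i n = ∅ := by
        refine ext (fun x => ?_)
        rw [mem_sl, hLm]
        constructor
        · rintro ⟨-, -, h3, -⟩; exact (hG h3).elim
        · intro h3; exact (not_mem_empty x h3).elim
      rw [he]; exact cc_empty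
  · obtain ⟨-, hG, hx'⟩ := (hLm i n x).1 hx
    exact hG.1 x hx'
  · obtain ⟨b, hbd⟩ : ∃ b : M, b = sep omega (fun m => In B m y) := ⟨_, rfl⟩
    have hbm : ∀ m : M, m ∈ b ↔ m ∈ (omega : M) ∧ In B m y := by
      intro m; rw [hbd, mem_sep]
    obtain ⟨i, hi, hib⟩ := hAb b (fun m hm => ((hbm m).1 hm).1)
    obtain ⟨j, hj, hje⟩ := hAc i i hi hi
    have hQj := hQ (app A i) (app A i) (hAm i hi) (hAm i hi)
    rw [← hje] at hQj
    obtain ⟨-, hQ1, -⟩ := hQj
    obtain ⟨l, hl, hl1, hl2, hl3⟩ := hQ1 y hy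
    obtain ⟨n, hn, hn1, hn2⟩ := hib j l hj hl (fun m hm => hl1 m ((hbm m).1 hm).2)
    have hsub : Cs X B (row (app A i) n) ⊆ Y := hl3 n hn (fun m _ hm => hn2 m hm)
    have hCC : CC X B (Cs X B (row (app A i) n)) := by
      refine cc_sub h hl2 (cs_closed h _) (cs_mono (fun m hm => ?_))
      rw [mem_row] at hm ⊢
      exact ⟨hm.1, hn2 m hm.2⟩
    refine ⟨i, n, hi, hn, (hLm i n y).2 ⟨⟨⟨hi, hn⟩, hYX y hy⟩, ⟨fun z hz => hYH z (hsub z hz), hCC⟩, ?_⟩⟩
    rw [mem_Cs]
    refine ⟨hYX y hy, fun m hm => ?_⟩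
    have hmo := (h.mem m y hm).1
    exact mem_row.2 ⟨hmo, hn1 m ((hbm m).2 ⟨hmo, hm⟩)⟩
  · obtain ⟨-, hG1, hx'⟩ := (hLm i n x).1 hx
    obtain ⟨-, hG2, hy'⟩ := (hLm j m y).1 hy
    obtain ⟨l, hl, hle⟩ := hAc i j hi hj
    have hQl := hQ (app A i) (app A j) (hAm i hi) (hAm j hj)
    rw [← hle] at hQl
    obtain ⟨k, hk, hk1, hk2⟩ := hQl.2.2 n m hn hm hG1 hG2
    have h3 := hk2 x y hx' hy'
    exact ⟨l, k, hl, hk, (hLm l k _).2 ⟨⟨⟨hl, hk⟩, (mem_Cs.1 h3).1⟩, hk1, h3⟩⟩

end Pool.Agent.COH
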