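import Pool.Agent.COH.Cts

set_option autoImplicit false

/-!
# Fnd: countably many names between a set and all sets with names supported by `A` (difficulty 3)

PROOF. By `reg_rg`, `cts`, `Reg.mono` there is a countable `C` with `Reg C (rg (β m))` for all `m`. Let
`D = {r : Coh K | res (C \ A) r = r}`; it is countable (see the header of `Cnt`) and contains `res (C \ A) p` for all `p`
(`res_res`); let `e : ℕ → Coh K` be an enumeration of `D`. Define
`δ n m = rg {q | ∃ r', r' ≤ e n ∧ res (C \ A) r' = r' ∧ mix A q r' ∈ rg (β m)}`. The set in the braces is open (`mix_mono`)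
and contains `res A q` with `q` (`mix_res_left`), so `Reg A (δ n m)` by `sup_rg`.
Let `γ` have the support `A` and `Sb β γ p`. Choose `n` with `e n = res (C \ A) p`.
(1) `Sb β (δ n) p`: let `q ≤ p`, `q ∈ β m`. Take `r = q`: put `r' = res (C \ A) q ≤ e n`. `mix A q r' ≤ res C q`
(coordinates in `C` are in `A` or in `C \ A`) and `res C q ∈ rg (β m)`, so `mix A q r' ∈ rg (β m)`, and `q ∈ δ n m`.
(2) `Sb (δ n) γ p`: let `q ≤ p`, `q ∈ δ n m`. There are `q1 ≤ q` and `r' ≤ e n` with `res (C \ A) r' = r'` and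
`t = mix A q1 r' ∈ rg (β m)`. Let `c = mix (A ∪ C) t p`. `c ≤ p` (`mix_le_right`: `t ≤ res (A ∪ C) p` because
`q1 ≤ p` and `r' ≤ res (C \ A) p`) and `c ≤ res (A ∪ C) t = t`. So there is `c1 ≤ c` in `β m`, and by `Sb β γ p` there is
`s ≤ c1` in `γ m`. As `s ≤ t ≤ res A q1` (`mix_le_res`), `mix A s q1 ≤ q1 ≤ q` by `mix_le_right`, and `mix A s q1 ∈ γ m` by
`Reg.mix_mem`.
-/

namespace Pool.Agent.COH

open Pool.Agent.TPM Cardinal Set

variable {K : Type}

theorem fnd_cnt {B : Set K} (hB : B.Countable) : {r : Coh K | res B r = r}.Countable := by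
  classical
  have h1 : {t : Set (K × ℕ) | t.Finite ∧ t ⊆ B ×ˢ (univ : Set ℕ)}.Countable :=
    Set.countable_setOf_finite_subset (hB.prod Set.countable_univ)
  have h2 := h1.prod h1
  let f : Coh K → Set (K × ℕ) × Set (K × ℕ) := fun r => ((r.pos : Set (K × ℕ)), (r.neg : Set (K × ℕ)))
  have hf : Function.Injective f := by
    intro a b hab
    have h3 : (a.pos : Set (K × ℕ)) = b.pos := (Prod.mk.inj hab).1
    have h4 : (a.neg : Set (K × ℕ)) = b.neg := (Prod.mk.inj hab).2
    cases a
    cases b
    simp only at h3 h4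
    have h5 := Finset.coe_injective h3
    have h6 := Finset.coe_injective h4
    subst h5
    subst h6
    rfl
  refine (h2.preimage_of_injOn (f := f) hf.injOn).mono ?_
  intro r hr
  have hr' : res B r = r := hr
  refine ⟨⟨r.pos.finite_toSet, ?_⟩, ⟨r.neg.finite_toSet, ?_⟩⟩
  · intro x hx
    have h : x ∈ (res B r).pos := by rw [hr']; exact hx
    unfold res at h
    simp only [Finset.mem_filter] at h
    exact ⟨h.2, mem_univ _⟩
  · intro x hx
    have h : x ∈ (res B r).neg := by rw [hr']; exact hx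
    unfold res at h
    simp only [Finset.mem_filter] at h
    exact ⟨h.2, mem_univ _⟩

theorem fnd (A : Set K) {β : ℕ → Set (Coh K)} (hβ : ∀ m, Opn (β m)) :
    ∃ δ : ℕ → ℕ → Set (Coh K), (∀ n m, Reg A (δ n m)) ∧
      ∀ γ : ℕ → Set (Coh K), (∀ m, Reg A (γ m)) → ∀ p, Sb β γ p → ∃ n, Sb β (δ n) p ∧ Sb (δ n) γ p := by
  classical
  have hreg := fun m => reg_rg (hβ m)
  choose s hsc hsr using fun m => cts (hreg m).1 (hreg m).2.1
  obtain ⟨C, hCdef⟩ : ∃ C : Set K, C = ⋃ m, s m := ⟨_, rfl⟩
  have hC : C.Countable := by rw [hCdef]; exact Set.countable_iUnion hsc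
  have hCr : ∀ m, Reg C (rg (β m)) := fun m => by
    rw [hCdef]; exact (hsr m).mono (Set.subset_iUnion s m)
  obtain ⟨B, hBdef⟩ : ∃ B : Set K, B = C \ A := ⟨_, rfl⟩
  have hB : B.Countable := by rw [hBdef]; exact hC.mono Set.sdiff_subset
  have hD := fnd_cnt hB
  have hDne : {r : Coh K | res B r = r}.Nonempty := by
    refine ⟨res B ⊤, ?_⟩
    have := res_res B B (⊤ : Coh K)
    rw [Set.inter_self] at this
    exact this
  obtain ⟨e, he⟩ := hD.exists_eq_range hDne
  let Sd : ℕ → ℕ → Set (Coh K) := fun n m =>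
    {q | ∃ r', r' ≤ e n ∧ res B r' = r' ∧ mix A q r' ∈ rg (β m)}
  have hSo : ∀ n m, Opn (Sd n m) := by
    rintro n m q ⟨r', h1, h2, h3⟩ q' hq'
    exact ⟨r', h1, h2, (hreg m).1 _ h3 _ (mix_mono hq' (le_refl r'))⟩
  refine ⟨fun n m => rg (Sd n m), fun n m => sup_rg (hSo n m) ?_, ?_⟩
  · rintro q ⟨r', h1, h2, h3⟩
    exact ⟨r', h1, h2, by rw [mix_res_left]; exact h3⟩
  intro γ hγ p hp
  have hpD : res B p ∈ {r : Coh K | res B r = r} := by
    have := res_res B B p
    rw [Set.inter_self] at this
    exact this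
  rw [he] at hpD
  obtain ⟨n, hn⟩ := hpD
  refine ⟨n, ?_, ?_⟩
  · intro m q hqp hq
    refine ⟨q, le_refl q, (reg_rg (hSo n m)).2.2 ?_⟩
    refine ⟨res B q, by rw [hn]; exact res_mono B hqp, ?_, ?_⟩
    · have := res_res B B q
      rw [Set.inter_self] at this
      exact this
    · have h1 : res C q ∈ rg (β m) := (hCr m).sup q ((hreg m).2.2 hq)
      refine (hreg m).1 _ h1 _ ⟨?_, ?_⟩
      · intro x hx
        unfold res at hx
        unfold mix res
        simp only [Finset.mem_filter, Finset.mem_union] at hx ⊢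
        by_cases hxA : x.1 ∈ A
        · exact Or.inl ⟨hx.1, hxA⟩
        · exact Or.inr ⟨⟨hx.1, by rw [hBdef]; exact ⟨hx.2, hxA⟩⟩, hxA⟩
      · intro x hx
        unfold res at hx
        unfold mix res
        simp only [Finset.mem_filter, Finset.mem_union] at hx ⊢
        by_cases hxA : x.1 ∈ A
        · exact Or.inl ⟨hx.1, hxA⟩
        · exact Or.inr ⟨⟨hx.1, by rw [hBdef]; exact ⟨hx.2, hxA⟩⟩, hxA⟩
  · intro m q hqp hq
    obtain ⟨q1, hq1, r', h1, h2, h3⟩ := hq q (le_refl q)
    obtain ⟨t, ht⟩ : ∃ t, t = mix A q1 r' := ⟨_, rfl⟩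
    rw [← ht] at h3
    have hr'B : ∀ x, (x ∈ r'.pos → x.1 ∈ B) ∧ (x ∈ r'.neg → x.1 ∈ B) := by
      intro x
      constructor
      · intro hx
        have h : x ∈ (res B r').pos := by rw [h2]; exact hx
        unfold res at h
        simp only [Finset.mem_filter] at h
        exact h.2
      · intro hx
        have h : x ∈ (res B r').neg := by rw [h2]; exact hx
        unfold res at h
        simp only [Finset.mem_filter] at h
        exact h.2
    have hr'p : r' ≤ res B p := by rw [← hn]; exact h1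
    have hq1p : q1 ≤ p := le_trans hq1 hqp
    have htp : t ≤ res (A ∪ C) p := by
      rw [ht]
      refine ⟨?_, ?_⟩
      · intro x hx
        unfold res at hx
        unfold mix
        simp only [Finset.mem_filter, Finset.mem_union] at hx ⊢
        by_cases hxA : x.1 ∈ A
        · exact Or.inl ⟨hq1p.1 hx.1, hxA⟩
        · refine Or.inr ⟨hr'p.1 ?_, hxA⟩
          unfold res
          simp only [Finset.mem_filter]
          refine ⟨hx.1, ?_⟩
          rw [hBdef]
          exact ⟨hx.2.resolve_left hxA, hxA⟩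
      · intro x hx
        unfold res at hx
        unfold mix
        simp only [Finset.mem_filter, Finset.mem_union] at hx ⊢
        by_cases hxA : x.1 ∈ A
        · exact Or.inl ⟨hq1p.2 hx.1, hxA⟩
        · refine Or.inr ⟨hr'p.2 ?_, hxA⟩
          unfold res
          simp only [Finset.mem_filter]
          refine ⟨hx.1, ?_⟩
          rw [hBdef]
          exact ⟨hx.2.resolve_left hxA, hxA⟩
    have hcp : mix (A ∪ C) t p ≤ p := mix_le_right htp
    have hct : mix (A ∪ C) t p ≤ t := by
      have hsub : ∀ x, (x ∈ t.pos → x.1 ∈ A ∪ C) ∧ (x ∈ t.neg → x.1 ∈ A ∪ C) := by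
        intro x
        rw [ht]
        unfold mix
        simp only [Finset.mem_filter, Finset.mem_union]
        constructor
        · rintro (h | h)
          · exact Or.inl h.2
          · have := (hr'B x).1 h.1
            rw [hBdef] at this
            exact Or.inr this.1
        · rintro (h | h)
          · exact Or.inl h.2
          · have := (hr'B x).2 h.1
            rw [hBdef] at this
            exact Or.inr this.1
      refine ⟨?_, ?_⟩
      · intro x hx
        have h4 := (hsub x).1 hx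
        unfold mix
        simp only [Finset.mem_filter, Finset.mem_union]
        exact Or.inl ⟨hx, h4⟩
      · intro x hx
        have h4 := (hsub x).2 hx
        unfold mix
        simp only [Finset.mem_filter, Finset.mem_union]
        exact Or.inl ⟨hx, h4⟩
    obtain ⟨c1, hc1, hc1β⟩ := h3 _ hct
    obtain ⟨u, hu, huγ⟩ := hp m c1 (le_trans hc1 hcp) hc1β
    have hut : u ≤ t := le_trans hu (le_trans hc1 hct)
    have huA : u ≤ res A q1 := le_trans hut (by rw [ht]; exact mix_le_res A q1 r')
    exact ⟨mix A u q1, le_trans (mix_le_right huA) hq1, (hγ m).mix_mem huγ q1⟩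

end Pool.Agent.COH
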