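import Pool.Agent.COH.Clo
import Pool.Agent.COH.Fnd

set_option autoImplicit false

/-!
# FzC: the combinatorial form of the first property (difficulty 2)

PROOF. Take `A` from `clo`. `Nam A` is not empty (`fun _ => ∅`) and `#(Nam A) ≤ 𝔠 = #(KK 𝔠)` by `cnt` and
`Pool.Agent.H12.Thread.mk_KK`, so there is a surjective function `α : KK 𝔠 → Nam A`; its values are the names. `opn` by
`Reg.opn`. `clo`: `F (α i) (α j) ∈ Nam A`, so it is `α l`. `frz`: take `δ` from `fnd A hβ`; the name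
`fun t => δ t.unpair.1 t.unpair.2` belongs to `Nam A`, so it is `α i`, and `rw (α i) n = δ n` (`Nat.unpair_pair`). Apply
the property of `δ` to `γ = rw (α j) l` (`rw_reg`).
-/

namespace Pool.Agent.COH

open Pool.Agent.TPM Cardinal Set
open Pool.Agent.H12.Thread (KK)

variable {K : Type}

theorem fzC (F : (ℕ → Set (Coh K)) → (ℕ → Set (Coh K)) → ℕ → Set (Coh K))
    (hF : ∀ B B' m, Opn (F B B' m) ∧ rg (F B B' m) = F B B' m) :
    ∃ α : KK 𝔠 → ℕ → Set (Coh K), FzV F α := by
  classical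
  obtain ⟨A, hA, hAF⟩ := clo F hF
  have hcard : #(Nam A) ≤ #(KK 𝔠) := by
    rw [Pool.Agent.H12.Thread.mk_KK]
    exact cnt hA
  have hne : Nonempty (Nam A) := by
    refine ⟨⟨fun _ => ∅, fun m => ⟨?_, ?_, ?_⟩⟩⟩
    · intro p hp; exact absurd hp (Set.notMem_empty p)
    · ext p
      constructor
      · intro hp
        obtain ⟨r, _, hr⟩ := hp p (le_refl p)
        exact absurd hr (Set.notMem_empty r)
      · intro hp; exact absurd hp (Set.notMem_empty p)
    · intro p hp; exact absurd hp (Set.notMem_empty p)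
  obtain ⟨g⟩ := Cardinal.le_def _ _ |>.1 hcard
  let f : KK 𝔠 → Nam A := Function.invFun g
  have hf : Function.Surjective f := Function.invFun_surjective g.injective
  refine ⟨fun i => (f i).1, ⟨fun i m => ((f i).2 m).opn, ?_, ?_⟩⟩
  · intro i j
    obtain ⟨l, hl⟩ := hf ⟨F (f i).1 (f j).1, hAF _ (f i).2 _ (f j).2⟩
    refine ⟨l, fun m => ?_⟩
    have : (f l).1 = F (f i).1 (f j).1 := by rw [hl]
    simp only [this]
  · intro β hβ
    obtain ⟨δ, hδ, hδ2⟩ := fnd A hβ
    obtain ⟨i, hi⟩ := hf ⟨fun t => δ t.unpair.1 t.unpair.2, fun t => hδ _ _⟩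
    refine ⟨i, fun j l p hp => ?_⟩
    obtain ⟨n, hn1, hn2⟩ := hδ2 (rw (f j).1 l) (rw_reg (f j).2 l) p hp
    have hrow : rw (f i).1 n = δ n := by
      rw [hi]
      funext m
      show δ (Nat.pair n m).unpair.1 (Nat.pair n m).unpair.2 = δ n m
      rw [Nat.unpair_pair]
    refine ⟨n, ?_, ?_⟩
    · rw [hrow]; exact hn1
    · rw [hrow]; exact hn2

end Pool.Agent.COH
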