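import Pool.Agent.COH.GSq
import Pool.Agent.COH.FzC

set_option autoImplicit false
set_option linter.all false

/-!
# FrM: the first property holds in the Cohen model (difficulty 3)

Write `Q = Coh K`, `I = KK 𝔠`.
PROOF. For `ψ : Fml (k + 3)` and `σ : Fin k → Nm Q` let
`FrF ψ σ B B' m = {p | frc ψ (Fin.append σ ![opN (ck Q m.unpair.1) (ck Q m.unpair.2), sqN B, sqN B']) p}`; these sets are
regular open by `frc_mono`, `frc_dense`, so `fzC` gives `α` with `FzV (FrF ψ σ) α`.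
Closure properties of `N` (patterns: `gok_club`, `cvOk_club`, `noHomog_club` in `Pool/Agent/TPM`; `diagT`, `diagN`, `diagNs`,
`club_all`, `club_inT`, `club_inN`): (c0) `SqOk N`; (c1) for all `k`, `ψ`, `σ` in `N` there is `α` with
`FzV (FrF ψ σ) α ∧ InT N α`; (c2) `GfOk N (fun _ : I → ℕ → Set Q => (Set.univ : Set I)) (fun α i => sqN (α i))`; (c3) `α, i ∈ N`
imply `α i ∈ N`, and `fun m => Dcd (α i m)` evaluated at `m` is in `N` for all `m`; (c4) for `k`, `ψ`, `σ`, `α`, `i`, `j` in `N`: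
if there is `l` with `∀ m, rg (α l m) = rg (FrF ψ σ (α i) (α j) m)` then there is such an `l` in `N`; (c5) for `α`, `β` in
`N`: if there is `i` as in `FzV.frz` then there is such an `i` in `N`; (c6) for `α`, `β`, `j` in `N` and `l : ℕ` the set
`{p | Sb β (rw (α j) l) p ∨ ∃ m, p ∈ β m ∧ ∀ r ≤ p, r ∉ rw (α j) l m}` is in `N` (it is dense).
Let `Φ` be given. The set `{v : Fin 3 → MM N G | v 0 ∈ app Φ (opair (v 1) (v 2))}` is definable (instances), `decode`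
(`Lav/ZFM.lean`) gives `ψ`, `σ`. Take `α` from (c1), and let `A` be the value of the name `gfN Set.univ (fun i => sqN (α i))`:
by `rel_gf`, `opair x z ∈ A` iff `x = cv G gI hi`, `z = vl G (..)` (the value of `sqN (α i)`) for some `i ∈ N`. So `FnOn A (cT G gI)`
(`mem_cT`, `cv_inj`), and the values are subsets of `prod omega omega` (`mem_sq`).
Closure under `Φ`: take `l` from (c4). Both sets are subsets of `prod omega omega`; a pair `(nv a, nv b)` belongs to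
`app A (cv l)` iff `Ht G (α l (Nat.pair a b))`, iff `Ht G (FrF ψ σ (α i) (α j) (Nat.pair a b))` (`→`: `α l m ⊆ rg (α l m)`, and
`FrF ..` is regular; `←`: `α l m` is dense below some `q ∈ G`, use `Dcd (α l m)` and `GenF.dir`), iff it belongs to
`app Φ (..)` by `decode` (`pair_vl`).
Last property: let `b ⊆ omega`; `β` from `sb_of`; `i` from (c5). Let `opair l m ∈ app A (cv j)` for all `m ∈ b`, `l = nv l'`. By (c6)
there is `p ∈ G` in the dense set; the second alternative is impossible (`p ∈ β m` gives `nv m ∈ b`, so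
`Ht G (α j (Nat.pair l' m))`, and a common extension contradicts it). So `Sb β (rw (α j) l') p`, which gives `n`. For
`m ∈ b`, `m = nv m'`, some `s ∈ G`, `s ≤ p` is in `β m'`, and `rw (α i) n m'` is dense below `s`, so `G` meets it (`Dcd`). In the
same way `Sb (rw (α i) n) (rw (α j) l') p` gives the inclusion of the rows.
-/

namespace Pool.Agent.COH

open FirstOrder FirstOrder.Language Pool.Agent.H55.SC Pool.Agent.H55.ZFU Pool.Agent.H55.Lav Pool.Agent.TPM Cardinal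
open Pool.Agent.H12.Thread (KK)

/-- The name of the value of the function with the formula `ψ`. -/
def FrM_F {K : Type} {k : ℕ} (ψ : Fml (k + 3)) (σ : Fin k → Nm (Coh K)) (B B' : ℕ → Set (Coh K)) (m : ℕ) :
    Set (Coh K) :=
  {p | frc ψ (Fin.append σ ![opN (ck (Coh K) m.unpair.1) (ck (Coh K) m.unpair.2), sqN B, sqN B']) p}

lemma FrM_reg {K : Type} {k : ℕ} (ψ : Fml (k + 3)) (σ : Fin k → Nm (Coh K)) (B B' : ℕ → Set (Coh K)) (m : ℕ) :
    Opn (FrM_F ψ σ B B' m) ∧ rg (FrM_F ψ σ B B' m) = FrM_F ψ σ B B' m := by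
  refine ⟨fun p hp q hq => frc_mono _ _ _ _ hp hq, ?_⟩
  ext p
  constructor
  · intro hp
    exact frc_dense _ _ _ hp
  · intro hp q hq
    exact ⟨q, le_rfl, frc_mono _ _ _ _ hp hq⟩

/-- The last property of `FzV` for `β` and `i`. -/
def FrM_P {K : Type} (α : KK 𝔠 → ℕ → Set (Coh K)) (β : ℕ → Set (Coh K)) (i : KK 𝔠) : Prop :=
  ∀ j l p, Sb β (rw (α j) l) p → ∃ n, Sb β (rw (α i) n) p ∧ Sb (rw (α i) n) (rw (α j) l) p

/-- The dense set used for the inclusion of `β` in a row. -/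
def FrM_D {K : Type} (α : KK 𝔠 → ℕ → Set (Coh K)) (β : ℕ → Set (Coh K)) (j : KK 𝔠) (l : ℕ) : Set (Coh K) :=
  {p | Sb β (rw (α j) l) p ∨ ∃ m, p ∈ β m ∧ ∀ r ≤ p, r ∉ rw (α j) l m}

lemma FrM_D_dense {K : Type} (α : KK 𝔠 → ℕ → Set (Coh K)) (β : ℕ → Set (Coh K)) (j : KK 𝔠) (l : ℕ) (p : Coh K) :
    ∃ q ∈ FrM_D α β j l, q ≤ p := by
  by_cases h : Sb β (rw (α j) l) p
  · exact ⟨p, Or.inl h, le_rfl⟩
  · unfold Sb at h
    push Not at h
    obtain ⟨m, q, hq, hqm, h1⟩ := h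
    exact ⟨q, Or.inr ⟨m, hqm, h1⟩, hq⟩

/-- Closure properties of `N`. -/
structure FrOk {K : Type} (N : Set (Un (Coh K))) : Prop where
  sq : SqOk N
  al : ∀ {k : ℕ} (ψ : Fml (k + 3)) (σ : Fin k → Nm (Coh K)), (∀ i, InN N (σ i)) →
    ∃ α : KK 𝔠 → ℕ → Set (Coh K), FzV (FrM_F ψ σ) α ∧ InT N α
  gf : GfOk N (fun _ : KK 𝔠 → ℕ → Set (Coh K) => (Set.univ : Set (KK 𝔠))) (fun α i => sqN (α i))
  ap : ∀ α : KK 𝔠 → ℕ → Set (Coh K), InT N α → ∀ i : KK 𝔠, InT N i → InT N (α i)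
  dc : ∀ α : KK 𝔠 → ℕ → Set (Coh K), InT N α → ∀ i : KK 𝔠, InT N i → ∀ m : ℕ, InT N (Dcd (α i m))
  cl : ∀ {k : ℕ} (ψ : Fml (k + 3)) (σ : Fin k → Nm (Coh K)), (∀ i, InN N (σ i)) →
    ∀ α : KK 𝔠 → ℕ → Set (Coh K), InT N α → ∀ i : KK 𝔠, InT N i → ∀ j : KK 𝔠, InT N j →
      (∃ l, ∀ m, rg (α l m) = rg (FrM_F ψ σ (α i) (α j) m)) →
        ∃ l, (∀ m, rg (α l m) = rg (FrM_F ψ σ (α i) (α j) m)) ∧ InT N l
  fz : ∀ α : KK 𝔠 → ℕ → Set (Coh K), InT N α → ∀ β : ℕ → Set (Coh K), InT N β →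
    (∃ i, FrM_P α β i) → ∃ i, FrM_P α β i ∧ InT N i
  ds : ∀ α : KK 𝔠 → ℕ → Set (Coh K), InT N α → ∀ β : ℕ → Set (Coh K), InT N β →
    ∀ j : KK 𝔠, InT N j → ∀ l : ℕ, InT N (FrM_D α β j l)

lemma FrM_wit {Q α : Type} (P : α → Prop) : ∀ᶠ N in club (Un Q), (∃ a, P a) → ∃ a, P a ∧ InT N a := by
  by_cases h : ∃ a, P a
  · obtain ⟨a, ha⟩ := h
    exact (club_inT a).mono (fun N hN _ => ⟨a, ha, hN⟩)
  · exact Filter.Eventually.of_forall (fun N h' => (h h').elim)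

lemma frOk_club (K : Type) : ∀ᶠ N in club (Un (Coh K)), FrOk N := by
  have h1 : ∀ᶠ N in club (Un (Coh K)), ∀ k : ℕ, ∀ ψ : Fml (k + 3), ∀ σ : Fin k → Nm (Coh K), (∀ i, InN N (σ i)) →
      ∃ α : KK 𝔠 → ℕ → Set (Coh K), FzV (FrM_F ψ σ) α ∧ InT N α := by
    refine club_all (fun k => club_all (fun ψ => diagNs (fun σ => ?_)))
    obtain ⟨α, hα⟩ := fzC (FrM_F ψ σ) (fun B B' m => FrM_reg ψ σ B B' m)
    exact (club_inT α).mono (fun N hN => ⟨α, hα, hN⟩)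
  have h3 : ∀ᶠ N in club (Un (Coh K)), ∀ α : KK 𝔠 → ℕ → Set (Coh K), InT N α → ∀ i : KK 𝔠, InT N i →
      InT N (α i) := diagT (fun α => diagT (fun i => club_inT _))
  have h4 : ∀ᶠ N in club (Un (Coh K)), ∀ α : KK 𝔠 → ℕ → Set (Coh K), InT N α → ∀ i : KK 𝔠, InT N i →
      ∀ m : ℕ, InT N (Dcd (α i m)) := diagT (fun α => diagT (fun i => club_all (fun m => club_inT _)))
  have h5 : ∀ᶠ N in club (Un (Coh K)), ∀ k : ℕ, ∀ ψ : Fml (k + 3), ∀ σ : Fin k → Nm (Coh K), (∀ i, InN N (σ i)) →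
      ∀ α : KK 𝔠 → ℕ → Set (Coh K), InT N α → ∀ i : KK 𝔠, InT N i → ∀ j : KK 𝔠, InT N j →
      (∃ l, ∀ m, rg (α l m) = rg (FrM_F ψ σ (α i) (α j) m)) →
        ∃ l, (∀ m, rg (α l m) = rg (FrM_F ψ σ (α i) (α j) m)) ∧ InT N l :=
    club_all (fun k => club_all (fun ψ => diagNs (fun σ => diagT (fun α => diagT (fun i => diagT (fun j => FrM_wit _))))))
  have h6 : ∀ᶠ N in club (Un (Coh K)), ∀ α : KK 𝔠 → ℕ → Set (Coh K), InT N α → ∀ β : ℕ → Set (Coh K), InT N β →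
      (∃ i, FrM_P α β i) → ∃ i, FrM_P α β i ∧ InT N i := diagT (fun α => diagT (fun β => FrM_wit _))
  have h7 : ∀ᶠ N in club (Un (Coh K)), ∀ α : KK 𝔠 → ℕ → Set (Coh K), InT N α → ∀ β : ℕ → Set (Coh K), InT N β →
      ∀ j : KK 𝔠, InT N j → ∀ l : ℕ, InT N (FrM_D α β j l) :=
    diagT (fun α => diagT (fun β => diagT (fun j => club_all (fun l => club_inT _))))
  filter_upwards [sqOk_club, h1, gfOk_club (fun _ : KK 𝔠 → ℕ → Set (Coh K) => (Set.univ : Set (KK 𝔠)))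
    (fun α i => sqN (α i)), h3, h4, h5, h6, h7] with N a0 a1 a2 a3 a4 a5 a6 a7
  exact ⟨a0, fun {k} ψ σ hσ => a1 k ψ σ hσ, a2, a3, a4, fun {k} ψ σ hσ => a5 k ψ σ hσ, a6, a7⟩

/-- Sets with the same regular hull are met at the same time. -/
lemma FrM_dens {K : Type} {N : Set (Un (Coh K))} {G : Set (Coh K)} (gen : GenF N G) {S : Set (Coh K)}
    (hd : InT N (Dcd S)) {q : Coh K} (hq : q ∈ G) (h : ∀ r ≤ q, ∃ s ≤ r, s ∈ S) : Ht G S := by
  obtain ⟨r, hr, h1⟩ := gen.gen _ hd (dcd_dense _)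
  rcases h1 with h1 | h1
  · exact ⟨r, hr, h1⟩
  · obtain ⟨t, _, ht1, ht2⟩ := gen.dir q hq r hr
    obtain ⟨s, hs, hsS⟩ := h t ht1
    exact (h1 s (hs.trans ht2) hsS).elim

theorem frM_club (K : Type) : ∀ᶠ N in club (Un (Coh K)), ∀ (bok : TPM.BOk N) (gI : TPM.GOk N (KK 𝔠))
    (G : Set (Coh K)) (gen : GenF N G), letI := mdl bok.ok bok.fok bok.zok gen; Frz (cT G gI : MM N G) := by
  filter_upwards [frOk_club K] with N ok
  intro bok gI G gen
  letI := mdl bok.ok bok.fok bok.zok gen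
  haveI : Pool.Agent.H55.ZFU.Pure (MM N G) := zPure (zf bok.ok bok.fok bok.zok gen)
  have htop := top_mem bok.ok gen
  have hmo : ∀ x : MM N G, x ∈ (omega : MM N G) ↔ ∃ n, x = nv G bok.zok n := fun x => mem_omega' bok gen x
  have hpair : ∀ {τ σ : Nm (Coh K)} (hτ : InN N τ) (hσ : InN N σ),
      opair (vl G hτ : MM N G) (vl G hσ) = vl G (inN_op bok.zok hτ hσ) := fun hτ hσ => pair_vl bok gen hτ hσ
  have hsq : ∀ {B : ℕ → Set (Coh K)} (hB : InT N B) (a b : ℕ),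
      opair (nv G bok.zok a : MM N G) (nv G bok.zok b) ∈ (vl G (ok.sq.nm B hB) : MM N G) ↔ Ht G (B (Nat.pair a b)) := by
    intro B hB a b
    refine (mem_sq bok ok.sq gen hB _).trans ?_
    constructor
    · rintro ⟨i, j, h1, h2⟩
      rw [opair_inj] at h1
      have e1 : a = i := nv_inj (zok := bok.zok) htop h1.1
      have e2 : b = j := nv_inj (zok := bok.zok) htop h1.2
      rw [e1, e2]; exact h2
    · intro h; exact ⟨a, b, rfl, h⟩
  intro Φ hΦ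
  have hS : Dfn (fun v : Fin 3 → MM N G => v 0 ∈ app Φ (opair (v 1) (v 2))) := inferInstance
  obtain ⟨k, ψ, σ, hσ, hdec⟩ := decode bok.ok bok.fok gen (k := 3) (S := {v | v 0 ∈ app Φ (opair (v 1) (v 2))}) hS.out
  obtain ⟨α, hFz, hα⟩ := ok.al ψ σ hσ
  have hαi : ∀ i : KK 𝔠, InT N i → InT N (α i) := fun i hi => ok.ap α hα i hi
  -- the value at `i`
  let V : ∀ i : KK 𝔠, InT N i → MM N G := fun i hi => vl G (ok.sq.nm (α i) (hαi i hi))
  have hV : ∀ i (hi : InT N i) a b, opair (nv G bok.zok a : MM N G) (nv G bok.zok b) ∈ V i hi ↔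
      Ht G (α i (Nat.pair a b)) := fun i hi a b => hsq (hαi i hi) a b
  have hVsub : ∀ i (hi : InT N i), V i hi ⊆ prod (omega : MM N G) omega := by
    intro i hi z hz
    obtain ⟨a, b, rfl, _⟩ := (mem_sq bok ok.sq gen (hαi i hi) z).mp hz
    exact opair_mem_prod.2 ⟨(hmo _).mpr ⟨a, rfl⟩, (hmo _).mpr ⟨b, rfl⟩⟩
  have hkey : ∀ i (hi : InT N i) j (hj : InT N j) a b,
      opair (nv G bok.zok a : MM N G) (nv G bok.zok b) ∈ app Φ (opair (V i hi) (V j hj)) ↔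
        Ht G (FrM_F ψ σ (α i) (α j) (Nat.pair a b)) := by
    intro i hi j hj a b
    have hv : ∀ t, InN N ((![opN (ck (Coh K) a) (ck (Coh K) b), sqN (α i), sqN (α j)] : Fin 3 → Nm (Coh K)) t) := by
      intro t
      fin_cases t
      · exact inN_op bok.zok (bok.zok.nat a) (bok.zok.nat b)
      · exact ok.sq.nm (α i) (hαi i hi)
      · exact ok.sq.nm (α j) (hαi j hj)
    have h1 := hdec _ hv
    have h2 : opair (nv G bok.zok a : MM N G) (nv G bok.zok b) = vl G (inN_op bok.zok (bok.zok.nat a) (bok.zok.nat b)) :=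
      hpair (bok.zok.nat a) (bok.zok.nat b)
    rw [h2]
    refine Iff.trans ?_ (h1.trans ?_)
    · exact Iff.rfl
    · unfold Ht FrM_F
      simp only [Nat.unpair_pair]
      exact Iff.rfl
  -- the function
  let A0 : MM N G := vl G (ok.gf.nm α hα)
  have hA0 : ∀ x z : MM N G, opair x z ∈ A0 ↔ ∃ i, ∃ hi : InT N i, x = cv G gI hi ∧ z = V i hi := by
    intro x z
    rw [← rel_iff]
    refine (rel_gf bok gen gI ok.gf hα).trans ?_
    constructor
    · rintro ⟨i, hi, _, h1, h2⟩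
      exact ⟨i, hi, h1, h2⟩
    · rintro ⟨i, hi, h1, h2⟩
      exact ⟨i, hi, trivial, h1, h2⟩
  have happ0 : ∀ i (hi : InT N i), app A0 (cv G gI hi) = V i hi := by
    intro i hi
    refine app_eq ⟨V i hi, (hA0 _ _).2 ⟨i, hi, rfl, rfl⟩, ?_⟩ ((hA0 _ _).2 ⟨i, hi, rfl, rfl⟩)
    intro z hz
    obtain ⟨i', hi', h1, h2⟩ := (hA0 _ _).1 hz
    have e : i = i' := cv_inj gI htop h1
    subst e
    exact h2
  have hmem : ∀ x : MM N G, x ∈ (cT G gI : MM N G) ↔ ∃ i : KK 𝔠, ∃ hi : InT N i, x = cv G gI hi := fun x =>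
    mem_cT gI htop
  have hcm : ∀ i (hi : InT N i), (cv G gI hi : MM N G) ∈ (cT G gI : MM N G) := fun i hi => (hmem _).2 ⟨i, hi, rfl⟩
  let A : MM N G := lam (cT G gI) (fun x => app A0 x)
  have happ : ∀ i (hi : InT N i), app A (cv G gI hi) = V i hi := by
    intro i hi
    show app (lam (cT G gI) (fun x => app A0 x)) (cv G gI hi) = V i hi
    rw [app_lam (hcm i hi), happ0]
  refine ⟨A, lam_fnOn _ _, ?_, ?_, ?_⟩
  · intro x hx
    obtain ⟨i, hi, rfl⟩ := (hmem x).1 hx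
    rw [happ]; exact hVsub i hi
  · intro x y hx hy
    obtain ⟨i, hi, rfl⟩ := (hmem x).1 hx
    obtain ⟨j, hj, rfl⟩ := (hmem y).1 hy
    obtain ⟨l, hl, hlN⟩ := ok.cl ψ σ hσ α hα i hi j hj (by
      obtain ⟨l, hl⟩ := hFz.clo i j
      exact ⟨l, hl⟩)
    refine ⟨cv G gI hlN, hcm l hlN, ?_⟩
    rw [happ, happ, happ]
    have hsubΦ := hΦ (V i hi) (V j hj) (hVsub i hi) (hVsub j hj)
    have key : ∀ a b, opair (nv G bok.zok a : MM N G) (nv G bok.zok b) ∈ V l hlN ↔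
        opair (nv G bok.zok a : MM N G) (nv G bok.zok b) ∈ app Φ (opair (V i hi) (V j hj)) := by
      intro a b
      rw [hV l hlN, hkey i hi j hj]
      have hr := FrM_reg ψ σ (α i) (α j) (Nat.pair a b)
      constructor
      · rintro ⟨q, hq, h1⟩
        refine ⟨q, hq, ?_⟩
        rw [← hr.2, ← hl (Nat.pair a b)]
        exact fun r hr' => ⟨r, le_rfl, hFz.opn l _ q h1 r hr'⟩
      · rintro ⟨q, hq, h1⟩
        rw [← hr.2, ← hl (Nat.pair a b)] at h1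
        exact FrM_dens gen (ok.dc α hα l hlN _) hq h1
    apply ext
    intro z
    constructor
    · intro hz
      obtain ⟨x, hx, y, hy, rfl⟩ := mem_prod.1 (hVsub l hlN z hz)
      obtain ⟨a, rfl⟩ := (hmo x).1 hx
      obtain ⟨b, rfl⟩ := (hmo y).1 hy
      exact (key a b).1 hz
    · intro hz
      obtain ⟨x, hx, y, hy, rfl⟩ := mem_prod.1 (hsubΦ z hz)
      obtain ⟨a, rfl⟩ := (hmo x).1 hx
      obtain ⟨b, rfl⟩ := (hmo y).1 hy
      exact (key a b).2 hz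
  · intro b hb
    obtain ⟨β, hβN, hβ, hbm⟩ := sb_of bok ok.sq gen b
    obtain ⟨i, hi, hiN⟩ := ok.fz α hα β hβN (hFz.frz β (fun m => (hβ m).1))
    refine ⟨cv G gI hiN, hcm i hiN, ?_⟩
    intro x l hx hl hsub
    obtain ⟨j, hj, rfl⟩ := (hmem x).1 hx
    obtain ⟨l, rfl⟩ := (hmo l).1 hl
    rw [happ j hj] at hsub
    obtain ⟨p, hp, hpD⟩ := gen.gen _ (ok.ds α hα β hβN j hj l) (FrM_D_dense α β j l)
    have hSb : Sb β (rw (α j) l) p := by
      rcases hpD with h1 | ⟨m, h1, h2⟩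
      · exact h1
      · exfalso
        have h3 : (nv G bok.zok m : MM N G) ∈ b := (hbm m).2 ⟨p, hp, h1⟩
        obtain ⟨r, hr, hr1⟩ := (hV j hj l m).1 (hsub _ h3)
        obtain ⟨s, _, hs1, hs2⟩ := gen.dir p hp r hr
        exact h2 s hs1 (hFz.opn j _ r hr1 s hs2)
    obtain ⟨n, h4, h5⟩ := hi j l p hSb
    refine ⟨nv G bok.zok n, (hmo _).2 ⟨n, rfl⟩, ?_, ?_⟩
    · intro m hm
      obtain ⟨m, rfl⟩ := (hmo m).1 (hb m hm)
      rw [happ i hiN, hV i hiN]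
      obtain ⟨q, hq, hqm⟩ := (hbm m).1 hm
      obtain ⟨s, hs, hs1, hs2⟩ := gen.dir p hp q hq
      refine FrM_dens gen (ok.dc α hα i hiN _) hs (fun r hr => ?_)
      exact h4 m r (hr.trans hs1) ((hβ m).1 q hqm r (hr.trans hs2))
    · intro m hm
      rw [happ i hiN] at hm
      rw [happ j hj]
      have hmω : m ∈ (omega : MM N G) := (opair_mem_prod.1 (hVsub i hiN _ hm)).2
      obtain ⟨m, rfl⟩ := (hmo m).1 hmω
      rw [hV i hiN] at hm
      rw [hV j hj]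
      obtain ⟨q, hq, hqm⟩ := hm
      obtain ⟨s, hs, hs1, hs2⟩ := gen.dir p hp q hq
      refine FrM_dens gen (ok.dc α hα j hj _) hs (fun r hr => ?_)
      exact h5 m r (hr.trans hs1) (hFz.opn i _ q hqm r (hr.trans hs2))

end Pool.Agent.COH
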