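import Pool.Agent.TPM.Ccc

set_option autoImplicit false

/-!
# Notions for the combinatorics of the Cohen conditions (squad COH)

`Coh K` (`Pool/Agent/TPM/Cnd.lean`) is the set of all finite partial functions from `K × ℕ` to `2` (`pos`, `neg`), where
`q ≤ p` iff `q` extends `p`. A name of a set of natural numbers is a function `β : ℕ → Set (Coh K)` with open values.
-/

namespace Pool.Agent.COH

open Pool.Agent.TPM Cardinal Set

section poset
variable {P : Type} [Preorder P]

/-- The regular hull of `S`: all conditions below which `S` is dense. -/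
def rg (S : Set P) : Set P := {p | ∀ q ≤ p, ∃ r ≤ q, r ∈ S}

/-- `p` forces that the set with the name `β` is included in the set with the name `γ`. -/
def Sb (β γ : ℕ → Set P) (p : P) : Prop := ∀ m, ∀ q ≤ p, q ∈ β m → ∃ r ≤ q, r ∈ γ m

/-- The name of the row with the number `n` of a set of (codes of) pairs. -/
def rw (B : ℕ → Set P) (n : ℕ) : ℕ → Set P := fun m => B (Nat.pair n m)

/-- The combinatorial form of `Frz` for a function `F` on names and a family `α` of names of sets of pairs. -/
structure FzV {I : Type} (F : (ℕ → Set P) → (ℕ → Set P) → ℕ → Set P) (α : I → ℕ → Set P) : Prop where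
  opn : ∀ i m, Opn (α i m)
  clo : ∀ i j, ∃ l, ∀ m, rg (α l m) = rg (F (α i) (α j) m)
  frz : ∀ β : ℕ → Set P, (∀ m, Opn (β m)) → ∃ i, ∀ j l p, Sb β (rw (α j) l) p →
    ∃ n, Sb β (rw (α i) n) p ∧ Sb (rw (α i) n) (rw (α j) l) p

end poset

variable {K : Type}

open Classical in
/-- The restriction of a condition to the coordinates in `A`. -/
noncomputable def res (A : Set K) (p : Coh K) : Coh K where
  pos := p.pos.filter (fun x => x.1 ∈ A)
  neg := p.neg.filter (fun x => x.1 ∈ A)
  dis := Finset.disjoint_of_subset_left (Finset.filter_subset _ _)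
    (Finset.disjoint_of_subset_right (Finset.filter_subset _ _) p.dis)

open Classical in
/-- The condition which is `t` on the coordinates in `A` and `q` on the other coordinates. -/
noncomputable def mix (A : Set K) (t q : Coh K) : Coh K where
  pos := t.pos.filter (fun x => x.1 ∈ A) ∪ q.pos.filter (fun x => x.1 ∉ A)
  neg := t.neg.filter (fun x => x.1 ∈ A) ∪ q.neg.filter (fun x => x.1 ∉ A)
  dis := by
    rw [Finset.disjoint_left]
    intro x hx hx'
    simp only [Finset.mem_union, Finset.mem_filter] at hx hx'
    rcases hx with ⟨h1, h2⟩ | ⟨h1, h2⟩ <;> rcases hx' with ⟨h3, h4⟩ | ⟨h3, h4⟩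
    · exact Finset.disjoint_left.1 t.dis h1 h3
    · exact h4 h2
    · exact h2 h4
    · exact Finset.disjoint_left.1 q.dis h1 h3

/-- `S` is a regular open set with the support `A`. -/
structure Reg (A : Set K) (S : Set (Coh K)) : Prop where
  opn : Opn S
  rg : rg S = S
  sup : ∀ p ∈ S, res A p ∈ S

/-- The names with the support `A`. -/
def Nam (A : Set K) : Set (ℕ → Set (Coh K)) := {B | ∀ m, Reg A (B m)}

/-- The conditions which decide that the value at `n` of the Cohen function with the number `α` is `k`. -/
def CN (α : K) (n k : ℕ) : Set (Coh K) := {q | (α, Nat.pair n k) ∈ q.pos ∧ ∀ k' < k, (α, Nat.pair n k') ∈ q.neg}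

/-- `q` decides that the position after `N` steps is `a`. The start is `w0`; in the step `N` one moves from `a` to the
value `k` of the Cohen function at `N` if this is a legal move (`Z k a`), otherwise one stays at `a`. -/
inductive Run (α : K) (w0 : ℕ) (Z : ℕ → ℕ → Set (Coh K)) (q : Coh K) : ℕ → ℕ → Prop
  | zero : Run α w0 Z q 0 w0
  | move {N a k : ℕ} : Run α w0 Z q N a → q ∈ CN α N k → q ∈ Z k a → Run α w0 Z q (N + 1) k
  | stay {N a k : ℕ} : Run α w0 Z q N a → q ∈ CN α N k → (∀ r ≤ q, r ∉ Z k a) → Run α w0 Z q (N + 1) a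

end Pool.Agent.COH
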