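import Pool.Agent.TPM.Gfn
import Pool.Agent.COH.Base
import Pool.Agent.COH.VPre

set_option autoImplicit false
set_option linter.all false

/-!
# GSq: names of sets of pairs of natural numbers (difficulty 2)

`N` is a countable set of objects, `G` is generic over `N`, `MM N G` is the model (`Pool/Agent/H55/Lav/Nm.lean`,
`Truth.lean`, `ZFM.lean`, `ZFM2.lean`, `AC.lean`), `BOk N` collects the general closure properties of `N`
(`Pool/Agent/TPM/Gnd.lean`). `nv G bok.zok n` is the natural number `n` of the model and `ww G bok.zok` is its `ω`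
(`Pool/Agent/H55/Lav/MLev.lean`: `mem_ww`, `nv_lt`, `nv_inj`; `isOmega_ww`, `omega_iff`).

PROOF. `sqOk_club`: `diagT`, `diagN`, `club_inT`, `club_inN` (pattern: `gok_club`). `omega_eq`: `omega_iff`, `isOmega_ww`.
`pair_vl`: `op_pair`, `pair_iff`. `mem_sq`: `mem_val`; the names `opN (ck Q i) (ck Q j)` of pairs of natural numbers are in
`N` (`ZOk.nat`, `inN_op`); no further closure properties are needed. `sq_of`: let `S = vl G hτ` and `B = sqB τ`; it
belongs to `N` by `bk`; open and regular by `fmem_mono`, `fmem_dense`; `nv` pairs in `S` iff `Ht G (B _)` by `val_mem`; both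
sets are subsets of `prod omega omega`. `sb_of`: the same with `sbB τ`, `ZOk.nat`, `val_mem`.
-/

namespace Pool.Agent.COH

open FirstOrder FirstOrder.Language Pool.Agent.H55.SC Pool.Agent.H55.ZFU Pool.Agent.H55.Lav Pool.Agent.TPM

variable {Q : Type} [Preorder Q] [OrderTop Q]

/-- The name of the set of all pairs `(i, j)` such that the generic filter meets `B (Nat.pair i j)`. -/
def sqN (B : ℕ → Set Q) : Nm Q :=
  .mk (Σ m : ℕ, {q : Q // q ∈ B m}) (fun y => opN (ck Q y.1.unpair.1) (ck Q y.1.unpair.2)) (fun y => y.2.1)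

/-- The conditions which force that the pair coded by `m` belongs to `τ`. -/
def sqB (τ : Nm Q) (m : ℕ) : Set Q := {p | fmem (opN (ck Q m.unpair.1) (ck Q m.unpair.2)) τ p}

/-- The conditions which force that `m` belongs to `τ`. -/
def sbB (τ : Nm Q) (m : ℕ) : Set Q := {p | fmem (ck Q m) τ p}

/-- Closure properties of `N` used for names of sets of pairs of natural numbers. -/
structure SqOk (N : Set (Un Q)) : Prop where
  nm : ∀ B : ℕ → Set Q, InT N B → InN N (sqN B)
  bk : ∀ τ : Nm Q, InN N τ → InT N (sqB τ)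
  sb : ∀ τ : Nm Q, InN N τ → InT N (sbB τ)

theorem GSq_prod {M : Type 1} [Model M] [Pure M] {a b z : M} (h : z ∈ prod a b) :
    ∃ x y : M, x ∈ a ∧ y ∈ b ∧ z = opair x y := by
  obtain ⟨x, hx, y, hy, h⟩ := mem_prod.mp h
  exact ⟨x, y, hx, hy, h⟩

lemma sqOk_club : ∀ᶠ N in club (Un Q), SqOk N := by
  have h1 : ∀ᶠ N in club (Un Q), ∀ B : ℕ → Set Q, InT N B → InN N (sqN B) := diagT (fun B => club_inN _)
  have h2 : ∀ᶠ N in club (Un Q), ∀ τ : Nm Q, InN N τ → InT N (sqB τ) := diagN (fun τ => club_inT _)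
  have h3 : ∀ᶠ N in club (Un Q), ∀ τ : Nm Q, InN N τ → InT N (sbB τ) := diagN (fun τ => club_inT _)
  filter_upwards [h1, h2, h3] with N h1 h2 h3
  exact ⟨h1, h2, h3⟩

section
variable {N : Set (Un Q)} {G : Set Q} (bok : TPM.BOk N) (sok : SqOk N) (gen : GenF N G)

include gen in
lemma omega_eq : letI := mdl bok.ok bok.fok bok.zok gen; (omega : MM N G) = ww G bok.zok := by
  letI := mdl bok.ok bok.fok bok.zok gen
  haveI : Pure (MM N G) := zPure (zf bok.ok bok.fok bok.zok gen)
  exact (omega_iff.mp (isOmega_ww (zok := bok.zok) (top_mem bok.ok gen))).symm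

include gen in
lemma mem_omega' (x : MM N G) : letI := mdl bok.ok bok.fok bok.zok gen; x ∈ (omega : MM N G) ↔ ∃ n, x = nv G bok.zok n := by
  letI := mdl bok.ok bok.fok bok.zok gen
  have h := omega_eq bok gen
  rw [h]
  exact mem_ww (top_mem bok.ok gen)

include gen in
/-- `suc` of a natural number of the model. -/
lemma nv_suc (n : ℕ) : letI := mdl bok.ok bok.fok bok.zok gen; suc (nv G bok.zok n : MM N G) = nv G bok.zok (n + 1) := by
  letI := mdl bok.ok bok.fok bok.zok gen
  have htop := top_mem bok.ok gen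
  refine mm_ext (fun z => ?_)
  have h1 : z ∈ (suc (nv G bok.zok n) : MM N G) ↔ z ∈ (nv G bok.zok n : MM N G) ∨ z = nv G bok.zok n := mem_suc
  refine h1.trans ?_
  rw [mem_nv htop]
  constructor
  · rintro (h | rfl)
    · obtain ⟨m, hm, rfl⟩ := (mem_nv htop).mp h
      exact ⟨m, by omega, rfl⟩
    · exact ⟨n, by omega, rfl⟩
  · rintro ⟨m, hm, rfl⟩
    rcases Nat.lt_succ_iff_lt_or_eq.mp hm with h | h
    · exact Or.inl ((mem_nv htop).mpr ⟨m, h, rfl⟩)
    · exact Or.inr (by rw [h])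

include gen in
lemma pair_vl {τ σ : Nm Q} (hτ : InN N τ) (hσ : InN N σ) :
    letI := mdl bok.ok bok.fok bok.zok gen; opair (vl G hτ : MM N G) (vl G hσ) = vl G (inN_op bok.zok hτ hσ) := by
  letI := mdl bok.ok bok.fok bok.zok gen
  haveI : Pure (MM N G) := zPure (zf bok.ok bok.fok bok.zok gen)
  exact (pair_iff.mp (op_pair bok.ok bok.zok gen hτ hσ)).symm

include gen in
lemma mem_sq {B : ℕ → Set Q} (hB : InT N B) (z : MM N G) : letI := mdl bok.ok bok.fok bok.zok gen;
    z ∈ (vl G (sok.nm B hB) : MM N G) ↔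
      ∃ i j : ℕ, z = opair (nv G bok.zok i : MM N G) (nv G bok.zok j) ∧ Ht G (B (Nat.pair i j)) := by
  letI := mdl bok.ok bok.fok bok.zok gen
  constructor
  · intro hz
    obtain ⟨⟨m, q, hq⟩, h1, h2, h3⟩ := mem_val.mp (show z.1 ∈ val N G (sqN B) from hz)
    refine ⟨m.unpair.1, m.unpair.2, ?_, q, h2, ?_⟩
    · have h4 := pair_vl bok gen (bok.zok.nat m.unpair.1) (bok.zok.nat m.unpair.2)
      refine Eq.trans ?_ h4.symm
      exact Subtype.ext h3.symm
    · rw [Nat.pair_unpair]
      exact hq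
  · rintro ⟨i, j, rfl, q, hqG, hq⟩
    have h4 := pair_vl bok gen (bok.zok.nat i) (bok.zok.nat j)
    have h5 : (opair (nv G bok.zok i : MM N G) (nv G bok.zok j)) = vl G (inN_op bok.zok (bok.zok.nat i) (bok.zok.nat j)) := h4
    rw [h5]
    have h6 : val N G (opN (ck Q i) (ck Q j)) ∈ val N G (sqN B) := by
      refine mem_val.mpr ⟨⟨Nat.pair i j, q, hq⟩, ?_, hqG, ?_⟩
      · show InN N (opN (ck Q (Nat.pair i j).unpair.1) (ck Q (Nat.pair i j).unpair.2))
        rw [Nat.unpair_pair]
        exact inN_op bok.zok (bok.zok.nat i) (bok.zok.nat j)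
      · show val N G (opN (ck Q (Nat.pair i j).unpair.1) (ck Q (Nat.pair i j).unpair.2)) = _
        rw [Nat.unpair_pair]
    exact h6

include gen in
/-- Every set of pairs of natural numbers of the model has a name of this form. -/
lemma sq_of {S : MM N G} (hS : letI := mdl bok.ok bok.fok bok.zok gen; S ⊆ prod (omega : MM N G) omega) :
    ∃ (B : ℕ → Set Q) (hB : InT N B), (∀ m, Opn (B m) ∧ rg (B m) = B m) ∧ S = vl G (sok.nm B hB) := by
  letI := mdl bok.ok bok.fok bok.zok gen
  haveI : Pure (MM N G) := zPure (zf bok.ok bok.fok bok.zok gen)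
  have hS' : S ⊆ prod (omega : MM N G) omega := hS
  have hom := fun x => mem_omega' bok gen x
  obtain ⟨S, τ, hτ, rfl⟩ := S
  have hop : ∀ m, Opn (sqB τ m) := fun m p hp q hq => fmem_mono hp hq
  refine ⟨sqB τ, sok.bk τ hτ, fun m => ⟨hop m, Set.Subset.antisymm ?_ ?_⟩, mm_ext (fun z => ?_)⟩
  · intro p hp
    exact fmem_dense hp
  · intro p hp q hq
    exact ⟨q, le_rfl, hop m p hp q hq⟩
  · have key : ∀ i j : ℕ, EE (opair (nv G bok.zok i : MM N G) (nv G bok.zok j)) (vl G hτ) ↔
        Ht G (sqB τ (Nat.pair i j)) := by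
      intro i j
      have h5 : (opair (nv G bok.zok i : MM N G) (nv G bok.zok j)) =
          vl G (inN_op bok.zok (bok.zok.nat i) (bok.zok.nat j)) := pair_vl bok gen (bok.zok.nat i) (bok.zok.nat j)
      rw [h5]
      refine (val_mem bok.ok gen (inN_op bok.zok (bok.zok.nat i) (bok.zok.nat j)) hτ).trans ?_
      unfold Ht sqB
      rw [Nat.unpair_pair]
      exact Iff.rfl
    have hm := mem_sq bok sok gen (sok.bk τ hτ) z
    refine Iff.trans ?_ hm.symm
    constructor
    · intro hz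
      obtain ⟨x, y, hx, hy, hxy⟩ := GSq_prod (hS' z hz)
      obtain ⟨i, rfl⟩ := (hom x).mp hx
      obtain ⟨j, rfl⟩ := (hom y).mp hy
      refine ⟨i, j, hxy, (key i j).mp ?_⟩
      rw [← hxy]
      exact hz
    · rintro ⟨i, j, rfl, h⟩
      exact (key i j).mpr h

include sok gen in
/-- Subsets of `ω` in the model. -/
lemma sb_of (b : MM N G) : ∃ β : ℕ → Set Q, InT N β ∧ (∀ m, Opn (β m) ∧ rg (β m) = β m) ∧
    ∀ m, EE (nv G bok.zok m) b ↔ Ht G (β m) := by
  obtain ⟨b, τ, hτ, rfl⟩ := b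
  have hop : ∀ m, Opn (sbB τ m) := fun m p hp q hq => fmem_mono hp hq
  refine ⟨sbB τ, sok.sb τ hτ, fun m => ⟨hop m, Set.Subset.antisymm ?_ ?_⟩, fun m => ?_⟩
  · intro p hp
    exact fmem_dense hp
  · intro p hp q hq
    exact ⟨q, le_rfl, hop m p hp q hq⟩
  · exact val_mem bok.ok gen (bok.zok.nat m) hτ

end

end Pool.Agent.COH
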