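import Pool.Agent.COH.Cts

set_option autoImplicit false

/-!
# GnC: the combinatorial form of the second property (difficulty 3)

PROOF. By `cts` all sets `Z k a` and `D i n k` have countable supports; their union `A` has cardinality
`≤ 𝔠 * ℵ₀ = 𝔠 < #K` (`Cardinal.mk_iUnion_le`), so there is `α ∉ A`; by `Reg.mono` all these sets have the support `{α}ᶜ`.
So (*) if `r` belongs to such a set `S` then `mix {α}ᶜ r q ∈ S` for all `q` (`Reg.mix_mem`), and if moreover `r ≤ q` then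
`mix {α}ᶜ r q ≤ q` (`mix_le_right`) and it has the same elements with first coordinate `α` as `q`.
Say that `q` is `L`-small if `x ∈ q.pos ∪ q.neg`, `x.1 = α` imply `x.2.unpair.1 < L`. `Run` is monotone: if `q ≤ p` and
`Run α w0 Z p N a` then `Run α w0 Z q N a` (induction; `CN` and `Z` are open).
(1) Claim: for all `N ≤ L` and every `L`-small `p` there are an `L`-small `q ≤ p` and `a` with `Run α w0 Z q N a`. Induction
on `N`. `N = 0`: `Run.zero`. Step `N + 1 ≤ L`: let `q`, `a` be given by the induction hypothesis. Let `k` be the least number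
with `(α, Nat.pair N k) ∉ q.neg` (`neg` is finite), and add `(α, Nat.pair N k)` to `q.pos`: the result `q1` is a condition,
`L`-small and in `CN α N k`. If there is `r ≤ q1` in `Z k a`, put `q2 = mix {α}ᶜ r q1` (`≤ q1`, `L`-small, in `Z k a`) and
use `Run.move`; otherwise `Run.stay`.
(2) Let `i n p` be given. `p` is `L`-small for some `L`. By (1) there are an `L`-small `q ≤ p` and `a` with
`Run α w0 Z q L a`. If there are `b` and `r ≤ q` with `r ∈ Z b a` and `r ∈ D i n b`, put `q1 = mix {α}ᶜ r q`, which is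
`L`-small, `≤ q` and in both sets, and let `q2` be `q1` together with the values
`(α, Nat.pair L b) ∈ pos`, `(α, Nat.pair L b') ∈ neg` for `b' < b` (`q1` has no elements in the row `L` of `α`). Then
`q2 ∈ CN α L b`, so `Run α w0 Z q2 (L + 1) b` and `q2 ∈ D i n b`: the first alternative holds for `q2`, `N = L + 1`, `b`. If
there are no such `b`, `r`, the second alternative holds for `q`, `L`, `a`.
-/

namespace Pool.Agent.COH

open Pool.Agent.TPM Cardinal Set

variable {K : Type}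

theorem gnC_mono {α : K} {w0 : ℕ} {Z : ℕ → ℕ → Set (Coh K)} (hZ : ∀ k a, Opn (Z k a)) {q p : Coh K}
    (h : q ≤ p) {N a : ℕ} (hr : Run α w0 Z p N a) : Run α w0 Z q N a := by
  induction hr with
  | zero => exact Run.zero
  | move h1 h2 h3 ih =>
    exact Run.move ih ⟨h.1 h2.1, fun k' hk' => h.2 (h2.2 k' hk')⟩ (hZ _ _ _ h3 _ h)
  | stay h1 h2 h3 ih =>
    exact Run.stay ih ⟨h.1 h2.1, fun k' hk' => h.2 (h2.2 k' hk')⟩ (fun r hr => h3 r (le_trans hr h))

/-- `L`-small conditions -/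
def gnC_Sm (α : K) (L : ℕ) (q : Coh K) : Prop :=
  ∀ x, (x ∈ q.pos ∨ x ∈ q.neg) → x.1 = α → x.2.unpair.1 < L

theorem gnC_mixle {α : K} {r q : Coh K} (h : r ≤ q) : mix {α}ᶜ r q ≤ q :=
  mix_le_right (le_trans h (res_le _ _))

theorem gnC_mixsm {α : K} {L : ℕ} {r q : Coh K} (h : gnC_Sm α L q) : gnC_Sm α L (mix {α}ᶜ r q) := by
  classical
  intro x hx hxα
  have hnot : x.1 ∉ ({α}ᶜ : Set K) := fun h' => h' hxα
  rcases hx with hx | hx
  · unfold mix at hx
    simp only [Finset.mem_union, Finset.mem_filter] at hx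
    rcases hx with hx | hx
    · exact absurd hx.2 hnot
    · exact h x (Or.inl hx.1) hxα
  · unfold mix at hx
    simp only [Finset.mem_union, Finset.mem_filter] at hx
    rcases hx with hx | hx
    · exact absurd hx.2 hnot
    · exact h x (Or.inr hx.1) hxα

theorem gnC_step {α : K} {w0 : ℕ} {Z : ℕ → ℕ → Set (Coh K)} (hZ : ∀ k a, Reg {α}ᶜ (Z k a)) (L : ℕ) :
    ∀ N, N ≤ L → ∀ p, gnC_Sm α L p → ∃ q ≤ p, gnC_Sm α L q ∧ ∃ a, Run α w0 Z q N a := by
  classical
  intro N
  induction N with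
  | zero => exact fun _ p hp => ⟨p, le_refl p, hp, w0, Run.zero⟩
  | succ N ih =>
    intro hN p hp
    obtain ⟨q, hqp, hq, a, ha⟩ := ih (Nat.le_of_succ_le hN) p hp
    have hex : ∃ k, (α, Nat.pair N k) ∉ q.neg := by
      by_contra hcon
      push Not at hcon
      have hinj : Function.Injective (fun k : ℕ => ((α, Nat.pair N k) : K × ℕ)) := by
        intro k k' hk
        have h1 : Nat.pair N k = Nat.pair N k' := (Prod.mk.inj hk).2
        exact (Nat.pair_eq_pair.1 h1).2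
      have hinf := Set.infinite_range_of_injective hinj
      refine hinf (q.neg.finite_toSet.subset ?_)
      rintro x ⟨k, rfl⟩
      exact hcon k
    obtain ⟨k, hk1, hk2⟩ : ∃ k, (α, Nat.pair N k) ∉ q.neg ∧ ∀ k' < k, (α, Nat.pair N k') ∈ q.neg :=
      ⟨Nat.find hex, Nat.find_spec hex, fun k' hk' => not_not.1 (Nat.find_min hex hk')⟩
    let q1 : Coh K := ⟨insert (α, Nat.pair N k) q.pos, q.neg, by
      rw [Finset.disjoint_insert_left]; exact ⟨hk1, q.dis⟩⟩
    have hq1 : q1 ≤ q := ⟨Finset.subset_insert _ _, subset_rfl⟩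
    have hsm1 : gnC_Sm α L q1 := by
      intro x hx hxα
      rcases hx with hx | hx
      · rcases Finset.mem_insert.1 hx with hx | hx
        · rw [hx]
          show (Nat.pair N k).unpair.1 < L
          rw [Nat.unpair_pair]
          exact hN
        · exact hq x (Or.inl hx) hxα
      · exact hq x (Or.inr hx) hxα
    have hcn : q1 ∈ CN α N k := ⟨Finset.mem_insert_self _ _, fun k' hk' => hk2 k' hk'⟩
    have hrun1 : Run α w0 Z q1 N a := gnC_mono (fun k a => (hZ k a).opn) hq1 ha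
    by_cases hc : ∃ r ≤ q1, r ∈ Z k a
    · obtain ⟨r, hr, hrZ⟩ := hc
      have hle : mix {α}ᶜ r q1 ≤ q1 := gnC_mixle hr
      refine ⟨mix {α}ᶜ r q1, le_trans hle (le_trans hq1 hqp), gnC_mixsm hsm1, k, ?_⟩
      exact Run.move (gnC_mono (fun k a => (hZ k a).opn) hle hrun1)
        ⟨hle.1 hcn.1, fun k' hk' => hle.2 (hcn.2 k' hk')⟩ ((hZ k a).mix_mem hrZ q1)
    · push Not at hc
      exact ⟨q1, le_trans hq1 hqp, hsm1, a, Run.stay hrun1 hcn hc⟩

theorem gnC_main {α : K} {w0 : ℕ} {Z : ℕ → ℕ → Set (Coh K)} (hZ : ∀ k a, Reg {α}ᶜ (Z k a))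
    {D : ℕ → Set (Coh K)} (hD : ∀ b, Reg {α}ᶜ (D b)) (p : Coh K) :
    ∃ q ≤ p, ∃ N a, Run α w0 Z q N a ∧
      (q ∈ D a ∨ ∀ b, ∀ r ≤ q, ¬ (r ∈ Z b a ∧ r ∈ D b)) := by
  classical
  obtain ⟨L, hL⟩ : ∃ L, gnC_Sm α L p := by
    refine ⟨(p.pos ∪ p.neg).sup (fun x => x.2.unpair.1) + 1, fun x hx _ => ?_⟩
    have : x.2.unpair.1 ≤ (p.pos ∪ p.neg).sup (fun x => x.2.unpair.1) :=
      Finset.le_sup (f := fun x : K × ℕ => x.2.unpair.1) (Finset.mem_union.2 hx)
    omega
  obtain ⟨q, hqp, hq, a, ha⟩ := gnC_step hZ (w0 := w0) L L (le_refl L) p hL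
  by_cases hc : ∃ b, ∃ r ≤ q, r ∈ Z b a ∧ r ∈ D b
  · obtain ⟨b, r, hr, hrZ, hrD⟩ := hc
    obtain ⟨q1, hq1def⟩ : ∃ q1, q1 = mix {α}ᶜ r q := ⟨_, rfl⟩
    have hq1 : q1 ≤ q := by rw [hq1def]; exact gnC_mixle hr
    have hsm : gnC_Sm α L q1 := by rw [hq1def]; exact gnC_mixsm hq
    have h1Z : q1 ∈ Z b a := by rw [hq1def]; exact (hZ b a).mix_mem hrZ q
    have h1D : q1 ∈ D b := by rw [hq1def]; exact (hD b).mix_mem hrD q
    have hno : ∀ b', (α, Nat.pair L b') ∉ q1.pos ∧ (α, Nat.pair L b') ∉ q1.neg := by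
      intro b'
      constructor
      · intro h
        have := hsm _ (Or.inl h) rfl
        simp only [Nat.unpair_pair] at this
        exact lt_irrefl _ this
      · intro h
        have := hsm _ (Or.inr h) rfl
        simp only [Nat.unpair_pair] at this
        exact lt_irrefl _ this
    let q2 : Coh K := ⟨insert (α, Nat.pair L b) q1.pos,
      q1.neg ∪ (Finset.range b).image (fun b' => (α, Nat.pair L b')), by
        rw [Finset.disjoint_left]
        intro x hx hx'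
        rcases Finset.mem_insert.1 hx with hx | hx
        · rcases Finset.mem_union.1 hx' with hx' | hx'
          · rw [hx] at hx'
            exact (hno b).2 hx'
          · obtain ⟨b', hb', hb''⟩ := Finset.mem_image.1 hx'
            rw [hx] at hb''
            have h1 : Nat.pair L b' = Nat.pair L b := (Prod.mk.inj hb'').2
            have h2 := (Nat.pair_eq_pair.1 h1).2
            rw [h2] at hb'
            exact lt_irrefl _ (Finset.mem_range.1 hb')
        · rcases Finset.mem_union.1 hx' with hx' | hx'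
          · exact Finset.disjoint_left.1 q1.dis hx hx'
          · obtain ⟨b', hb', hb''⟩ := Finset.mem_image.1 hx'
            rw [← hb''] at hx
            exact (hno b').1 hx⟩
    have hq2 : q2 ≤ q1 := ⟨Finset.subset_insert _ _, Finset.subset_union_left⟩
    refine ⟨q2, le_trans hq2 (le_trans hq1 hqp), L + 1, b, ?_, Or.inl ((hD b).opn _ h1D _ hq2)⟩
    refine Run.move (gnC_mono (fun k a => (hZ k a).opn) (le_trans hq2 hq1) ha) ?_ ((hZ b a).opn _ h1Z _ hq2)
    refine ⟨Finset.mem_insert_self _ _, fun k' hk' => ?_⟩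
    exact Finset.mem_union_right _ (Finset.mem_image.2 ⟨k', Finset.mem_range.2 hk', rfl⟩)
  · push Not at hc
    exact ⟨q, hqp, L, a, ha, Or.inr (fun b r hr h => hc b r hr h.1 h.2)⟩

theorem gnC {I : Type} (hI : #I ≤ 𝔠) (hK : 𝔠 < #K) {Z : ℕ → ℕ → Set (Coh K)}
    (hZ : ∀ k a, Opn (Z k a) ∧ rg (Z k a) = Z k a) {D : I → ℕ → ℕ → Set (Coh K)}
    (hD : ∀ i n k, Opn (D i n k) ∧ rg (D i n k) = D i n k) (w0 : ℕ) :
    ∃ α : K, ∀ i n p, ∃ q ≤ p, ∃ N a, Run α w0 Z q N a ∧
      (q ∈ D i n a ∨ ∀ b, ∀ r ≤ q, ¬ (r ∈ Z b a ∧ r ∈ D i n b)) := by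
  classical
  choose sZ hsZ hrZ using fun k a => cts (hZ k a).1 (hZ k a).2
  choose sD hsD hrD using fun i n k => cts (hD i n k).1 (hD i n k).2
  let X : Type := (ℕ × ℕ) ⊕ (I × ℕ × ℕ)
  let f : X → Set K := Sum.elim (fun x => sZ x.1 x.2) (fun x => sD x.1 x.2.1 x.2.2)
  have hX : #X ≤ 𝔠 := by
    show #((ℕ × ℕ) ⊕ (I × ℕ × ℕ)) ≤ 𝔠
    rw [Cardinal.mk_sum, Cardinal.lift_id, Cardinal.lift_id, Cardinal.mk_prod, Cardinal.mk_prod,
      Cardinal.mk_prod]
    simp only [Cardinal.lift_id, Cardinal.mk_nat, Cardinal.aleph0_mul_aleph0]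
    calc ℵ₀ + #I * ℵ₀ ≤ 𝔠 + 𝔠 * ℵ₀ :=
          add_le_add Cardinal.aleph0_le_continuum (mul_le_mul_left hI _)
      _ = 𝔠 := by rw [Cardinal.continuum_mul_aleph0, Cardinal.continuum_add_self]
  have hA : #(⋃ x, f x : Set K) ≤ 𝔠 := by
    calc #(⋃ x, f x : Set K) ≤ #X * ⨆ x, #(f x) := Cardinal.mk_iUnion_le f
      _ ≤ 𝔠 * ℵ₀ := by
          refine mul_le_mul' hX (ciSup_le' ?_)
          rintro (x | x)
          · exact (Cardinal.le_aleph0_iff_set_countable).2 (hsZ x.1 x.2)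
          · exact (Cardinal.le_aleph0_iff_set_countable).2 (hsD x.1 x.2.1 x.2.2)
      _ = 𝔠 := Cardinal.continuum_mul_aleph0
  obtain ⟨α, hα⟩ : ∃ α : K, α ∉ ⋃ x, f x := by
    by_contra hcon
    push Not at hcon
    have huniv : (⋃ x, f x) = Set.univ := Set.eq_univ_of_forall hcon
    rw [huniv, Cardinal.mk_univ] at hA
    exact absurd hA (not_le.2 hK)
  have hZα : ∀ k a, Reg {α}ᶜ (Z k a) := by
    intro k a
    refine (hrZ k a).mono ?_
    intro x hx hxα
    exact hα (Set.mem_iUnion.2 ⟨Sum.inl (k, a), by rw [← (show x = α from hxα)]; exact hx⟩)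
  have hDα : ∀ i n k, Reg {α}ᶜ (D i n k) := by
    intro i n k
    refine (hrD i n k).mono ?_
    intro x hx hxα
    exact hα (Set.mem_iUnion.2 ⟨Sum.inr (i, n, k), by rw [← (show x = α from hxα)]; exact hx⟩)
  exact ⟨α, fun i n p => gnC_main hZα (hDα i n) p⟩

end Pool.Agent.COH
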