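import Pool.Agent.COH.GSq
import Pool.Agent.COH.GnC

set_option autoImplicit false
set_option linter.all false

/-!
# GnM: the second property holds in the Cohen model (difficulty 3)

Write `Q = Coh K`, `I = KK 𝔠`.
PROOF. For `ψ : Fml (k + 2)`, `σ : Fin k → Nm Q` let `Zf ψ σ b a = {p | frc ψ (Fin.append σ ![ck Q b, ck Q a]) p}` (`b a : ℕ`) and for
`ψ' : Fml (k' + 3)`, `σ'` let `Df ψ' σ' i n b = {p | frc ψ' (Fin.append σ' ![ck Q i, ck Q n, ck Q b]) p}` (`i : I`); they are regular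
open (`frc_mono`, `frc_dense`). Let `Pr α Z D w0` be the property of `gnC`, and
`E i n = {q | ∃ N a, Run α w0 Z q N a ∧ (q ∈ D i n a ∨ ∀ b, ∀ r ≤ q, ¬ (r ∈ Z b a ∧ r ∈ D i n b))}`.
Closure properties of `N` (see the header of `FrM` for patterns): for `ψ`, `σ`, `ψ'`, `σ'` in `N` and `w0 : ℕ` there is `α ∈ N`
with the property of `gnC`; for `ψ`, `σ`, `ψ'`, `σ'`, `α`, `i` in `N` and `w0`, `n` the set `E i n` is in `N`; for `α ∈ N` the
function `fun m => CN α m.unpair.1 m.unpair.2` and, for `n : ℕ`, the set `{q | ∃ k, q ∈ CN α n k}` are in `N`; `SqOk N`.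
Let `W`, `R`, `D`, `w0` be given in the model; `w0 = nv w0'`. `decode` (`Lav/ZFM.lean`) for
`{v : Fin 2 → MM N G | v 0 ∈ W ∧ opair (v 0) (v 1) ∈ R}` and `{v : Fin 3 → MM N G | opair (opair (v 0) (v 1)) (v 2) ∈ D}` gives
`ψ`, `σ`, `ψ'`, `σ'` (`vl` of `ck Q n` is `nv`, `vl` of `ck Q i` is `cv`). Take `α`. Let `c` be the value of
`sqN (fun m => CN α m.unpair.1 m.unpair.2)`: `opair (nv n) (nv k) ∈ c ↔ Ht G (CN α n k)` (`mem_sq`). `FnOn c omega` with values in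
`omega`: `CN α n k` and `CN α n k'` are incompatible for `k ≠ k'`; `{q | ∃ k, q ∈ CN α n k}` is dense (the least `k` with
`(α, Nat.pair n k) ∉ q.neg`). Let `f` be given by `omega_rec`: `app f ∅ = w0`,
`app f (suc n) = iteM (app c n ∈ W ∧ opair (app c n) (app f n) ∈ R) (app c n) (app f n)`. `app f n ∈ W` by `omega_induction`.
Claim: if `q ∈ G` and `Run α w0' Z q N a` then `app f (nv N) = nv a` (induction on `Run`; `nv_suc`; `move`: `q ∈ Z k a` gives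
`nv k ∈ W ∧ ..` by `decode`; `stay`: if `nv k ∈ W ∧ ..` then some `p ∈ G` is in `Z k a`, a common extension of `p` and `q`
contradicts `∀ r ≤ q, r ∉ Z k a`).
Let `i ∈ cT G gI`, `i = cv i'`, and `n = nv n'`. There is `q ∈ G` in the dense set `E i' n'`, with `N`, `a`; `nv a = app f (nv N)`. If
`q ∈ D i' n' a`, done (`k = nv N`). Otherwise the hypothesis for `nv a ∈ W` gives `b = nv b'`, with conditions of `G` in
`Z b' a` and in `D i' n' b'`; a common extension with `q` is a contradiction.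
-/

namespace Pool.Agent.COH

open FirstOrder FirstOrder.Language Pool.Agent.H55.SC Pool.Agent.H55.ZFU Pool.Agent.H55.Lav Pool.Agent.TPM Cardinal
open Pool.Agent.H12.Thread (KK)

namespace GnMI

variable {K : Type}

/-- The conditions which force that the move from `a` to `b` is legal. -/
def Zf {k : ℕ} (ψ : Fml (k + 2)) (σ : Fin k → Nm (Coh K)) (b a : ℕ) : Set (Coh K) :=
  {p | frc ψ (Fin.append σ ![ck (Coh K) b, ck (Coh K) a]) p}

/-- The conditions which force that `b` belongs to the set with the numbers `i`, `n`. -/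
def Df {k : ℕ} (ψ : Fml (k + 3)) (σ : Fin k → Nm (Coh K)) (i : KK 𝔠) (n b : ℕ) : Set (Coh K) :=
  {p | frc ψ (Fin.append σ ![ck (Coh K) i, ck (Coh K) n, ck (Coh K) b]) p}

/-- The dense set of `gnC`. -/
def Es (α : K) (w0 : ℕ) (Z : ℕ → ℕ → Set (Coh K)) (D : KK 𝔠 → ℕ → ℕ → Set (Coh K)) (i : KK 𝔠) (n : ℕ) : Set (Coh K) :=
  {q | ∃ N a, Run α w0 Z q N a ∧ (q ∈ D i n a ∨ ∀ b, ∀ r ≤ q, ¬ (r ∈ Z b a ∧ r ∈ D i n b))}

lemma zf_reg {k : ℕ} (ψ : Fml (k + 2)) (σ : Fin k → Nm (Coh K)) (b a : ℕ) :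
    Opn (Zf ψ σ b a) ∧ rg (Zf ψ σ b a) = Zf ψ σ b a := by
  refine ⟨fun p hp q hq => frc_mono _ _ _ _ hp hq, ?_⟩
  apply Set.Subset.antisymm
  · intro p hp
    exact frc_dense _ _ _ hp
  · intro p hp q hq
    exact ⟨q, le_rfl, frc_mono _ _ _ _ hp hq⟩

lemma df_reg {k : ℕ} (ψ : Fml (k + 3)) (σ : Fin k → Nm (Coh K)) (i : KK 𝔠) (n b : ℕ) :
    Opn (Df ψ σ i n b) ∧ rg (Df ψ σ i n b) = Df ψ σ i n b := by
  refine ⟨fun p hp q hq => frc_mono _ _ _ _ hp hq, ?_⟩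
  apply Set.Subset.antisymm
  · intro p hp
    exact frc_dense _ _ _ hp
  · intro p hp q hq
    exact ⟨q, le_rfl, frc_mono _ _ _ _ hp hq⟩

structure GmOk (N : Set (Un (Coh K))) : Prop where
  a : ∀ (k : ℕ) (ψ : Fml (k + 2)) (σ : Fin k → Nm (Coh K)), (∀ i, InN N (σ i)) → ∀ (k' : ℕ) (ψ' : Fml (k' + 3))
    (σ' : Fin k' → Nm (Coh K)), (∀ i, InN N (σ' i)) → ∀ w0 : ℕ, ∃ α : K, InT N α ∧
      (∀ i n p, ∃ q ≤ p, q ∈ Es α w0 (Zf ψ σ) (Df ψ' σ') i n) ∧
      ∀ i : KK 𝔠, InT N i → ∀ n : ℕ, InT N (Es α w0 (Zf ψ σ) (Df ψ' σ') i n)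
  c : ∀ α : K, InT N α → InT N (fun m : ℕ => CN α m.unpair.1 m.unpair.2)
  u : ∀ α : K, InT N α → ∀ n : ℕ, InT N {q : Coh K | ∃ k, q ∈ CN α n k}

lemma gmOk_club (hK : 𝔠 < #K) : ∀ᶠ N in club (Un (Coh K)), GmOk (K := K) N := by
  have h1 : ∀ᶠ N in club (Un (Coh K)), ∀ k : ℕ, ∀ ψ : Fml (k + 2), ∀ σ : Fin k → Nm (Coh K), (∀ i, InN N (σ i)) →
      ∀ k' : ℕ, ∀ ψ' : Fml (k' + 3), ∀ σ' : Fin k' → Nm (Coh K), (∀ i, InN N (σ' i)) → ∀ w0 : ℕ, ∃ α : K, InT N α ∧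
      (∀ i n p, ∃ q ≤ p, q ∈ Es α w0 (Zf ψ σ) (Df ψ' σ') i n) ∧
      ∀ i : KK 𝔠, InT N i → ∀ n : ℕ, InT N (Es α w0 (Zf ψ σ) (Df ψ' σ') i n) := by
    refine club_all (fun k => club_all (fun ψ => diagNs (fun σ => club_all (fun k' => club_all (fun ψ' =>
      diagNs (fun σ' => club_all (fun w0 => ?_)))))))
    obtain ⟨α, hα⟩ := gnC (I := KK 𝔠) (K := K) (Pool.Agent.H12.Thread.mk_KK (κ := 𝔠)).le hK (zf_reg ψ σ) (df_reg ψ' σ') w0
    have h2 : ∀ᶠ N in club (Un (Coh K)), ∀ i : KK 𝔠, InT N i → ∀ n : ℕ, InT N (Es α w0 (Zf ψ σ) (Df ψ' σ') i n) :=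
      diagT (fun i => club_all (fun n => club_inT _))
    filter_upwards [club_inT α, h2] with N h3 h4
    refine ⟨α, h3, fun i n p => ?_, h4⟩
    obtain ⟨q, hq, M, a, h5⟩ := hα i n p
    exact ⟨q, hq, M, a, h5⟩
  have h2 : ∀ᶠ N in club (Un (Coh K)), ∀ α : K, InT N α → InT N (fun m : ℕ => CN α m.unpair.1 m.unpair.2) :=
    diagT (fun α => club_inT _)
  have h3 : ∀ᶠ N in club (Un (Coh K)), ∀ α : K, InT N α → ∀ n : ℕ, InT N {q : Coh K | ∃ k, q ∈ CN α n k} :=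
    diagT (fun α => club_all (fun n => club_inT _))
  filter_upwards [h1, h2, h3] with N h1 h2 h3
  exact ⟨h1, h2, h3⟩

lemma cn_opn (α : K) (n k : ℕ) : Opn (CN α n k) := by
  intro p hp q hq
  exact ⟨hq.1 hp.1, fun k' hk' => hq.2 (hp.2 k' hk')⟩

lemma cn_uniq {α : K} {n k k' : ℕ} {q : Coh K} (h : q ∈ CN α n k) (h' : q ∈ CN α n k') : k = k' := by
  rcases lt_trichotomy k k' with h1 | h1 | h1
  · exact (Finset.disjoint_left.1 q.dis h.1 (h'.2 k h1)).elim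
  · exact h1
  · exact (Finset.disjoint_left.1 q.dis h'.1 (h.2 k' h1)).elim

lemma cn_dense (α : K) (n : ℕ) (p : Coh K) : ∃ q ∈ {q : Coh K | ∃ k, q ∈ CN α n k}, q ≤ p := by
  classical
  have hfin : ∃ k, (α, Nat.pair n k) ∉ p.neg := by
    by_contra hcon
    push Not at hcon
    have hinj : Function.Injective (fun k : ℕ => (α, Nat.pair n k)) := by
      intro a b hab
      have h1 : Nat.pair n a = Nat.pair n b := congrArg Prod.snd hab
      exact (Nat.pair_eq_pair.1 h1).2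
    have h2 : (Set.range (fun k : ℕ => (α, Nat.pair n k))).Finite :=
      p.neg.finite_toSet.subset (by rintro _ ⟨k, rfl⟩; exact hcon k)
    exact Set.infinite_range_of_injective hinj h2
  set k := Nat.find hfin with hk
  have hk1 : (α, Nat.pair n k) ∉ p.neg := Nat.find_spec hfin
  have hk2 : ∀ k' < k, (α, Nat.pair n k') ∈ p.neg := fun k' hk' => by
    have := Nat.find_min hfin hk'
    push Not at this
    exact this
  refine ⟨⟨insert (α, Nat.pair n k) p.pos, p.neg, ?_⟩, ⟨k, ?_, hk2⟩, ?_, ?_⟩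
  · rw [Finset.disjoint_insert_left]
    exact ⟨hk1, p.dis⟩
  · exact Finset.mem_insert_self _ _
  · exact Finset.subset_insert _ _
  · exact subset_rfl

end GnMI

open GnMI

theorem gnM_club {K : Type} (hK : 𝔠 < #K) : ∀ᶠ N in club (Un (Coh K)), ∀ (bok : TPM.BOk N) (gI : TPM.GOk N (KK 𝔠))
    (G : Set (Coh K)) (gen : GenF N G), letI := mdl bok.ok bok.fok bok.zok gen; Gen (cT G gI : MM N G) := by
  filter_upwards [gmOk_club hK, sqOk_club (Q := Coh K)] with N gm sok bok gI G gen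
  letI := mdl bok.ok bok.fok bok.zok gen
  haveI : Pure (MM N G) := zPure (zf bok.ok bok.fok bok.zok gen)
  have htop := top_mem bok.ok gen
  show Gen (cT G gI : MM N G)
  have hom : ∀ x : MM N G, x ∈ (omega : MM N G) ↔ ∃ n, x = nv G bok.zok n := mem_omega' bok gen
  have hnom : ∀ n, (nv G bok.zok n : MM N G) ∈ (omega : MM N G) := fun n => (hom _).2 ⟨n, rfl⟩
  have hsuc : ∀ n, suc (nv G bok.zok n : MM N G) = nv G bok.zok (n + 1) := nv_suc bok gen
  have hzero : (∅ : MM N G) = nv G bok.zok 0 := by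
    refine mm_ext (fun z => ?_)
    constructor
    · intro h
      exact absurd (show z ∈ (∅ : MM N G) from h) (by simp)
    · intro h
      obtain ⟨m, hm, _⟩ := (mem_nv htop).mp h
      omega
  intro W R D w0 hW hw0 hmov
  obtain ⟨w0', hw0'⟩ := (hom w0).1 (hW _ hw0)
  -- decoding
  have dW : Dfn (fun v : Fin 2 → MM N G => v 0 ∈ W ∧ opair (v 0) (v 1) ∈ R) := inferInstance
  have dD : Dfn (fun v : Fin 3 → MM N G => opair (opair (v 0) (v 1)) (v 2) ∈ D) := inferInstance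
  obtain ⟨k, ψ, σ, hσ, hψ⟩ := decode bok.ok bok.fok gen dW.out
  obtain ⟨k', ψ', σ', hσ', hψ'⟩ := decode bok.ok bok.fok gen dD.out
  have hZ : ∀ b a : ℕ, ((nv G bok.zok b : MM N G) ∈ W ∧ opair (nv G bok.zok b : MM N G) (nv G bok.zok a) ∈ R) ↔
      Ht G (Zf ψ σ b a) := by
    intro b a
    have hv : ∀ i, InN N ((![ck (Coh K) b, ck (Coh K) a] : Fin 2 → Nm (Coh K)) i) := by
      intro i
      fin_cases i
      · exact bok.zok.nat b
      · exact bok.zok.nat a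
    exact hψ ![ck (Coh K) b, ck (Coh K) a] hv
  have hD : ∀ (i : KK 𝔠) (hi : InT N i) (n b : ℕ),
      (opair (opair (cv G gI hi : MM N G) (nv G bok.zok n)) (nv G bok.zok b) ∈ D) ↔ Ht G (Df ψ' σ' i n b) := by
    intro i hi n b
    have hv : ∀ j, InN N ((![ck (Coh K) i, ck (Coh K) n, ck (Coh K) b] : Fin 3 → Nm (Coh K)) j) := by
      intro j
      fin_cases j
      · exact gI.nm i hi
      · exact bok.zok.nat n
      · exact bok.zok.nat b
    exact hψ' ![ck (Coh K) i, ck (Coh K) n, ck (Coh K) b] hv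
  obtain ⟨α, hα, hden, hE⟩ := gm.a k ψ σ hσ k' ψ' σ' hσ' w0'
  -- the Cohen function
  have hcT := gm.c α hα
  set c : MM N G := vl G (sok.nm _ hcT) with hcdef
  have hmc : ∀ z : MM N G, z ∈ c ↔ ∃ i j : ℕ, z = opair (nv G bok.zok i : MM N G) (nv G bok.zok j) ∧
      Ht G (CN α i j) := by
    intro z
    rw [hcdef, mem_sq bok sok gen hcT z]
    simp only [Nat.unpair_pair]
  have hex : ∀ n : ℕ, ∃ k, Ht G (CN α n k) := by
    intro n
    obtain ⟨q, hq, k, hk⟩ := gen.gen _ (gm.u α hα n) (cn_dense α n)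
    exact ⟨k, q, hq, hk⟩
  have huq : ∀ n k k' : ℕ, Ht G (CN α n k) → Ht G (CN α n k') → k = k' := by
    rintro n k k' ⟨p, hp, hp1⟩ ⟨q, hq, hq1⟩
    obtain ⟨r, hr, h1, h2⟩ := gen.dir p hp q hq
    exact cn_uniq (cn_opn _ _ _ p hp1 r h1) (cn_opn _ _ _ q hq1 r h2)
  have hapc : ∀ n k : ℕ, Ht G (CN α n k) → app c (nv G bok.zok n : MM N G) = nv G bok.zok k := by
    intro n k hk
    refine app_eq ⟨nv G bok.zok k, (hmc _).2 ⟨n, k, rfl, hk⟩, ?_⟩ ((hmc _).2 ⟨n, k, rfl, hk⟩)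
    intro y hy
    obtain ⟨i, j, h1, h2⟩ := (hmc _).1 hy
    rw [opair_inj] at h1
    have h3 : n = i := nv_inj htop h1.1
    subst h3
    rw [h1.2, huq n k j hk h2]
  -- the recursion
  have hFn : Fn2 (fun n y : MM N G => iteM (app c n ∈ W ∧ opair (app c n) y ∈ R) (app c n) y) := by
    infer_instance
  obtain ⟨f, hf, hf0, hfs⟩ := omega_rec w0 (fun n y : MM N G => iteM (app c n ∈ W ∧ opair (app c n) y ∈ R) (app c n) y)
  have hfW : ∀ n : MM N G, n ∈ (omega : MM N G) → app f n ∈ W := by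
    refine omega_induction (fun n => app f n ∈ W) ?_ ?_
    · rw [hf0]; exact hw0
    · intro n hn ih
      rw [hfs n hn]
      by_cases h : app c n ∈ W ∧ opair (app c n) (app f n) ∈ R
      · rw [iteM_pos h]; exact h.1
      · rw [iteM_neg h]; exact ih
  have hfR : ∀ n : MM N G, n ∈ (omega : MM N G) → app f (suc n) = app f n ∨ opair (app f (suc n)) (app f n) ∈ R := by
    intro n hn
    rw [hfs n hn]
    by_cases h : app c n ∈ W ∧ opair (app c n) (app f n) ∈ R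
    · rw [iteM_pos h]; exact Or.inr h.2
    · rw [iteM_neg h]; exact Or.inl rfl
  have hrun : ∀ q ∈ G, ∀ M a, Run α w0' (Zf ψ σ) q M a → app f (nv G bok.zok M : MM N G) = nv G bok.zok a := by
    intro q hq M a hr
    induction hr with
    | zero => rw [← hzero, hf0, hw0']
    | @move M a k _ hck hz ih =>
      rw [← hsuc, hfs _ (hnom M), hapc M k ⟨q, hq, hck⟩, ih]
      exact iteM_pos ((hZ k a).2 ⟨q, hq, hz⟩) _ _
    | @stay M a k _ hck hz ih =>
      rw [← hsuc, hfs _ (hnom M), hapc M k ⟨q, hq, hck⟩, ih]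
      refine iteM_neg (fun h => ?_) _ _
      obtain ⟨p, hp, hp1⟩ := (hZ k a).1 h
      obtain ⟨r, hr, h1, h2⟩ := gen.dir p hp q hq
      exact hz r h2 ((zf_reg ψ σ k a).1 p hp1 r h1)
  refine ⟨f, hf, hfW, hfR, ?_⟩
  intro i n hi hn
  obtain ⟨i', hi', rfl⟩ := (mem_cT gI htop).mp hi
  obtain ⟨n', rfl⟩ := (hom n).1 hn
  obtain ⟨q, hq, M, a, hr, hq1⟩ := gen.gen _ (hE i' hi' n') (fun p => by
    obtain ⟨q, h1, h2⟩ := hden i' n' p
    exact ⟨q, h2, h1⟩)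
  have hfa := hrun q hq M a hr
  refine ⟨nv G bok.zok M, hnom M, ?_⟩
  rw [hfa]
  rcases hq1 with hq1 | hq1
  · exact (hD i' hi' n' a).2 ⟨q, hq, hq1⟩
  · exfalso
    have haW : (nv G bok.zok a : MM N G) ∈ W := by
      rw [← hfa]; exact hfW _ (hnom M)
    obtain ⟨b, hbW, hbR, hbD⟩ := hmov _ _ _ hi hn haW
    obtain ⟨b', rfl⟩ := (hom b).1 (hW _ hbW)
    obtain ⟨p1, hp1, hp2⟩ := (hZ b' a).1 ⟨hbW, hbR⟩
    obtain ⟨p3, hp3, hp4⟩ := (hD i' hi' n' b').1 hbD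
    obtain ⟨r1, hr1, h1, h2⟩ := gen.dir p1 hp1 p3 hp3
    obtain ⟨r, hr, h3, h4⟩ := gen.dir r1 hr1 q hq
    exact hq1 b' r h4 ⟨(zf_reg ψ σ b' a).1 p1 hp2 r (h3.trans h1), (df_reg ψ' σ' i' n' b').1 p3 hp4 r (h3.trans h2)⟩

end Pool.Agent.COH
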