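import Pool.Agent.COH.Brd
import Pool.Agent.COH.FrM
import Pool.Agent.COH.GnM
import Pool.Agent.COH.CdM
import Pool.Agent.H55.Sig.Hz2

set_option autoImplicit false
set_option linter.all false

/-!
# Mn: the Cohen model
-/

namespace Pool.Agent.COH

open FirstOrder FirstOrder.Language Pool.Agent.H55.SC Pool.Agent.H55.CS Pool.Agent.H55.ZFU Pool.Agent.H55.Lav
open Pool.Agent.TPM Cardinal
open Pool.Agent.H12.Thread (KK Om mk_Om)

theorem main_no : ∃ (M : Type 1) (E : M → M → Prop), Countable M ∧ WellFounded E ∧ ZFC E ∧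
    ∃ w, IsOmega E w ∧ HurewiczGroupsSigmaCompact E w := by
  set K : Type := Om 𝔠 with hKdef
  have hK : 𝔠 < #K := by
    rw [mk_Om]; exact Order.lt_succ _
  obtain ⟨N, hcount, bok, gI, h1, h2, h3, G, gen⟩ := ((club_countable (Ω := Un (Coh K))).and
    ((TPM.bok_club (Q := Coh K)).and ((TPM.gok_club (KK 𝔠)).and ((frM_club K).and ((gnM_club hK).and
      ((cdM_club (Coh K)).and Pool.Agent.H55.Sig.exists_genF)))))).exists
  have htop := top_mem bok.ok gen
  letI := mdl bok.ok bok.fok bok.zok gen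
  haveI : Pool.Agent.H55.ZFU.Pure (MM N G) := zPure (zf bok.ok bok.fok bok.zok gen)
  have hch := choice_ax bok.ok bok.fok bok.zok bok.aok gen
  haveI : Choice (MM N G) := Pool.Agent.H55.Hz.choice_of hch
  obtain ⟨g, pr, p1, p2, hc⟩ := h3 bok G gen
  refine ⟨MM N G, EE, ?_, ?_, hch, omega, omega_iff.mpr rfl, ?_⟩
  · have h1 : {τ : Nm (Coh K) | InN N τ}.Countable := hcount.preimage_of_injOn uN_inj.injOn
    have h2 : Countable {τ : Nm (Coh K) | InN N τ} := h1.to_subtype
    refine Function.Surjective.countable (f := fun τ : {τ : Nm (Coh K) | InN N τ} => (vl G τ.2 : MM N G)) ?_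
    rintro ⟨x, τ, hτ, rfl⟩
    exact ⟨⟨τ, hτ⟩, rfl⟩
  · exact InvImage.wf Subtype.val ZFSet.mem_wf
  · exact hurewicz_groups hc (h1 bok gI G gen) (h2 bok gI G gen)

end Pool.Agent.COH
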