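import Pool.Agent.COH.Unf

set_option autoImplicit false
set_option linter.all false

/-!
# Quo: quotients of compact sets are compact (difficulty 3)

PROOF. Let `D = img (prod K L) (fun p => app dv p)`; `z ∈ D ↔ ∃ x ∈ K, ∃ y ∈ L, z = app dv (opair x y)` (`mem_img`, `mem_prod`).
`D ⊆ X` by `Dv.mem`. Let `Z` cover `D`. Let `Cov l z = ∃ m, m ∈ Z ∧ m ∈ l ∧ In B m z` (monotone in `l ∈ omega`).
(1) For `x ∈ K` there are `l ∈ omega` with: `Nb N x x' l` and `y ∈ L` imply `Cov l (app dv (opair x' y))`. Apply `cc_unif` to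
`L` and `P b l = ∀ x' y', Nb N x x' l → In B b y' → Cov l (app dv (opair x' y'))` (monotone by `UPol.mono`). For `y ∈ L` take
`m ∈ Z` with `In B m (app dv (opair x y))`, `k` from `Spc.opn`, `l1` from `Dv.cont`, `b` from `Spc.small` for `y`, `l1`, and
`l ∈ omega` with `l1 ∈ l`, `m ∈ l` (`nat_bd`; `m ∈ omega` by `Spc.mem`). The result of `cc_unif` is what we need
(`In B b y` for `y ∈ L`).
(2) Apply `cc_unif` to `K` and `P b l = ∀ x' y, In B b x' → y ∈ L → Cov l (app dv (opair x' y))`: for `x ∈ K` take `l` from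
(1) and `b` from `Spc.small` for `x`, `l`. The result is `l` with `Cov l z` for all `z ∈ D`; take `n = l`.
-/

namespace Pool.Agent.COH

open Pool.Agent.H55.SC Pool.Agent.H55.ZFU

universe u

variable {M : Type u} [Model M] [Pure M] {X u N B dv : M}

theorem cc_quot (h : Spc X u N B) (hd : Dv X N dv) {K L : M} (hK : CC X B K) (hL : CC X B L) :
    CC X B (img (prod K L) (fun p => app dv p)) := by
  have hD : ∀ z : M, z ∈ img (prod K L) (fun p => app dv p) → ∃ x y : M, x ∈ K ∧ y ∈ L ∧ z = app dv (opair x y) := by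
    intro z hz
    rw [mem_img] at hz
    obtain ⟨p, hp, rfl⟩ := hz
    rw [mem_prod] at hp
    obtain ⟨x, hx, y, hy, rfl⟩ := hp
    exact ⟨x, y, hx, hy, rfl⟩
  have hD' : ∀ x y : M, x ∈ K → y ∈ L → app dv (opair x y) ∈ img (prod K L) (fun p => app dv p) := by
    intro x y hx hy
    rw [mem_img]
    exact ⟨opair x y, opair_mem_prod.2 ⟨hx, hy⟩, rfl⟩
  refine ⟨?_, ?_⟩
  · intro z hz
    obtain ⟨x, y, hx, hy, rfl⟩ := hD z hz
    exact hd.mem x y (hK.1 x hx) (hL.1 y hy)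
  · intro Z hZ
    have step1 : ∀ x : M, x ∈ K → ∃ l : M, l ∈ (omega : M) ∧ ∀ x' y : M, Nb N x x' l → y ∈ L →
        ∃ m : M, m ∈ Z ∧ m ∈ l ∧ In B m (app dv (opair x' y)) := by
      intro x hx
      obtain ⟨l, hl, hl2⟩ := cc_unif h hL (fun b l : M => ∀ x' y' : M, Nb N x x' l → In B b y' →
        ∃ m : M, m ∈ Z ∧ m ∈ l ∧ In B m (app dv (opair x' y'))) (by
          intro b l l' hl' hle hP x' y' hx' hy'
          obtain ⟨m, hm1, hm2, hm3⟩ := hP x' y' (h.pol.mono hl' hle hx') hy'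
          exact ⟨m, hm1, lt_of_lt_of_le' hl' hm2 hle, hm3⟩) (by
          intro y hy
          obtain ⟨m, hm1, hm2⟩ := hZ _ (hD' x y hx hy)
          obtain ⟨k, hk, hk2⟩ := h.opn m _ hm2
          obtain ⟨l1, hl1, hl1b⟩ := hd.cont x y k (hK.1 x hx) (hL.1 y hy) hk
          obtain ⟨b, hb1, hb2⟩ := h.small y l1 (hL.1 y hy) hl1
          obtain ⟨l, hl, h1, h2⟩ := nat_bd hl1 (h.mem _ _ hm2).1
          refine ⟨b, l, hb1, hl, ?_⟩
          intro x' y' hx' hy'
          refine ⟨m, hm1, h2, ?_⟩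
          exact hk2 _ (hl1b x' y' (h.pol.mono hl (Le.of_mem h1) hx') (hb2 y' hy')))
      refine ⟨l, hl, ?_⟩
      intro x' y hx' hy
      obtain ⟨b, hb1, hb2⟩ := hl2 y hy
      exact hb2 x' y hx' hb1
    obtain ⟨l, hl, hl2⟩ := cc_unif h hK (fun b l : M => ∀ x' y : M, In B b x' → y ∈ L →
        ∃ m : M, m ∈ Z ∧ m ∈ l ∧ In B m (app dv (opair x' y))) (by
          intro b l l' hl' hle hP x' y hx' hy
          obtain ⟨m, hm1, hm2, hm3⟩ := hP x' y hx' hy
          exact ⟨m, hm1, lt_of_lt_of_le' hl' hm2 hle, hm3⟩) (by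
          intro x hx
          obtain ⟨l, hl, hl2⟩ := step1 x hx
          obtain ⟨b, hb1, hb2⟩ := h.small x l (hK.1 x hx) hl
          exact ⟨b, l, hb1, hl, fun x' y hx' hy => hl2 x' y (hb2 x' hx') hy⟩)
    refine ⟨l, hl, ?_⟩
    intro z hz
    obtain ⟨x, y, hx, hy, rfl⟩ := hD z hz
    obtain ⟨b, hb1, hb2⟩ := hl2 x hx
    exact hb2 x y hb1 hy

end Pool.Agent.COH
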