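import Pool.Agent.COH.StA
import Pool.Agent.COH.CsT
import Pool.Agent.COH.Quo

set_option autoImplicit false
set_option linter.all false

/-!
# Phi: the function used for closing off (difficulty 2)

PROOF. Let `S'` be given by `stA` for `S`. Let `one = suc ∅`. Let `U` be the set of all pairs `opair n m`, `n, m ∈ omega`,
such that either `app p1 n = ∅` and `opair (app p2 n) m ∈ S'`, or `app p1 n ≠ ∅` and
`∃ x, x ∈ Cs X B (row S (app p1 (app p2 n))) ∧ ∃ y, y ∈ Cs X B (row T (app p2 (app p2 n))) ∧ In B m (app dv (opair x y))`.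
(`sep (prod omega omega) ...`; `row` via `mem_row`, `ext`.)
So `row U (app pr (opair ∅ l)) = row S' l`, and for `n = app pr (opair one (app pr (opair k l)))` the row `row U n` is
`tr B (img (prod K L) (fun p => app dv p))` with `K = Cs X B (row S k)`, `L = Cs X B (row T l)` (`Cod`, `ext`, `mem_tr`,
`mem_img`, `mem_prod`).
First claim: take `l` for `y` from `stA`, `n = app pr (opair ∅ l)`.
Second claim: by `cc_quot` the set `D = img (prod K L) ..` is `CC`, so `Cs X B (row U n) = D` by `cs_tr_eq`; `D ⊆ H` by `hH`.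
-/

namespace Pool.Agent.COH

open Pool.Agent.H55.SC Pool.Agent.H55.ZFU

universe u

variable {M : Type u} [Model M] [Pure M] [Choice M] {X u N B g pr p1 p2 dv : M}

theorem phi (h : Spc X u N B) (hc : Cod g pr p1 p2) (hd : Dv X N dv) {Y H : M} (hY : Y ⊆ X) (hb : HB B Y)
    (hH : ∀ x y : M, x ∈ H → y ∈ H → app dv (opair x y) ∈ H) (S T : M) :
    ∃ U : M, U ⊆ prod (omega : M) omega ∧
      (∀ y : M, y ∈ Y → ∃ n : M, n ∈ (omega : M) ∧ (∀ m : M, In B m y → opair n m ∈ U) ∧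
        CC X B (Cs X B (row U n)) ∧
        ∀ k : M, k ∈ (omega : M) → (∀ m : M, m ∈ (omega : M) → opair k m ∈ S → opair n m ∈ U) →
          Cs X B (row S k) ⊆ Y) ∧
      ∀ k l : M, k ∈ (omega : M) → l ∈ (omega : M) → Gd X B H (row S k) → Gd X B H (row T l) →
        ∃ n : M, n ∈ (omega : M) ∧ Gd X B H (row U n) ∧
          ∀ x y : M, x ∈ Cs X B (row S k) → y ∈ Cs X B (row T l) → app dv (opair x y) ∈ Cs X B (row U n) := by
  obtain ⟨S', hS'sub, h1, h2, h3⟩ := stA h hc hY hb S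
  have hone : suc (∅ : M) ∈ (omega : M) := suc_mem_omega empty_mem_omega
  have hone' : suc (∅ : M) ≠ ∅ := suc_ne_empty ∅
  obtain ⟨U, hUsub, hU⟩ := stA_rel (fun n m : M => (app p1 n = ∅ ∧ opair (app p2 n) m ∈ S') ∨
    (app p1 n ≠ ∅ ∧ ∃ x : M, x ∈ Cs X B (row S (app p1 (app p2 n))) ∧ ∃ y : M,
      y ∈ Cs X B (row T (app p2 (app p2 n))) ∧ In B m (app dv (opair x y))))
  have hr0 : ∀ l m : M, l ∈ (omega : M) → (opair (app pr (opair ∅ l)) m ∈ U ↔ m ∈ (omega : M) ∧ opair l m ∈ S') := by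
    intro l m hl
    rw [hU, hc.p1_pr _ _ empty_mem_omega hl, hc.p2_pr _ _ empty_mem_omega hl]
    constructor
    · rintro ⟨_, hm, ⟨_, hh⟩ | ⟨hh, _⟩⟩
      · exact ⟨hm, hh⟩
      · exact absurd rfl hh
    · rintro ⟨hm, hh⟩
      exact ⟨hc.pr_mem _ _ empty_mem_omega hl, hm, Or.inl ⟨rfl, hh⟩⟩
  have hr0' : ∀ l : M, l ∈ (omega : M) → row U (app pr (opair ∅ l)) = row S' l := by
    intro l hl
    apply ext
    intro m
    rw [mem_row, mem_row, hr0 l m hl]
    exact ⟨fun hh => hh.2, fun hh => ⟨hh.1, hh⟩⟩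
  refine ⟨U, hUsub, ?_, ?_⟩
  · intro y hy
    obtain ⟨l, hl, hly⟩ := h1 y hy
    refine ⟨app pr (opair ∅ l), hc.pr_mem _ _ empty_mem_omega hl, ?_, ?_, ?_⟩
    · intro m hm
      exact (hr0 l m hl).2 ⟨(h.mem m y hm).1, hly m hm⟩
    · rw [hr0' l hl]; exact h2 l hl
    · intro k hk hsub
      exact h3 k l hk hl (fun m hm hmS => ((hr0 l m hl).1 (hsub m hm hmS)).2)
  · intro k l hk hl hGk hGl
    have hkl : app pr (opair k l) ∈ (omega : M) := hc.pr_mem _ _ hk hl
    have hD : CC X B (img (prod (Cs X B (row S k)) (Cs X B (row T l))) (fun p => app dv p)) :=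
      cc_quot h hd hGk.2 hGl.2
    have hrow : row U (app pr (opair (suc ∅) (app pr (opair k l)))) =
        tr B (img (prod (Cs X B (row S k)) (Cs X B (row T l))) (fun p => app dv p)) := by
      apply ext
      intro m
      rw [mem_row, mem_tr, hU, hc.p1_pr _ _ hone hkl, hc.p2_pr _ _ hone hkl, hc.p1_pr _ _ hk hl, hc.p2_pr _ _ hk hl]
      constructor
      · rintro ⟨hm, _, _, ⟨hh, _⟩ | ⟨_, x, hx, y, hy, hIn⟩⟩
        · exact absurd hh hone'
        · exact ⟨hm, app dv (opair x y), mem_img.2 ⟨opair x y, opair_mem_prod.2 ⟨hx, hy⟩, rfl⟩, hIn⟩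
      · rintro ⟨hm, z, hz, hIn⟩
        obtain ⟨p, hp, rfl⟩ := mem_img.1 hz
        obtain ⟨x, hx, y, hy, rfl⟩ := mem_prod.1 hp
        exact ⟨hm, hc.pr_mem _ _ hone hkl, hm, Or.inr ⟨hone', x, hx, y, hy, hIn⟩⟩
    have hCs : Cs X B (row U (app pr (opair (suc ∅) (app pr (opair k l))))) =
        img (prod (Cs X B (row S k)) (Cs X B (row T l))) (fun p => app dv p) := by
      rw [hrow]; exact cs_tr_eq h hD
    refine ⟨app pr (opair (suc ∅) (app pr (opair k l))), hc.pr_mem _ _ hone hkl, ?_, ?_⟩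
    · refine ⟨?_, ?_⟩
      · rw [hCs]
        intro z hz
        obtain ⟨p, hp, rfl⟩ := mem_img.1 hz
        obtain ⟨x, hx, y, hy, rfl⟩ := mem_prod.1 hp
        exact hH x y (hGk.1 x hx) (hGl.1 y hy)
      · rw [hCs]; exact hD
    · intro x y hx hy
      rw [hCs]
      exact mem_img.2 ⟨opair x y, opair_mem_prod.2 ⟨hx, hy⟩, rfl⟩

end Pool.Agent.COH
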