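import Pool.Agent.COH.VPre

set_option autoImplicit false

/-!
# Res: restrictions and supports (difficulty 2)

PROOF. The order is `q ≤ p ↔ p.pos ⊆ q.pos ∧ p.neg ⊆ q.neg` (definitional); equality of conditions by `pos` and `neg`
(prove a small ext lemma first, `Coh` is a structure). Everything is unfolding of `res`, `mix` and `Finset.mem_filter`.
`Reg.mix_mem`: `res A t ∈ S` and `mix A t q ≤ res A t`. `Reg.inter`: `p ∈ S → res C p ∈ S → res A (res C p) ∈ S`.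
`reg_rg`: routine (`rg (rg S) = rg S`: `⊇` because `rg S` is open and `S ⊆ rg S` for open `S`, `⊆` by the definition).
`sup_rg`: if `p ∈ rg S` and `q ≤ res A p`, put `q' = mix A q p`; `q ≤ res A p` gives `q' ≤ p`, so there is `r ≤ q'`, `r ∈ S`;
`res A r ∈ S` and `r ≤ q' ≤ res A q`; `mix A r q ≤ q` (because `r ≤ res A q`) and `mix A r q ≤ res A r`, so
`mix A r q ∈ S`.
-/

namespace Pool.Agent.COH

open Pool.Agent.TPM Cardinal Set

variable {K : Type}

theorem Res_ext {a b : Coh K} (h1 : a.pos = b.pos) (h2 : a.neg = b.neg) : a = b := by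
  cases a
  cases b
  simp only at h1 h2
  subst h1
  subst h2
  rfl

theorem Res_mp {A : Set K} {p : Coh K} {x : K × ℕ} : x ∈ (res A p).pos ↔ x ∈ p.pos ∧ x.1 ∈ A := by
  simp only [res, Finset.mem_filter]

theorem Res_mn {A : Set K} {p : Coh K} {x : K × ℕ} : x ∈ (res A p).neg ↔ x ∈ p.neg ∧ x.1 ∈ A := by
  simp only [res, Finset.mem_filter]

theorem Res_xp {A : Set K} {t q : Coh K} {x : K × ℕ} :
    x ∈ (mix A t q).pos ↔ (x ∈ t.pos ∧ x.1 ∈ A) ∨ (x ∈ q.pos ∧ x.1 ∉ A) := by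
  simp only [mix, Finset.mem_filter, Finset.mem_union]

theorem Res_xn {A : Set K} {t q : Coh K} {x : K × ℕ} :
    x ∈ (mix A t q).neg ↔ (x ∈ t.neg ∧ x.1 ∈ A) ∨ (x ∈ q.neg ∧ x.1 ∉ A) := by
  simp only [mix, Finset.mem_filter, Finset.mem_union]

theorem res_le (A : Set K) (p : Coh K) : p ≤ res A p := by
  exact ⟨fun x hx => (Res_mp.1 hx).1, fun x hx => (Res_mn.1 hx).1⟩

theorem res_mono (A : Set K) {p q : Coh K} (h : q ≤ p) : res A q ≤ res A p := by
  refine ⟨fun x hx => ?_, fun x hx => ?_⟩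
  · rw [Res_mp] at hx ⊢
    exact ⟨h.1 hx.1, hx.2⟩
  · rw [Res_mn] at hx ⊢
    exact ⟨h.2 hx.1, hx.2⟩

theorem res_res (A C : Set K) (p : Coh K) : res A (res C p) = res (A ∩ C) p := by
  refine Res_ext (Finset.ext fun x => ?_) (Finset.ext fun x => ?_)
  · simp only [Res_mp, Set.mem_inter_iff]
    tauto
  · simp only [Res_mn, Set.mem_inter_iff]
    tauto

theorem res_anti {A C : Set K} (h : A ⊆ C) (p : Coh K) : res C p ≤ res A p := by
  refine ⟨fun x hx => ?_, fun x hx => ?_⟩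
  · rw [Res_mp] at hx ⊢
    exact ⟨hx.1, h hx.2⟩
  · rw [Res_mn] at hx ⊢
    exact ⟨hx.1, h hx.2⟩

theorem res_mix (A : Set K) (t q : Coh K) : res A (mix A t q) = res A t := by
  refine Res_ext (Finset.ext fun x => ?_) (Finset.ext fun x => ?_)
  · simp only [Res_mp, Res_xp]
    tauto
  · simp only [Res_mn, Res_xn]
    tauto

theorem mix_le_res (A : Set K) (t q : Coh K) : mix A t q ≤ res A t := by
  refine ⟨fun x hx => ?_, fun x hx => ?_⟩
  · rw [Res_mp] at hx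
    rw [Res_xp]
    exact Or.inl hx
  · rw [Res_mn] at hx
    rw [Res_xn]
    exact Or.inl hx

theorem res_compl_mix (A : Set K) (t q : Coh K) : res Aᶜ (mix A t q) = res Aᶜ q := by
  refine Res_ext (Finset.ext fun x => ?_) (Finset.ext fun x => ?_)
  · simp only [Res_mp, Res_xp, Set.mem_compl_iff]
    tauto
  · simp only [Res_mn, Res_xn, Set.mem_compl_iff]
    tauto

theorem mix_le_right {A : Set K} {t q : Coh K} (h : t ≤ res A q) : mix A t q ≤ q := by
  refine ⟨fun x hx => ?_, fun x hx => ?_⟩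
  · rw [Res_xp]
    by_cases hA : x.1 ∈ A
    · exact Or.inl ⟨h.1 (Res_mp.2 ⟨hx, hA⟩), hA⟩
    · exact Or.inr ⟨hx, hA⟩
  · rw [Res_xn]
    by_cases hA : x.1 ∈ A
    · exact Or.inl ⟨h.2 (Res_mn.2 ⟨hx, hA⟩), hA⟩
    · exact Or.inr ⟨hx, hA⟩

theorem mix_le_left {A : Set K} {t q : Coh K} (h : q ≤ res Aᶜ t) : mix A t q ≤ t := by
  refine ⟨fun x hx => ?_, fun x hx => ?_⟩
  · rw [Res_xp]
    by_cases hA : x.1 ∈ A
    · exact Or.inl ⟨hx, hA⟩
    · exact Or.inr ⟨h.1 (Res_mp.2 ⟨hx, hA⟩), hA⟩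
  · rw [Res_xn]
    by_cases hA : x.1 ∈ A
    · exact Or.inl ⟨hx, hA⟩
    · exact Or.inr ⟨h.2 (Res_mn.2 ⟨hx, hA⟩), hA⟩

theorem mix_mono {A : Set K} {t t' q q' : Coh K} (h : t' ≤ t) (h' : q' ≤ q) : mix A t' q' ≤ mix A t q := by
  refine ⟨fun x hx => ?_, fun x hx => ?_⟩
  · rw [Res_xp] at hx ⊢
    exact hx.imp (fun hh => ⟨h.1 hh.1, hh.2⟩) (fun hh => ⟨h'.1 hh.1, hh.2⟩)
  · rw [Res_xn] at hx ⊢
    exact hx.imp (fun hh => ⟨h.2 hh.1, hh.2⟩) (fun hh => ⟨h'.2 hh.1, hh.2⟩)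

theorem mix_res_left (A : Set K) (t q : Coh K) : mix A (res A t) q = mix A t q := by
  refine Res_ext (Finset.ext fun x => ?_) (Finset.ext fun x => ?_)
  · simp only [Res_mp, Res_xp]
    tauto
  · simp only [Res_mn, Res_xn]
    tauto

theorem Reg.mix_mem {A : Set K} {S : Set (Coh K)} (h : Reg A S) {t : Coh K} (ht : t ∈ S) (q : Coh K) :
    mix A t q ∈ S := by
  exact h.opn _ (h.sup t ht) _ (mix_le_res A t q)

theorem Reg.mono {A C : Set K} {S : Set (Coh K)} (h : Reg A S) (hAC : A ⊆ C) : Reg C S := by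
  exact ⟨h.opn, h.rg, fun p hp => h.opn _ (h.sup p hp) _ (res_anti hAC p)⟩

theorem Reg.inter {A C : Set K} {S : Set (Coh K)} (h : Reg A S) (h' : Reg C S) : Reg (A ∩ C) S := by
  refine ⟨h.opn, h.rg, fun p hp => ?_⟩
  rw [← res_res]
  exact h.sup _ (h'.sup p hp)

theorem reg_rg {P : Type} [Preorder P] {S : Set P} (hS : Opn S) : Opn (rg S) ∧ rg (rg S) = rg S ∧ S ⊆ rg S := by
  have h1 : Opn (rg S) := fun p hp q hq r hr => hp r (hr.trans hq)
  have h2 : S ⊆ rg S := fun p hp q hq => ⟨q, le_refl q, hS p hp q hq⟩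
  refine ⟨h1, Set.Subset.antisymm ?_ ?_, h2⟩
  · intro p hp q hq
    obtain ⟨r, hr, hr'⟩ := hp q hq
    obtain ⟨s, hs, hs'⟩ := hr' r (le_refl r)
    exact ⟨s, hs.trans hr, hs'⟩
  · intro p hp q hq
    exact ⟨q, le_refl q, h1 p hp q hq⟩

theorem sup_rg {A : Set K} {S : Set (Coh K)} (hS : Opn S) (hA : ∀ p ∈ S, res A p ∈ S) : Reg A (rg S) := by
  obtain ⟨h1, h2, h3⟩ := reg_rg hS
  refine ⟨h1, h2, fun p hp q hq => ?_⟩
  obtain ⟨r, hr, hrS⟩ := hp (mix A q p) (mix_le_right hq)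
  have hr1 : r ≤ res A q := by
    have h4 : mix A q p ≤ res A (mix A q p) := res_le A _
    rw [res_mix] at h4
    exact hr.trans h4
  exact ⟨mix A r q, mix_le_right hr1, hS _ (hA r hrS) _ (mix_le_res A r q)⟩

/-- `{q | ∃ k ≤ n, ...}`: the rows of a name with the support `A` have the support `A`. -/
theorem rw_reg {A : Set K} {B : ℕ → Set (Coh K)} (h : B ∈ Nam A) (n : ℕ) : rw B n ∈ Nam A := by
  exact fun m => h _

end Pool.Agent.COH
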