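import Pool.Agent.COH.Base

set_option autoImplicit false
set_option linter.all false

/-!
# Sp: a countable base (difficulty 2)

PROOF. `B = sep (prod omega X) (fun p => Nb N (app u (app p1 (fst p))) (snd p) (app p2 (fst p)))`, so
`In B m x ↔ (m ∈ omega ∧ x ∈ X) ∧ Nb N (app u (app p1 m)) x (app p2 m)`. `opn`: `UPol.opn` (`app p2 m ∈ omega` by
`Cod.p2_mem`). `small`: given `x`, `k`, by `UPol.dense` there is `a ∈ omega` with `Nb N x (app u a) (suc k)`; take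
`m = app pr (opair a (suc k))`; `UPol.symm`, `UPol.comp`. The last statement: `PolTop.top` and `opn`
(`mem_sep`; the set is included in `X`).
-/

namespace Pool.Agent.COH

open Pool.Agent.H55.SC Pool.Agent.H55.ZFU

universe u

variable {M : Type u} [Model M] [Pure M]

theorem exists_spc {X τ u N g pr p1 p2 : M} (h : PolTop X τ u N) (hc : Cod g pr p1 p2) :
    ∃ B : M, Spc X u N B ∧ ∀ m : M, m ∈ (omega : M) → sep X (fun x => In B m x) ∈ τ := by
  obtain ⟨B, hB⟩ : ∃ B : M, B = sep (prod (omega : M) X)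
      (fun p : M => Nb N (app u (app p1 (fst p))) (snd p) (app p2 (fst p))) := ⟨_, rfl⟩
  have hIn : ∀ m x : M, In B m x ↔ (m ∈ (omega : M) ∧ x ∈ X) ∧ Nb N (app u (app p1 m)) x (app p2 m) := by
    intro m x
    unfold In
    rw [hB, mem_sep, opair_mem_prod, fst_opair, snd_opair]
  have hU := h.upol
  have hopn : ∀ m x : M, In B m x → ∃ l : M, l ∈ (omega : M) ∧ ∀ z : M, Nb N x z l → In B m z := by
    intro m x hm
    obtain ⟨⟨hmω, hx⟩, hN⟩ := (hIn m x).1 hm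
    obtain ⟨l, hl, hl'⟩ := hU.opn _ _ _ (hc.p2_mem m hmω) hN
    exact ⟨l, hl, fun z hz => (hIn m z).2 ⟨⟨hmω, (hU.mem _ _ _ hz).2⟩, hl' z hz⟩⟩
  refine ⟨B, ⟨hU, fun m x hm => ((hIn m x).1 hm).1, hopn, ?_⟩, ?_⟩
  · intro x k hx hk
    have hk1 : suc k ∈ (omega : M) := suc_mem_omega hk
    obtain ⟨a, ha, hN⟩ := hU.dense x (suc k) hx hk1
    refine ⟨app pr (opair a (suc k)), (hIn _ _).2 ⟨⟨hc.pr_mem a (suc k) ha hk1, hx⟩, ?_⟩, ?_⟩
    · rw [hc.p1_pr a (suc k) ha hk1, hc.p2_pr a (suc k) ha hk1]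
      exact hU.symm _ _ _ hN
    · intro z hz
      have h2 := ((hIn _ _).1 hz).2
      rw [hc.p1_pr a (suc k) ha hk1, hc.p2_pr a (suc k) ha hk1] at h2
      exact hU.comp _ _ _ k hk hN h2
  · intro m hm
    rw [h.top]
    refine ⟨fun x hx => (mem_sep.1 hx).1, ?_⟩
    intro x hx
    obtain ⟨l, hl, hl'⟩ := hopn m x (mem_sep.1 hx).2
    refine ⟨l, hl, fun y hy => mem_sep.2 ⟨(hU.mem _ _ _ hy).2, hl' y hy⟩⟩

end Pool.Agent.COH
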