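import Pool.Agent.COH.Bd

set_option autoImplicit false
set_option linter.all false

/-!
# Tb: closed totally bounded sets are compact (difficulty 3)

PROOF. Let `Z` cover `F` and suppose that there is no `n` as required for `F`. For `C : M` let
`Fin C = ∃ n, n ∈ omega ∧ ∀ x, x ∈ C → ∃ m, m ∈ Z ∧ m ∈ n ∧ In B m x`; so `¬ Fin F`.
(1) If `C ⊆ F`, `¬ Fin C` and `k ∈ omega` then there is `a ∈ omega` with `¬ Fin (sep C (fun x => Nb N (app u a) x k))`:
otherwise take `n` from `hT k` and apply `bd_nat` to `P a l = ∀ x, x ∈ C → Nb N (app u a) x k → ∃ m, m ∈ Z ∧ m ∈ l ∧ In B m x`.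
(2) Let `H k C = sep C (fun x => Nb N (app u (mu (fun a => a ∈ omega ∧ ¬ Fin (sep C (fun x => Nb N (app u a) x k))))) x k)` and
let `f` be the function with `app f ∅ = F`, `app f (suc k) = H k (app f k)` (`omega_rec`). By `omega_induction`
`app f k ⊆ F ∧ ¬ Fin (app f k)` for all `k` (`mu_spec`, `nat_ord`), and `app f k' ⊆ app f k` if `Le k k'` (induction on `k'`).
Any two points `x`, `y` of `app f (suc (suc k))` satisfy `Nb N x y k` (both are `suc k`-near to the same `app u a`).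
(3) `app f k` is not empty (`¬ Fin`), so there is a sequence `v` (function on `omega`) with `app v k ∈ app f k`: use
`wellorder (bigU (img omega (fun k => app f k)))` or `wellorder F` and `pick`, `pick_spec`. `UPol.complete` gives a limit
`x ∈ X`; `x ∈ F` by `Cl`. There is `m ∈ Z` with `In B m x` and `l ∈ omega` with `Nb N x z l → In B m z` (`Spc.opn`). Let
`k` be such that `k > suc l + 2` and `Nb N x (app v k) (suc l)`; then for all `z ∈ app f k` we have
`Nb N (app v k) z (suc l)`, so `Nb N x z l` and `In B m z`. So `Fin (app f k)` (with `n = suc m`), a contradiction.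
-/

namespace Pool.Agent.COH

open Pool.Agent.H55.SC Pool.Agent.H55.ZFU

universe u

variable {M : Type u} [Model M] [Pure M] [Choice M] {X u N B : M}

/-- finitely many members of `Z` cover `C` -/
def tb_Fin (Z B C : M) : Prop := ∃ n : M, n ∈ (omega : M) ∧ ∀ x : M, x ∈ C → ∃ m : M, m ∈ Z ∧ m ∈ n ∧ In B m x

instance tb_Fin_dfn {ι : Type} (Z B C : (ι → M) → M) [DFun Z] [DFun B] [DFun C] :
    Dfn (fun v => tb_Fin (Z v) (B v) (C v)) := by
  refine Dfn.comp3 (P := fun Z B C : M => tb_Fin Z B C) ?_ Z B C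
  unfold tb_Fin; infer_instance

/-- the part of `C` near `app u a` -/
noncomputable def tb_cut (N u a k C : M) : M := sep C (fun x => Nb N (app u a) x k)

instance tb_cut_dfun {ι : Type} (N u a k C : (ι → M) → M) [hN : DFun N] [hu : DFun u] [ha : DFun a] [hk : DFun k]
    [hC : DFun C] : DFun (fun v => tb_cut (N v) (u v) (a v) (k v) (C v)) := by
  have h1 := DFun.rename (κ := Option ι) some hN
  have h2 := DFun.rename (κ := Option ι) some hu
  have h3 := DFun.rename (κ := Option ι) some ha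
  have h4 := DFun.rename (κ := Option ι) some hk
  unfold tb_cut; infer_instance

theorem tb_mem_cut {N u a k C x : M} : x ∈ tb_cut N u a k C ↔ x ∈ C ∧ Nb N (app u a) x k := by
  rw [tb_cut, mem_sep]

/-- the least index of a part without a finite cover -/
noncomputable def tb_ix (Z B N u k C : M) : M :=
  mu (fun a => a ∈ (omega : M) ∧ ¬ tb_Fin Z B (tb_cut N u a k C))

instance tb_ix_dfun {ι : Type} (Z B N u k C : (ι → M) → M) [hZ : DFun Z] [hB : DFun B] [hN : DFun N] [hu : DFun u]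
    [hk : DFun k] [hC : DFun C] : DFun (fun v => tb_ix (Z v) (B v) (N v) (u v) (k v) (C v)) := by
  have h1 := DFun.rename (κ := Option ι) some hZ
  have h2 := DFun.rename (κ := Option ι) some hB
  have h3 := DFun.rename (κ := Option ι) some hN
  have h4 := DFun.rename (κ := Option ι) some hu
  have h5 := DFun.rename (κ := Option ι) some hk
  have h6 := DFun.rename (κ := Option ι) some hC
  unfold tb_ix; infer_instance

/-- the next set -/
noncomputable def tb_nx (Z B N u k C : M) : M := tb_cut N u (tb_ix Z B N u k C) k C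

instance tb_nx_dfun {ι : Type} (Z B N u k C : (ι → M) → M) [hZ : DFun Z] [hB : DFun B] [hN : DFun N] [hu : DFun u]
    [hk : DFun k] [hC : DFun C] : DFun (fun v => tb_nx (Z v) (B v) (N v) (u v) (k v) (C v)) := by
  unfold tb_nx; infer_instance

theorem tb_split (h : Spc X u N B) {F Z C k : M}
    (hT : ∀ k : M, k ∈ (omega : M) → ∃ n : M, n ∈ (omega : M) ∧ ∀ x : M, x ∈ F → ∃ a : M, a ∈ n ∧ Nb N (app u a) x k)
    (hC : C ⊆ F) (hk : k ∈ (omega : M)) (hf : ¬ tb_Fin Z B C) :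
    ∃ a : M, a ∈ (omega : M) ∧ ¬ tb_Fin Z B (tb_cut N u a k C) := by
  by_contra hcon
  push Not at hcon
  obtain ⟨n, hn, hn'⟩ := hT k hk
  obtain ⟨l, hl, hl'⟩ := bd_nat
    (fun a l : M => ∀ x : M, x ∈ C → Nb N (app u a) x k → ∃ m : M, m ∈ Z ∧ m ∈ l ∧ In B m x)
    (by
      intro a l l' hl' hle hP x hx hN
      obtain ⟨m, hm, hml, hB⟩ := hP x hx hN
      exact ⟨m, hm, lt_of_lt_of_le' hl' hml hle, hB⟩) n hn
    (by
      intro a ha
      obtain ⟨l, hl, hl'⟩ := hcon a (nat_mem_omega hn ha)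
      exact ⟨l, hl, fun x hx hN => hl' x (tb_mem_cut.2 ⟨hx, hN⟩)⟩)
  apply hf
  refine ⟨l, hl, fun x hx => ?_⟩
  obtain ⟨a, ha, hN⟩ := hn' x (hC x hx)
  exact hl' a ha x hx hN

theorem tb_ix_spec (h : Spc X u N B) {F Z C k : M}
    (hT : ∀ k : M, k ∈ (omega : M) → ∃ n : M, n ∈ (omega : M) ∧ ∀ x : M, x ∈ F → ∃ a : M, a ∈ n ∧ Nb N (app u a) x k)
    (hC : C ⊆ F) (hk : k ∈ (omega : M)) (hf : ¬ tb_Fin Z B C) : ¬ tb_Fin Z B (tb_nx Z B N u k C) := by
  obtain ⟨a, ha, ha'⟩ := tb_split h hT hC hk hf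
  exact (mu_spec (fun a => a ∈ (omega : M) ∧ ¬ tb_Fin Z B (tb_cut N u a k C)) ⟨a, nat_ord ha, ha, ha'⟩).2.1.2

theorem cc_of_tb (h : Spc X u N B) {F : M} (hF : Cl X N F)
    (hT : ∀ k : M, k ∈ (omega : M) → ∃ n : M, n ∈ (omega : M) ∧ ∀ x : M, x ∈ F → ∃ a : M, a ∈ n ∧ Nb N (app u a) x k) :
    CC X B F := by
  refine ⟨hF.1, ?_⟩
  intro Z hZ
  by_contra hcon
  have hnF : ¬ tb_Fin Z B F := hcon
  obtain ⟨f, hf, hf0, hfs⟩ := omega_rec F (fun k C : M => tb_nx Z B N u k C)
  have hsub : ∀ k : M, k ∈ (omega : M) → app f (suc k) ⊆ app f k := by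
    intro k hk x hx
    rw [hfs k hk] at hx
    exact (tb_mem_cut.1 hx).1
  have hind : ∀ k : M, k ∈ (omega : M) → app f k ⊆ F ∧ ¬ tb_Fin Z B (app f k) := by
    refine omega_induction (fun k : M => app f k ⊆ F ∧ ¬ tb_Fin Z B (app f k)) ?_ ?_
    · rw [hf0]
      exact ⟨Sub.refl F, hnF⟩
    · intro k hk ih
      refine ⟨fun x hx => ih.1 x (hsub k hk x hx), ?_⟩
      rw [hfs k hk]
      exact tb_ix_spec h hT ih.1 hk ih.2
  have hmono : ∀ k' : M, k' ∈ (omega : M) → ∀ k : M, Le k k' → app f k' ⊆ app f k := by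
    refine omega_induction (fun k' : M => ∀ k : M, Le k k' → app f k' ⊆ app f k) ?_ ?_
    · intro k hk
      rcases hk with hk | rfl
      · simp at hk
      · exact Sub.refl _
    · intro k' hk' ih k hk
      rcases hk with hk | rfl
      · exact Sub.trans (hsub k' hk') (ih k (mem_suc.1 hk))
      · exact Sub.refl _
  have hnear : ∀ k : M, k ∈ (omega : M) → ∀ x y : M, x ∈ app f (suc (suc k)) → y ∈ app f (suc (suc k)) →
      Nb N x y k := by
    intro k hk x y hx hy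
    rw [hfs _ (suc_mem_omega hk)] at hx hy
    exact h.pol.comp _ _ _ k hk (h.pol.symm _ _ _ (tb_mem_cut.1 hx).2) (tb_mem_cut.1 hy).2
  have hne : ∀ k : M, k ∈ (omega : M) → ∃ x : M, x ∈ app f k := by
    intro k hk
    by_contra hc
    push Not at hc
    exact (hind k hk).2 ⟨∅, by simp, fun x hx => (hc x hx).elim⟩
  obtain ⟨θ, g, hθ, hg, hgF, _, hgs⟩ := wellorder F
  obtain ⟨v, hv⟩ : ∃ v : M, v = lam omega (fun k : M => pick θ g (fun x : M => x ∈ app f k)) := ⟨_, rfl⟩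
  have hvm : ∀ k : M, k ∈ (omega : M) → app v k ∈ app f k := by
    intro k hk
    rw [hv, app_lam hk]
    obtain ⟨x, hx⟩ := hne k hk
    obtain ⟨i, hi, hix⟩ := hgs x ((hind k hk).1 x hx)
    exact pick_spec hθ (fun x : M => x ∈ app f k) ⟨i, hi, by rw [hix]; exact hx⟩
  have hvX : ∀ k : M, k ∈ (omega : M) → app v k ∈ X := fun k hk => hF.1 _ ((hind k hk).1 _ (hvm k hk))
  obtain ⟨x, hxX, hx⟩ := h.pol.complete v (by rw [hv]; exact lam_fnOn _ _) hvX (by
    intro k hk
    refine ⟨suc (suc k), suc_mem_omega (suc_mem_omega hk), ?_⟩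
    intro m m' hm hm' hkm hkm'
    exact hnear k hk _ _ (hmono m hm _ (Or.inl hkm) _ (hvm m hm)) (hmono m' hm' _ (Or.inl hkm') _ (hvm m' hm')))
  have hxF : x ∈ F := by
    refine hF.2 x hxX ?_
    intro k hk
    obtain ⟨n, hn, hn'⟩ := hx k hk
    have hs := suc_mem_omega hn
    exact ⟨app v (suc n), (hind _ hs).1 _ (hvm _ hs), hn' _ hs (by simp)⟩
  obtain ⟨m, hmZ, hmB⟩ := hZ x hxF
  obtain ⟨l, hl, hl'⟩ := h.opn m x hmB
  obtain ⟨n, hn, hn'⟩ := hx (suc l) (suc_mem_omega hl)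
  obtain ⟨p, hp, hp1, hp2⟩ := nat_bd hn (suc_mem_omega (suc_mem_omega (suc_mem_omega hl)))
  refine (hind p hp).2 ⟨suc m, suc_mem_omega (h.mem m x hmB).1, ?_⟩
  intro z hz
  refine ⟨m, hmZ, by simp, hl' z ?_⟩
  have h1 : Nb N x (app v p) (suc l) := hn' p hp hp1
  have h2 : Nb N (app v p) z (suc l) :=
    hnear (suc l) (suc_mem_omega hl) _ _ (hmono p hp _ (Or.inl hp2) _ (hvm p hp)) (hmono p hp _ (Or.inl hp2) _ hz)
  exact h.pol.comp _ _ _ l hl h1 h2

end Pool.Agent.COH
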