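import Pool.Agent.COH.Cs1
import Pool.Agent.COH.Tb

set_option autoImplicit false
set_option linter.all false

/-!
# StA: closed sets covering the Hurewicz set (difficulty 3)

PROOF. Write `C k = Cs X B (row S k)`.
(1) There is a function `d` (element of the model) with `app d k ∈ C k` and `app d k ∉ Y` for all `k ∈ omega` with
`¬ C k ⊆ Y`: let `θ`, `f` be given by `wellorder X` and
`d = lam omega (fun k => pick θ f (fun x => x ∈ C k ∧ x ∉ Y))` (`pick_spec`).
(2) Let `Cc` be the set of all pairs `opair i m`, `i, m ∈ omega`, such that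
(a) `∀ z z', In B m z → In B m z' → Nb N z z' i` and
(b) `¬ C (app p1 i) ⊆ Y → ∃ t, t ∈ omega ∧ ∀ z, In B m z → ¬ Nb N (app d (app p1 i)) z t`.
(`sep (prod omega omega) (fun p => ... fst p ... snd p ...)`.) For `i ∈ omega`, `y ∈ Y` there is `m` with `opair i m ∈ Cc`,
`In B m y`: if `¬ C (app p1 i) ⊆ Y` then `app d (app p1 i) ≠ y`, so `¬ Nb N (app d (app p1 i)) y t0` for some `t0`
(`UPol.sep`), put `t = suc t0`; take a natural number `k` above `suc i` and `suc t0` (`nat_bd`) and `m` from `Spc.small`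
for `y`, `k` (`UPol.comp`, `UPol.symm`, `UPol.mono`). Let `h` be given by `hb` for `Cc`.
(3) Let `Kx n x = ∀ i, i ∈ omega → Le n i → ∃ m, m ∈ app h i ∧ opair i m ∈ Cc ∧ In B m x` and
`S' = sep (prod omega omega) (fun p => ∃ x, Kx (fst p) x ∧ In B (snd p) x)`. So for `n, m ∈ omega`:
`opair n m ∈ S' ↔ ∃ x, Kx n x ∧ In B m x`.
First claim: for `y ∈ Y` there is `n` with `Kx n y`, and then `opair n m ∈ S'` for all `m` with `In B m y`.
Third claim: let `row S k ⊆ row S' n` (in the form of the hypothesis) and suppose `¬ C k ⊆ Y`; `e = app d k ∈ C k`. By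
`Cod.p1_cof` there is `i ∈ omega` with `n ∈ i`, `app p1 i = k`. By (b) and `bd_nat` (for
`P m t = (opair i m ∈ Cc → ∀ z, In B m z → ¬ Nb N e z t)`, `m ∈ app h i`) there is one `t` for all `m ∈ app h i`, so
`¬ Nb N e x t` whenever `Kx n x`. But `Spc.small` gives `m` with `In B m e` and `In B m z → Nb N e z t`; `m ∈ row S k`, so
`opair n m ∈ S'`: there is `x` with `Kx n x`, `In B m x`, a contradiction.
Second claim: let `n ∈ omega` and `F = Cs X B (row S' n)`, closed by `cs_closed`. Apply `cc_of_tb`: let `k ∈ omega`; take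
`i ∈ omega` above `n` and `suc (suc k)`. For every `m ∈ app h i` with `opair i m ∈ Cc` and `∃ z, In B m z` there is
`a ∈ omega` with `Nb N (app u a) z (suc (suc k))` for one such `z` (`UPol.dense`), hence
`Nb N (app u a) z' (suc k)` for all `z'` with `In B m z'` (by (a)). By `bd_nat` there is one `l` such that these `a` can be
taken in `l`. If `x ∈ F`, `Spc.small` for `suc k` gives `m0` with `In B m0 x`, `m0 ∈ row S' n`, so there is `x'` with
`Kx n x'`, `In B m0 x'`, `Nb N x x' (suc k)`; `x'` belongs to some basic set `m` as above, so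
`Nb N (app u a) x' (suc k)` and `Nb N (app u a) x k`.
-/

namespace Pool.Agent.COH

open Pool.Agent.H55.SC Pool.Agent.H55.ZFU

universe u

variable {M : Type u} [Model M] [Pure M] [Choice M] {X u N B g pr p1 p2 : M}

/-- Sets of pairs of natural numbers. -/
theorem stA_rel (P : M → M → Prop) [hP : Dfn2 P] : ∃ C : M, C ⊆ prod (omega : M) omega ∧
    ∀ i m : M, opair i m ∈ C ↔ i ∈ (omega : M) ∧ m ∈ (omega : M) ∧ P i m := by
  have iP : ∀ {ι : Type} (t s : (ι → M) → M) [DFun t] [DFun s], Dfn (fun v => P (t v) (s v)) :=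
    fun t s _ _ => Dfn.comp2 hP t s
  refine ⟨sep (prod omega omega) (fun p => P (fst p) (snd p)), fun p hp => (mem_sep.1 hp).1, ?_⟩
  intro i m
  rw [mem_sep, opair_mem_prod, fst_opair, snd_opair, and_assoc]

/-- A choice of points of the closed sets outside of `Y`. -/
theorem stA_d (X B Y S : M) : ∃ d : M, ∀ k : M, k ∈ (omega : M) → ¬ (Cs X B (row S k) ⊆ Y) →
    app d k ∈ Cs X B (row S k) ∧ app d k ∉ Y := by
  obtain ⟨θ, f, hθ, hf, hfa, hinj, hsurj⟩ := wellorder X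
  refine ⟨lam omega (fun k => pick θ f (fun x => x ∈ Cs X B (row S k) ∧ x ∉ Y)), ?_⟩
  intro k hk hn
  rw [app_lam hk]
  refine pick_spec hθ (f := f) (fun x => x ∈ Cs X B (row S k) ∧ x ∉ Y) ?_
  have hex : ∃ x : M, x ∈ Cs X B (row S k) ∧ x ∉ Y := by
    by_contra hcon
    refine hn (fun x hx => ?_)
    by_contra hxY
    exact hcon ⟨x, hx, hxY⟩
  obtain ⟨x, hx, hxY⟩ := hex
  obtain ⟨i, hi, hix⟩ := hsurj x (mem_Cs.1 hx).1
  exact ⟨i, hi, by rw [hix]; exact ⟨hx, hxY⟩⟩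

theorem stA (h : Spc X u N B) (hc : Cod g pr p1 p2) {Y : M} (hY : Y ⊆ X) (hb : HB B Y) (S : M) :
    ∃ S' : M, S' ⊆ prod (omega : M) omega ∧
      (∀ y : M, y ∈ Y → ∃ n : M, n ∈ (omega : M) ∧ ∀ m : M, In B m y → opair n m ∈ S') ∧
      (∀ n : M, n ∈ (omega : M) → CC X B (Cs X B (row S' n))) ∧
      ∀ k n : M, k ∈ (omega : M) → n ∈ (omega : M) →
        (∀ m : M, m ∈ (omega : M) → opair k m ∈ S → opair n m ∈ S') → Cs X B (row S k) ⊆ Y := by
  obtain ⟨d, hd⟩ := stA_d X B Y S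
  obtain ⟨Cc, hCcsub, hCc⟩ := stA_rel (fun i m : M => (∀ z z' : M, In B m z → In B m z' → Nb N z z' i) ∧
    (¬ (Cs X B (row S (app p1 i)) ⊆ Y) → ∃ t : M, t ∈ (omega : M) ∧
      ∀ z : M, In B m z → ¬ Nb N (app d (app p1 i)) z t))
  have hcov : ∀ i y : M, i ∈ (omega : M) → y ∈ Y → ∃ m : M, opair i m ∈ Cc ∧ In B m y := by
    intro i y hi hy
    have hyX : y ∈ X := hY y hy
    by_cases hCk : Cs X B (row S (app p1 i)) ⊆ Y
    · obtain ⟨m, hm, hmz⟩ := h.small y (suc i) hyX (suc_mem_omega hi)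
      refine ⟨m, (hCc i m).2 ⟨hi, (h.mem m y hm).1, ?_, fun hh => absurd hCk hh⟩, hm⟩
      intro z z' hz hz'
      exact h.pol.comp z y z' i hi (h.pol.symm _ _ _ (hmz z hz)) (hmz z' hz')
    · obtain ⟨heC, heY⟩ := hd (app p1 i) (hc.p1_mem i hi) hCk
      have hne : ∃ t : M, t ∈ (omega : M) ∧ ¬ Nb N (app d (app p1 i)) y t := by
        by_contra hcon
        have : app d (app p1 i) = y := by
          refine h.pol.sep _ _ (mem_Cs.1 heC).1 hyX (fun k hk => ?_)
          by_contra hN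
          exact hcon ⟨k, hk, hN⟩
        rw [this] at heY
        exact heY hy
      obtain ⟨t0, ht0, hNt⟩ := hne
      obtain ⟨k, hk, hik, htk⟩ := nat_bd (suc_mem_omega hi) (suc_mem_omega ht0)
      obtain ⟨m, hm, hmz⟩ := h.small y k hyX hk
      refine ⟨m, (hCc i m).2 ⟨hi, (h.mem m y hm).1, ?_, fun _ => ⟨suc t0, suc_mem_omega ht0, ?_⟩⟩, hm⟩
      · intro z z' hz hz'
        exact h.pol.comp z y z' i hi (h.pol.symm _ _ _ (h.pol.mono hk (Or.inl hik) (hmz z hz)))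
          (h.pol.mono hk (Or.inl hik) (hmz z' hz'))
      · intro z hz hN
        exact hNt (h.pol.comp _ z y t0 ht0 hN (h.pol.symm _ _ _ (h.pol.mono hk (Or.inl htk) (hmz z hz))))
  obtain ⟨f, hf, hfω, hfY⟩ := hb Cc (fun n x hn hx => hcov n x hn hx)
  obtain ⟨S', hS'sub, hS'⟩ := stA_rel (fun n m : M => ∃ x : M,
    (∀ i : M, i ∈ (omega : M) → Le n i → ∃ m : M, m ∈ app f i ∧ opair i m ∈ Cc ∧ In B m x) ∧ In B m x)
  refine ⟨S', hS'sub, ?_, ?_, ?_⟩
  · intro y hy
    obtain ⟨n0, hn0, hn⟩ := hfY y hy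
    refine ⟨n0, hn0, fun m hm => (hS' n0 m).2 ⟨hn0, (h.mem m y hm).1, y, ?_, hm⟩⟩
    exact hn
  · intro n hn
    refine cc_of_tb h (cs_closed h _) ?_
    intro k hk
    obtain ⟨i, hi, hni, hki⟩ := nat_bd hn (suc_mem_omega (suc_mem_omega hk))
    obtain ⟨l, hl, hla⟩ := bd_nat (fun m l : M => opair i m ∈ Cc → ∀ z' : M, In B m z' →
        ∃ a : M, a ∈ l ∧ Nb N (app u a) z' (suc k)) (by
      intro m l l' hl' hll hP hm z' hz'
      obtain ⟨a, ha, hN⟩ := hP hm z' hz'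
      exact ⟨a, lt_of_lt_of_le' hl' ha hll, hN⟩) (app f i) (hfω i hi) (by
      intro m hm
      by_cases hCm : opair i m ∈ Cc
      · by_cases hz : ∃ z : M, In B m z
        · obtain ⟨z, hz⟩ := hz
          obtain ⟨a, ha, haN⟩ := h.pol.dense z (suc (suc k)) (h.mem m z hz).2 (suc_mem_omega (suc_mem_omega hk))
          refine ⟨suc a, suc_mem_omega ha, fun _ z' hz' => ⟨a, by simp, ?_⟩⟩
          have h1 : Nb N z z' i := ((hCc i m).1 hCm).2.2.1 z z' hz hz'
          exact h.pol.comp _ z z' (suc k) (suc_mem_omega hk) (h.pol.symm _ _ _ haN) (h.pol.mono hi (Or.inl hki) h1)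
        · exact ⟨∅, empty_mem_omega, fun _ z' hz' => absurd ⟨z', hz'⟩ hz⟩
      · exact ⟨∅, empty_mem_omega, fun hh => absurd hh hCm⟩)
    refine ⟨l, hl, ?_⟩
    intro x hx
    obtain ⟨hxX, hxr⟩ := mem_Cs.1 hx
    obtain ⟨m0, hm0, hm0z⟩ := h.small x (suc k) hxX (suc_mem_omega hk)
    obtain ⟨_, _, x', hK, hx'⟩ := (hS' n m0).1 (mem_row.1 (hxr m0 hm0)).2
    obtain ⟨m, hm, hCm, hmx'⟩ := hK i hi (Or.inl hni)
    obtain ⟨a, ha, haN⟩ := hla m hm hCm x' hmx'
    exact ⟨a, ha, h.pol.comp _ x' x k hk haN (h.pol.symm _ _ _ (hm0z x' hx'))⟩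
  · intro k n hk hn hsub
    by_contra hCk
    obtain ⟨heC, heY⟩ := hd k hk hCk
    obtain ⟨i, hi, hni, hik⟩ := hc.p1_cof k n hk hn
    obtain ⟨t, ht, hta⟩ := bd_nat (fun m t : M => opair i m ∈ Cc → ∀ z : M, In B m z →
        ¬ Nb N (app d k) z t) (by
      intro m l l' hl' hll hP hm z hz hN
      exact hP hm z hz (h.pol.mono hl' hll hN)) (app f i) (hfω i hi) (by
      intro m hm
      by_cases hCm : opair i m ∈ Cc
      · have h2 := ((hCc i m).1 hCm).2.2.2
        rw [hik] at h2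
        obtain ⟨t, ht, htz⟩ := h2 hCk
        exact ⟨t, ht, fun _ => htz⟩
      · exact ⟨∅, empty_mem_omega, fun hh => absurd hh hCm⟩)
    obtain ⟨heX, her⟩ := mem_Cs.1 heC
    obtain ⟨m0, hm0, hm0z⟩ := h.small (app d k) t heX ht
    obtain ⟨hm0ω, hm0S⟩ := mem_row.1 (her m0 hm0)
    obtain ⟨_, _, x', hK, hx'⟩ := (hS' n m0).1 (hsub m0 hm0ω hm0S)
    obtain ⟨m, hm, hCm, hmx'⟩ := hK i hi (Or.inl hni)
    exact hta m hm hCm x' hmx' (hm0z x' hx')

end Pool.Agent.COH
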