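import Pool.Agent.COH.Cs1

set_option autoImplicit false
set_option linter.all false

/-!
# Unf: uniformity on compact sets (difficulty 2)

PROOF. `cc_unif`: let `Z = sep omega (fun b => ∃ l, l ∈ omega ∧ P b l)`; it covers `K`; take `n` from `CC`. By `bd_nat` applied
to `P' b l = (b ∈ Z → P b l)` there is `l` with `P b l` for all `b ∈ n`, `b ∈ Z`.
-/

namespace Pool.Agent.COH

open Pool.Agent.H55.SC Pool.Agent.H55.ZFU

universe u

variable {M : Type u} [Model M] [Pure M] {X u N B : M}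

theorem cc_unif (h : Spc X u N B) {K : M} (hK : CC X B K) (P : M → M → Prop) [hP : Dfn2 P]
    (hmono : ∀ b l l' : M, l' ∈ (omega : M) → Le l l' → P b l → P b l')
    (hx : ∀ x : M, x ∈ K → ∃ b l : M, In B b x ∧ l ∈ (omega : M) ∧ P b l) :
    ∃ l : M, l ∈ (omega : M) ∧ ∀ x : M, x ∈ K → ∃ b : M, In B b x ∧ P b l := by
  have iP : ∀ {ι : Type} (t s : (ι → M) → M) [DFun t] [DFun s], Dfn (fun v => P (t v) (s v)) :=
    fun t s _ _ => Dfn.comp2 hP t s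
  obtain ⟨Z, hZ⟩ : ∃ Z : M, ∀ b : M, b ∈ Z ↔ b ∈ (omega : M) ∧ ∃ l : M, l ∈ (omega : M) ∧ P b l :=
    ⟨sep omega (fun b => ∃ l : M, l ∈ (omega : M) ∧ P b l), fun b => mem_sep⟩
  obtain ⟨n, hn, hn'⟩ := hK.2 Z (fun x hxK => by
    obtain ⟨b, l, hb, hl, hp⟩ := hx x hxK
    exact ⟨b, (hZ b).2 ⟨(h.mem b x hb).1, l, hl, hp⟩, hb⟩)
  obtain ⟨l, hl, hl'⟩ := bd_nat (fun b l : M => b ∈ Z → P b l)
    (fun a l l' h1 h2 h3 h4 => hmono a l l' h1 h2 (h3 h4)) n hn (fun a ha => by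
      by_cases haZ : a ∈ Z
      · obtain ⟨-, l, hl, hp⟩ := (hZ a).1 haZ
        exact ⟨l, hl, fun _ => hp⟩
      · exact ⟨∅, empty_mem_omega, fun h => absurd h haZ⟩)
  refine ⟨l, hl, fun x hxK => ?_⟩
  obtain ⟨m, hmZ, hmn, hm⟩ := hn' x hxK
  exact ⟨m, hm, hl' m hmn hmZ⟩

end Pool.Agent.COH
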